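import Mathlib

/-!
Abstract double-count games used for the two-colour flag colouring problem (MP_08830e_co).
-/

namespace FlagColoring

open Filter

/-- The Grundy value of a star with `k` leaves. -/
def s3 (k : ℕ) : ℕ := if k = 0 then 0 else if k % 2 = 1 then 1 else 2

lemma s3_zero : s3 0 = 0 := rfl

lemma s3_odd {k : ℕ} (h : k % 2 = 1) : s3 k = 1 := by
  unfold s3
  have : k ≠ 0 := by rintro rfl; simp at h
  simp [this, h]

lemma s3_even {k : ℕ} (h : k % 2 = 0) (hk : 1 ≤ k) : s3 k = 2 := by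
  unfold s3
  have : k ≠ 0 := by omega
  simp [this, h]

lemma s3_ne_zero {k : ℕ} (hk : 1 ≤ k) : s3 k ≠ 0 := by
  rcases Nat.mod_two_eq_zero_or_one k with h | h
  · rw [s3_even h hk]; norm_num
  · rw [s3_odd h]; norm_num

lemma s3_le_two (k : ℕ) : s3 k ≤ 2 := by
  unfold s3; split_ifs <;> norm_num

/-- minimal excluded value -/
noncomputable def mex (A : Set ℕ) : ℕ := sInf Aᶜ

lemma mex_notMem {A : Set ℕ} (hA : A.Finite) : mex A ∉ A := by
  have : (Aᶜ).Nonempty := hA.infinite_compl.nonempty
  exact Nat.sInf_mem this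

lemma mem_of_lt_mex {A : Set ℕ} {k : ℕ} (h : k < mex A) : k ∈ A := by
  by_contra hk
  exact absurd (Nat.sInf_le (show k ∈ Aᶜ from hk)) (not_le.mpr h)

lemma mex_eq {A : Set ℕ} {n : ℕ} (h1 : n ∉ A) (h2 : ∀ k < n, k ∈ A) : mex A = n := by
  apply le_antisymm
  · exact Nat.sInf_le (show n ∈ Aᶜ from h1)
  · by_contra hlt
    push Not at hlt
    have hne : (Aᶜ).Nonempty := ⟨n, h1⟩
    have := Nat.sInf_mem hne
    exact this (h2 _ hlt)

/-- A game in which a position additionally carries two counters `c d`. -/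
structure Game (P : Type) where
  opt : P → P → Prop
  mu : P → ℕ
  dec : ∀ {X Y}, opt X Y → mu Y < mu X
  fin : ∀ X, {Y | opt X Y}.Finite
  a : P → ℕ
  b : P → ℕ
  par : ∀ {X Y}, opt X Y → (a X + a Y) % 2 = 1 ∨ (b X + b Y) % 2 = 1

namespace Game

variable {P : Type} (g : Game P)

noncomputable def val (g : Game P) (X : P) (c d : ℕ) : ℕ :=
  mex {v | (∃ Y, ∃ _ : g.opt X Y, g.val Y c d = v) ∨ (∃ c', ∃ _ : c = c' + 1, g.val X c' d = v) ∨
    (∃ d', ∃ _ : d = d' + 1, g.val X c d' = v) ∨ v = s3 (g.a X + c) ∨ v = s3 (g.b X + d)}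
termination_by g.mu X + c + d
decreasing_by
  · have := g.dec ‹g.opt X Y›
    omega
  · omega
  · omega

def vals (X : P) (c d : ℕ) : Set ℕ :=
  {v | (∃ Y, g.opt X Y ∧ g.val Y c d = v) ∨ (∃ c', c = c' + 1 ∧ g.val X c' d = v) ∨
    (∃ d', d = d' + 1 ∧ g.val X c d' = v) ∨ v = s3 (g.a X + c) ∨ v = s3 (g.b X + d)}

lemma val_eq_mex (X : P) (c d : ℕ) : g.val X c d = mex (g.vals X c d) := by
  rw [val, vals]
  simp only [exists_prop]

lemma vals_finite (X : P) (c d : ℕ) : (g.vals X c d).Finite := by
  have h1 : {v | ∃ Y, g.opt X Y ∧ g.val Y c d = v}.Finite := by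
    have := (g.fin X).image (fun Y => g.val Y c d)
    refine this.subset ?_
    rintro v ⟨Y, hY, rfl⟩
    exact ⟨Y, hY, rfl⟩
  have h2 : {v | ∃ c', c = c' + 1 ∧ g.val X c' d = v}.Finite := by
    refine (Set.finite_singleton (g.val X (c - 1) d)).subset ?_
    rintro v ⟨c', rfl, rfl⟩
    simp
  have h3 : {v | ∃ d', d = d' + 1 ∧ g.val X c d' = v}.Finite := by
    refine (Set.finite_singleton (g.val X c (d - 1))).subset ?_
    rintro v ⟨c', rfl, rfl⟩
    simp
  have h4 : {v | v = s3 (g.a X + c)}.Finite := Set.finite_singleton _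
  have h5 : {v | v = s3 (g.b X + d)}.Finite := Set.finite_singleton _
  exact h1.union (h2.union (h3.union (h4.union h5)))

lemma val_notMem (X : P) (c d : ℕ) : g.val X c d ∉ g.vals X c d := by
  rw [val_eq_mex]
  exact mex_notMem (g.vals_finite X c d)

lemma val_mem {X : P} {c d k : ℕ} (h : k < g.val X c d) : k ∈ g.vals X c d := by
  rw [val_eq_mex] at h
  exact mem_of_lt_mex h

lemma val_eq_of {X : P} {c d n : ℕ} (h1 : n ∉ g.vals X c d) (h2 : ∀ k < n, k ∈ g.vals X c d) :
    g.val X c d = n := by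
  rw [val_eq_mex]
  exact mex_eq h1 h2

lemma val_ne_zero_iff {X : P} {c d : ℕ} : g.val X c d ≠ 0 ↔ 0 ∈ g.vals X c d := by
  constructor
  · intro h
    exact g.val_mem (Nat.pos_of_ne_zero h)
  · intro h h0
    exact g.val_notMem X c d (h0 ▸ h)

lemma mem_vals_opt {X Y : P} (h : g.opt X Y) (c d : ℕ) : g.val Y c d ∈ g.vals X c d :=
  Or.inl ⟨Y, h, rfl⟩

lemma mem_vals_c (X : P) (c d : ℕ) : g.val X c d ∈ g.vals X (c + 1) d :=
  Or.inr (Or.inl ⟨c, rfl, rfl⟩)

lemma mem_vals_d (X : P) (c d : ℕ) : g.val X c d ∈ g.vals X c (d + 1) :=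
  Or.inr (Or.inr (Or.inl ⟨d, rfl, rfl⟩))

lemma mem_vals_a (X : P) (c d : ℕ) : s3 (g.a X + c) ∈ g.vals X c d :=
  Or.inr (Or.inr (Or.inr (Or.inl rfl)))

lemma mem_vals_b (X : P) (c d : ℕ) : s3 (g.b X + d) ∈ g.vals X c d :=
  Or.inr (Or.inr (Or.inr (Or.inr rfl)))

/-- In a mixed class both `1` and `2` are option values. -/
lemma mixed_mem {X : P} {c d : ℕ} (hodd : (g.a X + c + (g.b X + d)) % 2 = 1)
    (ha : 1 ≤ g.a X + c) (hb : 1 ≤ g.b X + d) : 1 ∈ g.vals X c d ∧ 2 ∈ g.vals X c d := by
  have h1 := g.mem_vals_a X c d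
  have h2 := g.mem_vals_b X c d
  rcases Nat.mod_two_eq_zero_or_one (g.a X + c) with h | h
  · have h' : (g.b X + d) % 2 = 1 := by omega
    rw [s3_even h ha] at h1
    rw [s3_odd h'] at h2
    exact ⟨h2, h1⟩
  · have h' : (g.b X + d) % 2 = 0 := by omega
    rw [s3_odd h] at h1
    rw [s3_even h' hb] at h2
    exact ⟨h1, h2⟩

lemma mixed_ne {X : P} {c d : ℕ} (hodd : (g.a X + c + (g.b X + d)) % 2 = 1)
    (ha : 1 ≤ g.a X + c) (hb : 1 ≤ g.b X + d) : g.val X c d ≠ 1 ∧ g.val X c d ≠ 2 := by
  obtain ⟨h1, h2⟩ := g.mixed_mem hodd ha hb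
  exact ⟨fun h => g.val_notMem X c d (h ▸ h1), fun h => g.val_notMem X c d (h ▸ h2)⟩

/-- same-parity classes have small values -/
lemma same_val (n : ℕ) : ∀ (X : P) (c d : ℕ), g.mu X ≤ n → 2 ≤ c → 2 ≤ d →
    ((g.a X + c) % 2 = 1 → (g.b X + d) % 2 = 1 → g.val X c d = 0 ∨ g.val X c d = 2) ∧
    ((g.a X + c) % 2 = 0 → (g.b X + d) % 2 = 0 → g.val X c d = 0 ∨ g.val X c d = 1) := by
  induction n with
  | zero =>
    intro X c d hX hc hd
    have hno : ∀ Y, ¬ g.opt X Y := fun Y hY => by
      have := g.dec hY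
      omega
    constructor
    · intro hodd hodd'
      have h1 := g.mem_vals_a X c d
      rw [s3_odd hodd] at h1
      have h2 : (2 : ℕ) ∉ g.vals X c d := by
        rintro (⟨Y, hY, _⟩ | ⟨c', rfl, h⟩ | ⟨d', rfl, h⟩ | h | h)
        · exact hno Y hY
        · exact (g.mixed_ne (X := X) (c := c') (d := d) (by omega) (by omega) (by omega)).2 h
        · exact (g.mixed_ne (X := X) (c := c) (d := d') (by omega) (by omega) (by omega)).2 h
        · rw [s3_odd hodd] at h; omega
        · rw [s3_odd hodd'] at h; omega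
      have h3 : g.val X c d ≤ 2 := by
        by_contra hlt
        exact h2 (g.val_mem (by omega))
      have h4 : g.val X c d ≠ 1 := fun h => g.val_notMem X c d (h ▸ h1)
      omega
    · intro hodd hodd'
      have h2 : (1 : ℕ) ∉ g.vals X c d := by
        rintro (⟨Y, hY, _⟩ | ⟨c', rfl, h⟩ | ⟨d', rfl, h⟩ | h | h)
        · exact hno Y hY
        · exact (g.mixed_ne (X := X) (c := c') (d := d) (by omega) (by omega) (by omega)).1 h
        · exact (g.mixed_ne (X := X) (c := c) (d := d') (by omega) (by omega) (by omega)).1 h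
        · rw [s3_even hodd (by omega)] at h; omega
        · rw [s3_even hodd' (by omega)] at h; omega
      have h3 : g.val X c d ≤ 1 := by
        by_contra hlt
        exact h2 (g.val_mem (by omega))
      omega
  | succ n ih =>
    intro X c d hX hc hd
    constructor
    · intro hodd hodd'
      have h1 := g.mem_vals_a X c d
      rw [s3_odd hodd] at h1
      have h2 : (2 : ℕ) ∉ g.vals X c d := by
        rintro (⟨Y, hY, h⟩ | ⟨c', rfl, h⟩ | ⟨d', rfl, h⟩ | h | h)
        · have hmu := g.dec hY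
          have hp := g.par hY
          by_cases hmix : (g.a Y + c + (g.b Y + d)) % 2 = 1
          · exact (g.mixed_ne hmix (by omega) (by omega)).2 h
          · have := (ih Y c d (by omega) hc hd).2 (by omega) (by omega)
            omega
        · exact (g.mixed_ne (X := X) (c := c') (d := d) (by omega) (by omega) (by omega)).2 h
        · exact (g.mixed_ne (X := X) (c := c) (d := d') (by omega) (by omega) (by omega)).2 h
        · rw [s3_odd hodd] at h; omega
        · rw [s3_odd hodd'] at h; omega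
      have h3 : g.val X c d ≤ 2 := by
        by_contra hlt
        exact h2 (g.val_mem (by omega))
      have h4 : g.val X c d ≠ 1 := fun h => g.val_notMem X c d (h ▸ h1)
      omega
    · intro hodd hodd'
      have h2 : (1 : ℕ) ∉ g.vals X c d := by
        rintro (⟨Y, hY, h⟩ | ⟨c', rfl, h⟩ | ⟨d', rfl, h⟩ | h | h)
        · have hmu := g.dec hY
          have hp := g.par hY
          by_cases hmix : (g.a Y + c + (g.b Y + d)) % 2 = 1
          · exact (g.mixed_ne hmix (by omega) (by omega)).1 h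
          · have := (ih Y c d (by omega) hc hd).1 (by omega) (by omega)
            omega
        · exact (g.mixed_ne (X := X) (c := c') (d := d) (by omega) (by omega) (by omega)).1 h
        · exact (g.mixed_ne (X := X) (c := c) (d := d') (by omega) (by omega) (by omega)).1 h
        · rw [s3_even hodd (by omega)] at h; omega
        · rw [s3_even hodd' (by omega)] at h; omega
      have h3 : g.val X c d ≤ 1 := by
        by_contra hlt
        exact h2 (g.val_mem (by omega))
      omega

lemma same_le_two {X : P} {c d : ℕ} (hc : 2 ≤ c) (hd : 2 ≤ d)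
    (h : (g.a X + c + (g.b X + d)) % 2 = 0) : g.val X c d ≤ 2 := by
  have := g.same_val (g.mu X) X c d le_rfl hc hd
  rcases Nat.mod_two_eq_zero_or_one (g.a X + c) with h' | h'
  · have := this.2 h' (by omega); omega
  · have := this.1 h' (by omega); omega

/-- two positions in the same same-parity class with equal zero-ness have equal value -/
lemma same_eq_of_zero_iff {Q : Type} (g' : Game Q) {X : P} {Y : Q} {c d c' d' : ℕ}
    (hc : 2 ≤ c) (hd : 2 ≤ d) (hc' : 2 ≤ c') (hd' : 2 ≤ d')
    (h : (g.a X + c + (g.b X + d)) % 2 = 0)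
    (ha : (g.a X + c) % 2 = (g'.a Y + c') % 2) (hb : (g.b X + d) % 2 = (g'.b Y + d') % 2)
    (h0 : g.val X c d = 0 ↔ g'.val Y c' d' = 0) : g.val X c d = g'.val Y c' d' := by
  have h1 := g.same_val (g.mu X) X c d le_rfl hc hd
  have h2 := g'.same_val (g'.mu Y) Y c' d' le_rfl hc' hd'
  rcases Nat.mod_two_eq_zero_or_one (g.a X + c) with h' | h'
  · have h3 := h1.2 h' (by omega)
    have h4 := h2.2 (by omega) (by omega)
    by_cases hz : g.val X c d = 0
    · rw [hz, h0.1 hz]
    · have : g'.val Y c' d' ≠ 0 := fun hh => hz (h0.2 hh)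
      omega
  · have h3 := h1.1 h' (by omega)
    have h4 := h2.1 (by omega) (by omega)
    by_cases hz : g.val X c d = 0
    · rw [hz, h0.1 hz]
    · have : g'.val Y c' d' ≠ 0 := fun hh => hz (h0.2 hh)
      omega

/-- zero-ness along a diagonal is eventually constant -/
lemma zero_dich (n : ℕ) : ∀ (X : P), g.mu X ≤ n → ∀ (p q : ℕ),
    (∀ᶠ t in atTop, g.val X (p + t) (q + t) = 0) ∨
    (∀ᶠ t in atTop, g.val X (p + t) (q + t) ≠ 0) := by
  induction n using Nat.strong_induction_on with
  | _ n ih =>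
    intro X hX p q
    by_cases hex : ∃ Y, g.opt X Y ∧ ∀ᶠ t in atTop, g.val Y (p + t) (q + t) = 0
    · obtain ⟨Y, hY, hev⟩ := hex
      right
      filter_upwards [hev] with t ht
      rw [val_ne_zero_iff, ← ht]
      exact g.mem_vals_opt hY _ _
    · simp only [not_exists, not_and] at hex
      have hall : ∀ᶠ t in atTop, ∀ Y ∈ {Y | g.opt X Y}, g.val Y (p + t) (q + t) ≠ 0 := by
        rw [Filter.eventually_all_finite (g.fin X)]
        intro Y hY
        have hmu := g.dec (show g.opt X Y from hY)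
        rcases ih (g.mu Y) (by omega) Y le_rfl p q with h | h
        · exact absurd h (hex Y hY)
        · exact h
      obtain ⟨T0, hT0⟩ := Filter.eventually_atTop.1 hall
      by_cases hz : ∃ t1, T0 ≤ t1 ∧ 1 ≤ t1 ∧ g.val X (p + t1) (q + t1) = 0
      · left
        obtain ⟨t1, h1, h1', h2⟩ := hz
        rw [Filter.eventually_atTop]
        refine ⟨t1, fun t ht => ?_⟩
        induction t, ht using Nat.le_induction with
        | base => exact h2
        | succ t ht iht =>
          by_contra hne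
          have hmem := g.val_ne_zero_iff.1 hne
          rcases hmem with ⟨Y, hY, h⟩ | ⟨c', hc', h⟩ | ⟨d', hd', h⟩ | h | h
          · exact hT0 (t + 1) (by omega) Y hY h
          · have : c' = p + t := by omega
            subst this
            have : g.val X (p + t) (q + t) ∈ g.vals X (p + t) (q + (t + 1)) := g.mem_vals_d X _ _
            rw [iht] at this
            exact g.val_ne_zero_iff.2 this h
          · have : d' = q + t := by omega
            subst this
            have : g.val X (p + t) (q + t) ∈ g.vals X (p + (t + 1)) (q + t) := g.mem_vals_c X _ _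
            rw [iht] at this
            exact g.val_ne_zero_iff.2 this h
          · exact s3_ne_zero (by omega) h.symm
          · exact s3_ne_zero (by omega) h.symm
      · right
        push Not at hz
        filter_upwards [Filter.eventually_ge_atTop (max T0 1)] with t ht
        exact hz t (le_trans (le_max_left _ _) ht) (le_trans (le_max_right _ _) ht)

lemma zero_stab (X : P) (p q : ℕ) :
    ∀ᶠ t in atTop, (g.val X (p + (t + 1)) (q + (t + 1)) = 0 ↔ g.val X (p + t) (q + t) = 0) := by
  rcases g.zero_dich (g.mu X) X le_rfl p q with h | h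
  · filter_upwards [h, (Filter.tendsto_add_atTop_nat 1).eventually h] with t h1 h2
    simp [h1, h2]
  · filter_upwards [h, (Filter.tendsto_add_atTop_nat 1).eventually h] with t h1 h2
    simp [h1, h2]

/-- mixed values along a diagonal are eventually constant -/
lemma mixed_stab (n : ℕ) : ∀ (X : P), g.mu X ≤ n → ∀ (p q : ℕ),
    (g.a X + p + (g.b X + q)) % 2 = 1 →
    ∀ᶠ t in atTop, g.val X (p + (t + 1)) (q + (t + 1)) = g.val X (p + t) (q + t) := by
  induction n using Nat.strong_induction_on with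
  | _ n ih =>
    intro X hX p q hodd
    have hall : ∀ᶠ t in atTop, ∀ Y ∈ {Y | g.opt X Y},
        ((g.a Y + p + (g.b Y + q)) % 2 = 1 →
          g.val Y (p + (t + 1)) (q + (t + 1)) = g.val Y (p + t) (q + t)) ∧
        (g.val Y (p + (t + 1)) (q + (t + 1)) = 0 ↔ g.val Y (p + t) (q + t) = 0) := by
      rw [Filter.eventually_all_finite (g.fin X)]
      intro Y hY
      have hmu := g.dec (show g.opt X Y from hY)
      refine Filter.Eventually.and ?_ (g.zero_stab Y p q)
      by_cases hp : (g.a Y + p + (g.b Y + q)) % 2 = 1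
      · filter_upwards [ih (g.mu Y) (by omega) Y le_rfl p q hp] with t ht _
        exact ht
      · exact Filter.Eventually.of_forall (fun t h => absurd h hp)
    have hc := g.zero_stab X p (q + 1)
    have hd := g.zero_stab X (p + 1) q
    obtain ⟨T0, hT0⟩ := Filter.eventually_atTop.1 hall
    obtain ⟨T1, hT1⟩ := Filter.eventually_atTop.1 hc
    obtain ⟨T2, hT2⟩ := Filter.eventually_atTop.1 hd
    rw [Filter.eventually_atTop]
    refine ⟨T0 + T1 + T2 + 5, fun t ht => ?_⟩
    -- it suffices to compare the sets of option values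
    have key : g.vals X (p + (t + 1)) (q + (t + 1)) = g.vals X (p + t) (q + t) := by
      obtain ⟨m1, m2⟩ := g.mixed_mem (X := X) (c := p + t) (d := q + t)
        (by omega) (by omega) (by omega)
      obtain ⟨m1', m2'⟩ := g.mixed_mem (X := X) (c := p + (t + 1)) (d := q + (t + 1))
        (by omega) (by omega) (by omega)
      -- helper : small values
      have small : ∀ v, v ≤ 2 → v ≠ 0 → v ∈ g.vals X (p + t) (q + t) := by
        intro v hv hv0
        have : v = 1 ∨ v = 2 := by omega
        rcases this with rfl | rfl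
        · exact m1
        · exact m2
      have small' : ∀ v, v ≤ 2 → v ≠ 0 → v ∈ g.vals X (p + (t + 1)) (q + (t + 1)) := by
        intro v hv hv0
        have : v = 1 ∨ v = 2 := by omega
        rcases this with rfl | rfl
        · exact m1'
        · exact m2'
      obtain ⟨t', rfl⟩ : ∃ t', t = t' + 1 := ⟨t - 1, by omega⟩
      have hc1 := hT1 t' (by omega)
      have hd1 := hT2 t' (by omega)
      have e1 : q + 1 + (t' + 1) = q + (t' + 1 + 1) := by omega
      have e2 : q + 1 + t' = q + (t' + 1) := by omega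
      have e3 : p + 1 + (t' + 1) = p + (t' + 1 + 1) := by omega
      have e4 : p + 1 + t' = p + (t' + 1) := by omega
      rw [e1, e2] at hc1
      rw [e3, e4] at hd1
      apply Set.Subset.antisymm
      · rintro v (⟨Y, hY, rfl⟩ | ⟨c', hc', rfl⟩ | ⟨d', hd', rfl⟩ | rfl | rfl)
        · obtain ⟨y1, y2⟩ := hT0 (t' + 1) (by omega) Y hY
          by_cases hp : (g.a Y + p + (g.b Y + q)) % 2 = 1
          · rw [y1 hp]
            exact g.mem_vals_opt hY _ _
          · by_cases hz : g.val Y (p + (t' + 1 + 1)) (q + (t' + 1 + 1)) = 0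
            · rw [hz, ← y2.1 hz]
              exact g.mem_vals_opt hY _ _
            · exact small _ (g.same_le_two (by omega) (by omega) (by omega)) hz
        · obtain rfl : c' = p + (t' + 1) := by omega
          by_cases hz : g.val X (p + (t' + 1)) (q + (t' + 1 + 1)) = 0
          · rw [hz, ← hc1.1 hz]
            exact g.mem_vals_c X _ _
          · exact small _ (g.same_le_two (by omega) (by omega) (by omega)) hz
        · obtain rfl : d' = q + (t' + 1) := by omega
          by_cases hz : g.val X (p + (t' + 1 + 1)) (q + (t' + 1)) = 0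
          · rw [hz, ← hd1.1 hz]
            exact g.mem_vals_d X _ _
          · exact small _ (g.same_le_two (by omega) (by omega) (by omega)) hz
        · exact small _ (s3_le_two _) (s3_ne_zero (by omega))
        · exact small _ (s3_le_two _) (s3_ne_zero (by omega))
      · rintro v (⟨Y, hY, rfl⟩ | ⟨c', hc', rfl⟩ | ⟨d', hd', rfl⟩ | rfl | rfl)
        · obtain ⟨y1, y2⟩ := hT0 (t' + 1) (by omega) Y hY
          by_cases hp : (g.a Y + p + (g.b Y + q)) % 2 = 1
          · rw [← y1 hp]
            exact g.mem_vals_opt hY _ _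
          · by_cases hz : g.val Y (p + (t' + 1)) (q + (t' + 1)) = 0
            · rw [hz, ← y2.2 hz]
              exact g.mem_vals_opt hY _ _
            · exact small' _ (g.same_le_two (by omega) (by omega) (by omega)) hz
        · obtain rfl : c' = p + t' := by omega
          by_cases hz : g.val X (p + t') (q + (t' + 1)) = 0
          · rw [hz, ← hc1.2 hz]
            exact g.mem_vals_c X _ _
          · exact small' _ (g.same_le_two (by omega) (by omega) (by omega)) hz
        · obtain rfl : d' = q + t' := by omega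
          by_cases hz : g.val X (p + (t' + 1)) (q + t') = 0
          · rw [hz, ← hd1.2 hz]
            exact g.mem_vals_d X _ _
          · exact small' _ (g.same_le_two (by omega) (by omega) (by omega)) hz
        · exact small' _ (s3_le_two _) (s3_ne_zero (by omega))
        · exact small' _ (s3_le_two _) (s3_ne_zero (by omega))
    rw [val_eq_mex, val_eq_mex, key]

/-- existence of the diagonal limit in the mixed classes -/
lemma mixed_lim (X : P) (p q : ℕ) (h : (g.a X + p + (g.b X + q)) % 2 = 1) :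
    ∃ n, ∀ᶠ t in atTop, g.val X (p + t) (q + t) = n := by
  obtain ⟨T, hT⟩ := Filter.eventually_atTop.1 (g.mixed_stab (g.mu X) X le_rfl p q h)
  refine ⟨g.val X (p + T) (q + T), ?_⟩
  rw [Filter.eventually_atTop]
  refine ⟨T, fun t ht => ?_⟩
  induction t, ht using Nat.le_induction with
  | base => rfl
  | succ t ht iht => rw [hT t ht, iht]

end Game

/-- bisimulation principle -/
lemma bisim {P Q : Type} (g : Game P) (g' : Game Q) (Rel : P → ℕ → ℕ → Q → ℕ → ℕ → Prop)
    (hE : ∀ X c d Y c' d', Rel X c d Y c' d' →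
      ({s3 (g.a X + c), s3 (g.b X + d)} : Set ℕ) = {s3 (g'.a Y + c'), s3 (g'.b Y + d')})
    (h1 : ∀ X c d Y c' d', Rel X c d Y c' d' → ∀ X', g.opt X X' →
      ∃ Y' e f, ((g'.opt Y Y' ∧ e = c' ∧ f = d') ∨ (Y' = Y ∧ c' = e + 1 ∧ f = d') ∨
        (Y' = Y ∧ e = c' ∧ d' = f + 1)) ∧ Rel X' c d Y' e f)
    (h1c : ∀ X c d Y c' d', Rel X (c + 1) d Y c' d' →
      ∃ Y' e f, ((g'.opt Y Y' ∧ e = c' ∧ f = d') ∨ (Y' = Y ∧ c' = e + 1 ∧ f = d') ∨
        (Y' = Y ∧ e = c' ∧ d' = f + 1)) ∧ Rel X c d Y' e f)
    (h1d : ∀ X c d Y c' d', Rel X c (d + 1) Y c' d' →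
      ∃ Y' e f, ((g'.opt Y Y' ∧ e = c' ∧ f = d') ∨ (Y' = Y ∧ c' = e + 1 ∧ f = d') ∨
        (Y' = Y ∧ e = c' ∧ d' = f + 1)) ∧ Rel X c d Y' e f)
    (h2 : ∀ X c d Y c' d', Rel X c d Y c' d' → ∀ Y', g'.opt Y Y' →
      ∃ X' e f, ((g.opt X X' ∧ e = c ∧ f = d) ∨ (X' = X ∧ c = e + 1 ∧ f = d) ∨
        (X' = X ∧ e = c ∧ d = f + 1)) ∧ Rel X' e f Y' c' d')
    (h2c : ∀ X c d Y c' d', Rel X c d Y (c' + 1) d' →
      ∃ X' e f, ((g.opt X X' ∧ e = c ∧ f = d) ∨ (X' = X ∧ c = e + 1 ∧ f = d) ∨
        (X' = X ∧ e = c ∧ d = f + 1)) ∧ Rel X' e f Y c' d')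
    (h2d : ∀ X c d Y c' d', Rel X c d Y c' (d' + 1) →
      ∃ X' e f, ((g.opt X X' ∧ e = c ∧ f = d) ∨ (X' = X ∧ c = e + 1 ∧ f = d) ∨
        (X' = X ∧ e = c ∧ d = f + 1)) ∧ Rel X' e f Y c' d') :
    ∀ X c d Y c' d', Rel X c d Y c' d' → g.val X c d = g'.val Y c' d' := by
  have main : ∀ n X c d Y c' d', g.mu X + c + d ≤ n → Rel X c d Y c' d' →
      g.val X c d = g'.val Y c' d' := by
    intro n
    induction n using Nat.strong_induction_on with
    | _ n ih =>
      intro X c d Y c' d' hn hR
      have IH : ∀ X1 c1 d1 Y1 c1' d1', g.mu X1 + c1 + d1 < g.mu X + c + d →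
          Rel X1 c1 d1 Y1 c1' d1' → g.val X1 c1 d1 = g'.val Y1 c1' d1' := by
        intro X1 c1 d1 Y1 c1' d1' hlt hR'
        exact ih (g.mu X1 + c1 + d1) (by omega) X1 c1 d1 Y1 c1' d1' le_rfl hR'
      have key : g.vals X c d = g'.vals Y c' d' := by
        have hEE := hE X c d Y c' d' hR
        -- membership of a value of a g' neighbour
        have toR : ∀ Y' e f, ((g'.opt Y Y' ∧ e = c' ∧ f = d') ∨ (Y' = Y ∧ c' = e + 1 ∧ f = d') ∨
            (Y' = Y ∧ e = c' ∧ d' = f + 1)) → g'.val Y' e f ∈ g'.vals Y c' d' := by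
          rintro Y' e f (⟨h, rfl, rfl⟩ | ⟨rfl, rfl, rfl⟩ | ⟨rfl, rfl, rfl⟩)
          · exact g'.mem_vals_opt h _ _
          · exact g'.mem_vals_c _ _ _
          · exact g'.mem_vals_d _ _ _
        have toL : ∀ X' e f, ((g.opt X X' ∧ e = c ∧ f = d) ∨ (X' = X ∧ c = e + 1 ∧ f = d) ∨
            (X' = X ∧ e = c ∧ d = f + 1)) →
            g.val X' e f ∈ g.vals X c d ∧ g.mu X' + e + f < g.mu X + c + d := by
          rintro X' e f (⟨h, rfl, rfl⟩ | ⟨rfl, rfl, rfl⟩ | ⟨rfl, rfl, rfl⟩)
          · exact ⟨g.mem_vals_opt h _ _, by have := g.dec h; omega⟩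
          · exact ⟨g.mem_vals_c _ _ _, by omega⟩
          · exact ⟨g.mem_vals_d _ _ _, by omega⟩
        apply Set.Subset.antisymm
        · rintro v (⟨X', hX', rfl⟩ | ⟨c1, rfl, rfl⟩ | ⟨d1, rfl, rfl⟩ | rfl | rfl)
          · obtain ⟨Y', e, f, hY', hR'⟩ := h1 X c d Y c' d' hR X' hX'
            rw [IH X' c d Y' e f (by have := g.dec hX'; omega) hR']
            exact toR Y' e f hY'
          · obtain ⟨Y', e, f, hY', hR'⟩ := h1c X c1 d Y c' d' hR
            rw [IH X c1 d Y' e f (by omega) hR']
            exact toR Y' e f hY'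
          · obtain ⟨Y', e, f, hY', hR'⟩ := h1d X c d1 Y c' d' hR
            rw [IH X c d1 Y' e f (by omega) hR']
            exact toR Y' e f hY'
          · have : s3 (g.a X + c) ∈ ({s3 (g'.a Y + c'), s3 (g'.b Y + d')} : Set ℕ) := by
              rw [← hEE]; simp
            rcases this with h | h
            · rw [h]; exact g'.mem_vals_a _ _ _
            · rw [h]; exact g'.mem_vals_b _ _ _
          · have : s3 (g.b X + d) ∈ ({s3 (g'.a Y + c'), s3 (g'.b Y + d')} : Set ℕ) := by
              rw [← hEE]; simp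
            rcases this with h | h
            · rw [h]; exact g'.mem_vals_a _ _ _
            · rw [h]; exact g'.mem_vals_b _ _ _
        · rintro v (⟨Y', hY', rfl⟩ | ⟨c1, rfl, rfl⟩ | ⟨d1, rfl, rfl⟩ | rfl | rfl)
          · obtain ⟨X', e, f, hX', hR'⟩ := h2 X c d Y c' d' hR Y' hY'
            obtain ⟨m1, m2⟩ := toL X' e f hX'
            rw [← IH X' e f Y' c' d' m2 hR']
            exact m1
          · obtain ⟨X', e, f, hX', hR'⟩ := h2c X c d Y c1 d' hR
            obtain ⟨m1, m2⟩ := toL X' e f hX'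
            rw [← IH X' e f Y c1 d' m2 hR']
            exact m1
          · obtain ⟨X', e, f, hX', hR'⟩ := h2d X c d Y c' d1 hR
            obtain ⟨m1, m2⟩ := toL X' e f hX'
            rw [← IH X' e f Y c' d1 m2 hR']
            exact m1
          · have : s3 (g'.a Y + c') ∈ ({s3 (g.a X + c), s3 (g.b X + d)} : Set ℕ) := by
              rw [hEE]; simp
            rcases this with h | h
            · rw [h]; exact g.mem_vals_a _ _ _
            · rw [h]; exact g.mem_vals_b _ _ _
          · have : s3 (g'.b Y + d') ∈ ({s3 (g.a X + c), s3 (g.b X + d)} : Set ℕ) := by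
              rw [hEE]; simp
            rcases this with h | h
            · rw [h]; exact g.mem_vals_a _ _ _
            · rw [h]; exact g.mem_vals_b _ _ _
      rw [g.val_eq_mex, g'.val_eq_mex, key]
  intro X c d Y c' d' hR
  exact main _ X c d Y c' d' le_rfl hR

end FlagColoring
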