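import Pool.Agent.Helper35.FlagAbs

/-!
The concrete bipartite game behind the two-colour flag colouring problem (MP_08830e_co).
-/

namespace FlagColoring

open Filter
open scoped Classical

variable {α β : Type}

/-- The bipartite game: `(S, T, r)` = free vertices on both sides and `r` extra vertices on the
first side that are adjacent to all of `T` (but not to the `d` isolated vertices counted by the
second counter). -/
noncomputable def bg (R : α → β → Prop) : Game (Finset α × Finset β × ℕ) where
  opt X Y := (∃ a ∈ X.1, Y = (X.1.erase a, X.2.1.filter (fun b => ¬ R a b), X.2.2)) ∨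
    (∃ b ∈ X.2.1, Y = (X.1.filter (fun a => ¬ R a b), X.2.1.erase b, 0)) ∨
    (∃ k, X.2.2 = k + 1 ∧ Y = (X.1, ∅, k))
  mu X := X.1.card + X.2.1.card + X.2.2
  dec := by
    rintro ⟨S, T, r⟩ Y (⟨a, ha, rfl⟩ | ⟨b, hb, rfl⟩ | ⟨k, hk, rfl⟩)
    · have h1 := Finset.card_erase_lt_of_mem ha
      have h2 := Finset.card_filter_le T (fun b => ¬ R a b)
      simp only at h1 h2 ⊢
      omega
    · have h1 := Finset.card_erase_lt_of_mem hb
      have h2 := Finset.card_filter_le S (fun a => ¬ R a b)
      simp only at h1 h2 ⊢
      omega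
    · simp only at hk ⊢
      simp only [Finset.card_empty]
      omega
  fin := by
    rintro ⟨S, T, r⟩
    have h1 : {Y : Finset α × Finset β × ℕ | ∃ a ∈ S,
        Y = (S.erase a, T.filter (fun b => ¬ R a b), r)}.Finite := by
      refine (S.finite_toSet.image (fun a => (S.erase a, T.filter (fun b => ¬ R a b), r))).subset ?_
      rintro Y ⟨a, ha, rfl⟩
      exact ⟨a, ha, rfl⟩
    have h2 : {Y : Finset α × Finset β × ℕ | ∃ b ∈ T,
        Y = (S.filter (fun a => ¬ R a b), T.erase b, 0)}.Finite := by
      refine (T.finite_toSet.image (fun b => (S.filter (fun a => ¬ R a b), T.erase b, 0))).subset ?_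
      rintro Y ⟨a, ha, rfl⟩
      exact ⟨a, ha, rfl⟩
    have h3 : {Y : Finset α × Finset β × ℕ | ∃ k, r = k + 1 ∧ Y = (S, ∅, k)}.Finite := by
      refine (Set.finite_singleton (S, (∅ : Finset β), r - 1)).subset ?_
      rintro Y ⟨k, rfl, rfl⟩
      simp
    exact h1.union (h2.union h3)
  a X := X.1.card + X.2.2
  b X := X.2.1.card
  par := by
    rintro ⟨S, T, r⟩ Y (⟨a, ha, rfl⟩ | ⟨b, hb, rfl⟩ | ⟨k, hk, rfl⟩)
    · left
      have h1 := Finset.card_erase_add_one ha
      simp only at h1 ⊢
      omega
    · right
      have h1 := Finset.card_erase_add_one hb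
      simp only at h1 ⊢
      omega
    · left
      simp only at hk ⊢
      omega

variable (R : α → β → Prop)

lemma bg_opt_a {S : Finset α} (T : Finset β) (r : ℕ) {a : α} (ha : a ∈ S) :
    (bg R).opt (S, T, r) (S.erase a, T.filter (fun b => ¬ R a b), r) :=
  Or.inl ⟨a, ha, rfl⟩

lemma bg_opt_b (S : Finset α) {T : Finset β} (r : ℕ) {b : β} (hb : b ∈ T) :
    (bg R).opt (S, T, r) (S.filter (fun a => ¬ R a b), T.erase b, 0) :=
  Or.inr (Or.inl ⟨b, hb, rfl⟩)

lemma bg_opt_s (S : Finset α) (T : Finset β) (r : ℕ) :
    (bg R).opt (S, T, r + 1) (S, ∅, r) :=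
  Or.inr (Or.inr ⟨r, rfl, rfl⟩)

lemma bg_a (S : Finset α) (T : Finset β) (r : ℕ) : (bg R).a (S, T, r) = S.card + r := rfl
lemma bg_b (S : Finset α) (T : Finset β) (r : ℕ) : (bg R).b (S, T, r) = T.card := rfl

lemma s3_succ_spec (n : ℕ) : s3 (n + 1) ≠ 0 ∧ s3 (n + 1) ≠ s3 n ∧
    ∀ k < s3 (n + 1), k = 0 ∨ k = s3 n := by
  rcases Nat.mod_two_eq_zero_or_one n with h | h
  · have h1 : s3 (n + 1) = 1 := s3_odd (by omega)
    rw [h1]
    refine ⟨by norm_num, ?_, fun k hk => by omega⟩
    rcases Nat.eq_zero_or_pos n with rfl | hn
    · rw [s3_zero]; norm_num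
    · rw [s3_even h hn]; norm_num
  · have h1 : s3 (n + 1) = 2 := s3_even (by omega) (by omega)
    have h2 : s3 n = 1 := s3_odd h
    rw [h1, h2]
    exact ⟨by norm_num, by norm_num, fun k hk => by omega⟩

lemma star_d0 (n : ℕ) : ∀ (S : Finset α) (r c : ℕ), S.card + r + c = n →
    (bg R).val (S, ∅, r) c 0 = s3 (n + 1) := by
  induction n using Nat.strong_induction_on with
  | _ n ih =>
    intro S r c hn
    have hb : ((bg R).b (S, ∅, r) + 0) = 0 := by simp [bg_b]
    have ha : ((bg R).a (S, ∅, r) + c) = n := by rw [bg_a]; omega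
    apply (bg R).val_eq_of
    · obtain ⟨h1, h2, h3⟩ := s3_succ_spec n
      rintro (⟨Y, hY, h⟩ | ⟨c', rfl, h⟩ | ⟨d', hd, h⟩ | h | h)
      · rcases hY with (⟨a, haS, rfl⟩ | ⟨b, hb, rfl⟩ | ⟨k, hk, rfl⟩)
        · simp only at haS h
          have := Finset.card_erase_add_one haS
          rw [Finset.filter_empty, ih (n - 1) (by omega) _ _ _ (by omega)] at h
          rw [show n - 1 + 1 = n by omega] at h
          exact h2 h.symm
        · simp at hb
        · simp only at hk h
          rw [ih (n - 1) (by omega) _ _ _ (by omega)] at h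
          rw [show n - 1 + 1 = n by omega] at h
          exact h2 h.symm
      · rw [ih (n - 1) (by omega) _ _ _ (by omega)] at h
        rw [show n - 1 + 1 = n by omega] at h
        exact h2 h.symm
      · omega
      · rw [ha] at h; exact h2 h
      · rw [hb, s3_zero] at h; exact h1 h
    · intro k hk
      obtain ⟨h1, h2, h3⟩ := s3_succ_spec n
      rcases h3 k hk with rfl | rfl
      · have := (bg R).mem_vals_b (S, ∅, r) c 0
        rwa [hb, s3_zero] at this
      · have := (bg R).mem_vals_a (S, ∅, r) c 0
        rwa [ha] at this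

lemma star_a0 (d : ℕ) : (bg R).val (∅, ∅, 0) 0 d = s3 (d + 1) := by
  induction d with
  | zero => exact star_d0 R 0 ∅ 0 0 (by simp)
  | succ d ih =>
    have ha : ((bg R).a (∅, ∅, 0) + 0) = 0 := by simp [bg_a]
    have hb : ((bg R).b (∅, ∅, 0) + (d + 1)) = d + 1 := by simp [bg_b]
    obtain ⟨h1, h2, h3⟩ := s3_succ_spec (d + 1)
    apply (bg R).val_eq_of
    · rintro (⟨Y, hY, h⟩ | ⟨c', hc', h⟩ | ⟨d', hd, h⟩ | h | h)
      · rcases hY with (⟨a, haS, rfl⟩ | ⟨b, hb, rfl⟩ | ⟨k, hk, rfl⟩)
        · simp at haS
        · simp at hb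
        · simp at hk
      · omega
      · obtain rfl : d' = d := by omega
        rw [ih] at h
        exact h2 h.symm
      · rw [ha, s3_zero] at h; exact h1 h
      · rw [hb] at h; exact h2 h
    · intro k hk
      rcases h3 k hk with rfl | rfl
      · have := (bg R).mem_vals_a (∅, ∅, 0) 0 (d + 1)
        rwa [ha, s3_zero] at this
      · have := (bg R).mem_vals_b (∅, ∅, 0) 0 (d + 1)
        rwa [hb] at this

/-- values of positions without free vertices on the second side -/
lemma empty_val (n : ℕ) : ∀ (S : Finset α) (r c d : ℕ), S.card + r + c + d = n →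
    1 ≤ S.card + r + c → 1 ≤ d →
    (bg R).val (S, ∅, r) c d = if n % 2 = 0 then 0 else 3 := by
  induction n using Nat.strong_induction_on with
  | _ n ih =>
    intro S r c d hn hA hd
    have hb : ((bg R).b (S, ∅, r) + d) = d := by simp [bg_b]
    have ha : ((bg R).a (S, ∅, r) + c) = S.card + r + c := by rw [bg_a]
    -- value of the positions with one less on the first side
    have first : ∀ (S' : Finset α) (r' c' : ℕ), S'.card + r' + c' + 1 = S.card + r + c →
        (bg R).val (S', ∅, r') c' d = if 2 ≤ S.card + r + c then (if n % 2 = 0 then 3 else 0)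
          else s3 (d + 1) := by
      intro S' r' c' h
      split_ifs with h1 h2
      · rw [ih (n - 1) (by omega) S' r' c' d (by omega) (by omega) hd]
        rw [if_neg (by omega)]
      · rw [ih (n - 1) (by omega) S' r' c' d (by omega) (by omega) hd]
        rw [if_pos (by omega)]
      · have h2 : S' = ∅ := by
          rw [← Finset.card_eq_zero]; omega
        obtain ⟨rfl, rfl⟩ : r' = 0 ∧ c' = 0 := by omega
        subst h2
        exact star_a0 R d
    have second : ∀ d', d = d' + 1 → (bg R).val (S, ∅, r) c d' =
        if 1 ≤ d' then (if n % 2 = 0 then 3 else 0) else s3 (S.card + r + c + 1) := by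
      intro d' h
      split_ifs with h1 h2
      · rw [ih (n - 1) (by omega) S r c d' (by omega) (by omega) h1]
        rw [if_neg (by omega)]
      · rw [ih (n - 1) (by omega) S r c d' (by omega) (by omega) h1]
        rw [if_pos (by omega)]
      · obtain rfl : d' = 0 := by omega
        exact star_d0 R _ S r c rfl
    have opts : ∀ v ∈ (bg R).vals (S, ∅, r) c d,
        v = (if 2 ≤ S.card + r + c then (if n % 2 = 0 then 3 else 0) else s3 (d + 1)) ∨
        v = (if 2 ≤ d then (if n % 2 = 0 then 3 else 0) else s3 (S.card + r + c + 1)) ∨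
        v = s3 (S.card + r + c) ∨ v = s3 d := by
      rintro v (⟨Y, hY, rfl⟩ | ⟨c', rfl, rfl⟩ | ⟨d', hd', rfl⟩ | h | h)
      · left
        rcases hY with (⟨a, haS, rfl⟩ | ⟨b, hb, rfl⟩ | ⟨k, hk, rfl⟩)
        · simp only at haS ⊢
          have := Finset.card_erase_add_one haS
          rw [Finset.filter_empty]
          exact first _ _ _ (by omega)
        · simp at hb
        · simp only at hk ⊢
          exact first _ _ _ (by omega)
      · left
        exact first _ _ _ (by omega)
      · right; left
        rw [second d' hd']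
        have : (1 ≤ d') ↔ (2 ≤ d) := by omega
        simp [this]
      · right; right; left; rw [h, ha]
      · right; right; right; rw [h, hb]
    have neS : s3 (S.card + r + c) ≠ 0 := s3_ne_zero hA
    have neD : s3 d ≠ 0 := s3_ne_zero hd
    have neS1 : s3 (S.card + r + c + 1) ≠ 0 := s3_ne_zero (by omega)
    have neD1 : s3 (d + 1) ≠ 0 := s3_ne_zero (by omega)
    by_cases hpar : n % 2 = 0
    · rw [if_pos hpar]
      apply (bg R).val_eq_of
      · intro h0
        simp only [hpar, if_true] at opts
        rcases opts 0 h0 with h | h | h | h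
        · split_ifs at h; exact neD1 h.symm
        · split_ifs at h; exact neS1 h.symm
        · exact neS h.symm
        · exact neD h.symm
      · intro k hk; omega
    · rw [if_neg hpar]
      apply (bg R).val_eq_of
      · intro h0
        simp only [hpar, if_false] at opts
        have l1 := s3_le_two (S.card + r + c)
        have l2 := s3_le_two d
        have l3 := s3_le_two (S.card + r + c + 1)
        have l4 := s3_le_two (d + 1)
        rcases opts 3 h0 with h | h | h | h
        · split_ifs at h; all_goals omega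
        · split_ifs at h; all_goals omega
        · omega
        · omega
      · intro k hk
        obtain ⟨m1, m2⟩ := (bg R).mixed_mem (X := (S, ∅, r)) (c := c) (d := d)
          (by rw [ha, hb]; omega) (by rw [ha]; omega) (by rw [hb]; omega)
        have hk' : k = 0 ∨ k = 1 ∨ k = 2 := by omega
        rcases hk' with rfl | rfl | rfl
        · -- an option of value zero
          by_cases h2 : 2 ≤ d
          · obtain ⟨d', rfl⟩ : ∃ d', d = d' + 1 := ⟨d - 1, by omega⟩
            have := second d' rfl
            rw [if_pos (by omega), if_neg hpar] at this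
            rw [← this]
            exact (bg R).mem_vals_d _ _ _
          · have h3 : 2 ≤ S.card + r + c := by omega
            rcases Nat.eq_zero_or_pos c with rfl | hc
            · rcases Nat.eq_zero_or_pos r with rfl | hr
              · have hne : S.Nonempty := by
                  rw [← Finset.card_pos]; omega
                obtain ⟨a, haS⟩ := hne
                have := Finset.card_erase_add_one haS
                have hf := first (S.erase a) 0 0 (by omega)
                rw [if_pos h3, if_neg hpar] at hf
                have hm := (bg R).mem_vals_opt (bg_opt_a R ∅ 0 haS) 0 d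
                rwa [Finset.filter_empty, hf] at hm
              · obtain ⟨r', rfl⟩ : ∃ r', r = r' + 1 := ⟨r - 1, by omega⟩
                have hf := first S r' 0 (by omega)
                rw [if_pos h3, if_neg hpar] at hf
                have hm := (bg R).mem_vals_opt (bg_opt_s R S ∅ r') 0 d
                rwa [hf] at hm
            · obtain ⟨c', rfl⟩ : ∃ c', c = c' + 1 := ⟨c - 1, by omega⟩
              have hf := first S r c' (by omega)
              rw [if_pos h3, if_neg hpar] at hf
              rw [← hf]
              exact (bg R).mem_vals_c _ _ _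
        · exact m1
        · exact m2

lemma semi_nonzero (S : Finset α) (T : Finset β) (r c d : ℕ) (hr : 1 ≤ r) (hc : 1 ≤ c)
    (hd : 1 ≤ d) (hodd : (S.card + r + c + d) % 2 = 1) : (bg R).val (S, T, r) c d ≠ 0 := by
  obtain ⟨k, rfl⟩ : ∃ k, r = k + 1 := ⟨r - 1, by omega⟩
  rw [(bg R).val_ne_zero_iff]
  have h := empty_val R (S.card + k + c + d) S k c d rfl (by omega) hd
  rw [if_pos (by omega)] at h
  rw [← h]
  exact (bg R).mem_vals_opt (bg_opt_s R S T k) c d

lemma semi_zero_iff (S : Finset α) (T : Finset β) (r c d : ℕ) (hr : 1 ≤ r) (hc : 2 ≤ c)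
    (hd : 2 ≤ d) (heven : (S.card + r + c + d) % 2 = 0) :
    (bg R).val (S, T, r) c d ≠ 0 ↔
      (∃ a ∈ S, (bg R).val (S.erase a, T.filter (fun b => ¬ R a b), r) c d = 0) ∨
      (∃ b ∈ T, (bg R).val (S.filter (fun a => ¬ R a b), T.erase b, 0) c d = 0) := by
  rw [(bg R).val_ne_zero_iff]
  constructor
  · rintro (⟨Y, hY, h⟩ | ⟨c', rfl, h⟩ | ⟨d', rfl, h⟩ | h | h)
    · rcases hY with (⟨a, haS, rfl⟩ | ⟨b, hb, rfl⟩ | ⟨k, hk, rfl⟩)
      · exact Or.inl ⟨a, haS, h⟩
      · exact Or.inr ⟨b, hb, h⟩
      · exfalso
        simp only at hk h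
        have h' := empty_val R (S.card + k + c + d) S k c d rfl (by omega) (by omega)
        rw [if_neg (by omega)] at h'
        omega
    · exact absurd h (semi_nonzero R S T r c' d hr (by omega) (by omega) (by omega))
    · exact absurd h (semi_nonzero R S T r c d' hr (by omega) (by omega) (by omega))
    · exact absurd h.symm (s3_ne_zero (by omega))
    · exact absurd h.symm (s3_ne_zero (by omega))
  · rintro (⟨a, ha, h⟩ | ⟨b, hb, h⟩)
    · rw [← h]; exact (bg R).mem_vals_opt (bg_opt_a R T r ha) c d
    · rw [← h]; exact (bg R).mem_vals_opt (bg_opt_b R S r hb) c d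

lemma neutral_zero (n : ℕ) : ∀ (S : Finset α) (T : Finset β) (r c d : ℕ), S.card + T.card ≤ n →
    1 ≤ r → 2 ≤ c → 2 ≤ d →
    ((bg R).val (S, T, r) c d = 0 ↔ (bg R).val (S, T, r + 2) c d = 0) := by
  induction n using Nat.strong_induction_on with
  | _ n ih =>
    intro S T r c d hn hr hc hd
    rcases Nat.mod_two_eq_zero_or_one (S.card + r + c + d) with h | h
    · have h1 := semi_zero_iff R S T r c d hr hc hd h
      have h2 := semi_zero_iff R S T (r + 2) c d (by omega) hc hd (by omega)
      rw [← not_iff_not]
      change (bg R).val (S, T, r) c d ≠ 0 ↔ (bg R).val (S, T, r + 2) c d ≠ 0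
      rw [h1, h2]
      have : (∃ a ∈ S, (bg R).val (S.erase a, T.filter (fun b => ¬ R a b), r) c d = 0) ↔
          (∃ a ∈ S, (bg R).val (S.erase a, T.filter (fun b => ¬ R a b), r + 2) c d = 0) := by
        refine exists_congr fun a => and_congr_right fun ha => ?_
        have e1 := Finset.card_erase_lt_of_mem ha
        have e2 := Finset.card_filter_le T (fun b => ¬ R a b)
        exact ih ((S.erase a).card + (T.filter (fun b => ¬ R a b)).card) (by omega)
          _ _ r c d le_rfl hr hc hd
      rw [this]
    · have h1 := semi_nonzero R S T r c d hr (by omega) (by omega) h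
      have h2 := semi_nonzero R S T (r + 2) c d (by omega) (by omega) (by omega) (by omega)
      simp [h1, h2]

lemma neutral_same (S : Finset α) (T : Finset β) (r c d : ℕ)
    (hr : 1 ≤ r) (hc : 2 ≤ c) (hd : 2 ≤ d) (heven : (S.card + r + c + (T.card + d)) % 2 = 0) :
    (bg R).val (S, T, r) c d = (bg R).val (S, T, r + 2) c d := by
  refine (bg R).same_eq_of_zero_iff (bg R) hc hd hc hd ?_ ?_ ?_
    (neutral_zero R _ S T r c d le_rfl hr hc hd)
  · simp only [bg_a, bg_b]; omega
  · simp only [bg_a]; omega
  · simp only [bg_b]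

lemma s3_add_two {k : ℕ} (hk : 1 ≤ k) : s3 (k + 2) = s3 k := by
  rcases Nat.mod_two_eq_zero_or_one k with h | h
  · rw [s3_even h hk, s3_even (by omega) (by omega)]
  · rw [s3_odd h, s3_odd (by omega)]

lemma neutral (n : ℕ) : ∀ (S : Finset α) (T : Finset β) (r c d : ℕ), S.card + T.card ≤ n →
    1 ≤ r → 3 ≤ c → 3 ≤ d →
    (bg R).val (S, T, r) c d = (bg R).val (S, T, r + 2) c d := by
  induction n using Nat.strong_induction_on with
  | _ n ih =>
    intro S T r c d hn hr hc hd
    by_cases hpar : (S.card + r + c + (T.card + d)) % 2 = 0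
    · exact neutral_same R S T r c d hr (by omega) (by omega) hpar
    · have IHa : ∀ a ∈ S, (bg R).val (S.erase a, T.filter (fun b => ¬ R a b), r) c d =
          (bg R).val (S.erase a, T.filter (fun b => ¬ R a b), r + 2) c d := by
        intro a ha
        have e1 := Finset.card_erase_lt_of_mem ha
        have e2 := Finset.card_filter_le T (fun b => ¬ R a b)
        exact ih ((S.erase a).card + (T.filter (fun b => ¬ R a b)).card) (by omega)
          _ _ r c d le_rfl hr hc hd
      have semi : ∀ k, (S.card + k + c + d) % 2 = (S.card + r + 1 + c + d) % 2 →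
          (bg R).val (S, ∅, k) c d = if (S.card + r + 1 + c + d) % 2 = 0 then 0 else 3 := by
        intro k hk
        rw [empty_val R _ S k c d rfl (by omega) (by omega), hk]
      have key : (bg R).vals (S, T, r) c d = (bg R).vals (S, T, r + 2) c d := by
        apply Set.Subset.antisymm
        · rintro v (⟨Y, hY, rfl⟩ | ⟨c', rfl, rfl⟩ | ⟨d', rfl, rfl⟩ | rfl | rfl)
          · rcases hY with (⟨a, haS, rfl⟩ | ⟨b, hb, rfl⟩ | ⟨k, hk, rfl⟩)
            · simp only at haS ⊢
              rw [IHa a haS]
              exact (bg R).mem_vals_opt (bg_opt_a R T (r + 2) haS) c d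
            · simp only at hb ⊢
              exact (bg R).mem_vals_opt (bg_opt_b R S (r + 2) hb) c d
            · simp only at hk ⊢
              subst hk
              rw [semi k (by omega), ← semi (k + 1 + 1) (by omega)]
              exact (bg R).mem_vals_opt (bg_opt_s R S T (k + 1 + 1)) c d
          · rw [neutral_same R S T r c' d hr (by omega) (by omega) (by omega)]
            exact (bg R).mem_vals_c _ _ _
          · rw [neutral_same R S T r c d' hr (by omega) (by omega) (by omega)]
            exact (bg R).mem_vals_d _ _ _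
          · have := (bg R).mem_vals_a (S, T, r + 2) c d
            rw [bg_a] at this ⊢
            rwa [show S.card + (r + 2) + c = S.card + r + c + 2 by omega,
              s3_add_two (by omega)] at this
          · have := (bg R).mem_vals_b (S, T, r + 2) c d
            rw [bg_b] at this ⊢
            exact this
        · rintro v (⟨Y, hY, rfl⟩ | ⟨c', rfl, rfl⟩ | ⟨d', rfl, rfl⟩ | rfl | rfl)
          · rcases hY with (⟨a, haS, rfl⟩ | ⟨b, hb, rfl⟩ | ⟨k, hk, rfl⟩)
            · simp only at haS ⊢
              rw [← IHa a haS]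
              exact (bg R).mem_vals_opt (bg_opt_a R T r haS) c d
            · simp only at hb ⊢
              exact (bg R).mem_vals_opt (bg_opt_b R S r hb) c d
            · simp only at hk ⊢
              obtain ⟨j, rfl⟩ : ∃ j, r = j + 1 := ⟨r - 1, by omega⟩
              rw [semi k (by omega), ← semi j (by omega)]
              exact (bg R).mem_vals_opt (bg_opt_s R S T j) c d
          · rw [← neutral_same R S T r c' d hr (by omega) (by omega) (by omega)]
            exact (bg R).mem_vals_c _ _ _
          · rw [← neutral_same R S T r c d' hr (by omega) (by omega) (by omega)]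
            exact (bg R).mem_vals_d _ _ _
          · have := (bg R).mem_vals_a (S, T, r) c d
            rw [bg_a] at this ⊢
            rwa [show S.card + (r + 2) + c = S.card + r + c + 2 by omega,
              s3_add_two (by omega)]
          · have := (bg R).mem_vals_b (S, T, r) c d
            rw [bg_b] at this ⊢
            exact this
      rw [(bg R).val_eq_mex, (bg R).val_eq_mex, key]

lemma neutral_odd (S : Finset α) (T : Finset β) (r r' c d : ℕ)
    (hr : r % 2 = 1) (hr' : r' % 2 = 1) (hc : 3 ≤ c) (hd : 3 ≤ d) :
    (bg R).val (S, T, r) c d = (bg R).val (S, T, r') c d := by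
  have base : ∀ j : ℕ, (bg R).val (S, T, 1) c d = (bg R).val (S, T, 1 + 2 * j) c d := by
    intro j
    induction j with
    | zero => rfl
    | succ j ihj =>
      rw [ihj, neutral R _ S T (1 + 2 * j) c d le_rfl (by omega) hc hd]
      rfl
  rw [show r = 1 + 2 * (r / 2) by omega, show r' = 1 + 2 * (r' / 2) by omega, ← base, ← base]

end FlagColoring
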