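import Mathlib

/-!
# Two-colour flag colouring: the game and its Grundy values

A position is a graph `G` on a finite vertex set `V` together with a colouring
`χ : V → Bool` with two colours.
-/

namespace FlagColoring

variable {V : Type}

/-- The graph of all edges of `G` whose two ends have the same colour. Its connected components
are the monochromatic components of the colouring `χ`. -/
def mono (G : SimpleGraph V) (χ : V → Bool) : SimpleGraph V where
  Adj x y := G.Adj x y ∧ χ x = χ y
  symm := ⟨fun _ _ h => ⟨h.1.symm, h.2.symm⟩⟩
  loopless := ⟨fun _ h => G.irrefl h.1⟩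

/-- The vertex `v` may be picked for a move: it has a neighbour of the other colour. -/
def Legal (G : SimpleGraph V) (χ : V → Bool) (v : V) : Prop :=
  ∃ w, G.Adj v w ∧ χ w ≠ χ v

open Classical in
/-- The colouring after the move at `v`: every vertex of the monochromatic component of `v`
receives the other colour. -/
noncomputable def recolour (G : SimpleGraph V) (χ : V → Bool) (v : V) : V → Bool :=
  fun x => if (mono G χ).Reachable v x then !(χ v) else χ x

open Classical in
/-- The number of (ordered) edges with ends of different colours; only used to see that every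
play is finite. -/
noncomputable def bichrom [Fintype V] (G : SimpleGraph V) (χ : V → Bool) : ℕ :=
  (Finset.univ.filter (fun p : V × V => G.Adj p.1 p.2 ∧ χ p.1 ≠ χ p.2)).card

lemma colour_of_reachable {G : SimpleGraph V} {χ : V → Bool} {v x : V}
    (h : (mono G χ).Reachable v x) : χ x = χ v := by
  obtain ⟨p⟩ := h
  induction p with
  | nil => rfl
  | cons h _ ih => rw [ih, h.2]

lemma recolour_ne {G : SimpleGraph V} {χ : V → Bool} {v x y : V} (hxy : G.Adj x y)
    (h : recolour G χ v x ≠ recolour G χ v y) : χ x ≠ χ y := by
  intro hc
  apply h
  have hm : (mono G χ).Adj x y := ⟨hxy, hc⟩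
  unfold recolour
  by_cases hx : (mono G χ).Reachable v x
  · have hy : (mono G χ).Reachable v y := hx.trans hm.reachable
    rw [if_pos hx, if_pos hy]
  · have hy : ¬ (mono G χ).Reachable v y := fun hy => hx (hy.trans hm.symm.reachable)
    rw [if_neg hx, if_neg hy, hc]

lemma bichrom_recolour_lt [Fintype V] {G : SimpleGraph V} {χ : V → Bool} {v : V}
    (h : Legal G χ v) : bichrom G (recolour G χ v) < bichrom G χ := by
  classical
  unfold bichrom
  apply Finset.card_lt_card
  rw [Finset.ssubset_iff_of_subset]
  · obtain ⟨w, hw, hc⟩ := h
    refine ⟨(v, w), ?_, ?_⟩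
    · simp only [Finset.mem_filter, Finset.mem_univ, true_and]
      exact ⟨hw, hc.symm⟩
    · simp only [Finset.mem_filter, Finset.mem_univ, true_and, not_and, ne_eq, not_not]
      intro _
      have h1 : recolour G χ v v = !(χ v) := if_pos (SimpleGraph.Reachable.refl v)
      have h2 : recolour G χ v w = χ w :=
        if_neg (fun hr => hc (colour_of_reachable hr))
      rw [h1, h2]
      revert hc
      cases χ w <;> cases χ v <;> simp
  · intro p hp
    simp only [Finset.mem_filter, Finset.mem_univ, true_and] at hp ⊢
    exact ⟨hp.1, recolour_ne hp.1 hp.2⟩

/-- The Grundy value of a position: the least number that is not the Grundy value of a position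
reachable in one move. (It is `0` when there is no move.) -/
noncomputable def grundy [Fintype V] (G : SimpleGraph V) (χ : V → Bool) : ℕ :=
  sInf {n : ℕ | ∀ v, (h : Legal G χ v) → grundy G (recolour G χ v) ≠ n}
termination_by bichrom G χ
decreasing_by exact bichrom_recolour_lt h

end FlagColoring
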