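import Pool.Agent.Helper35.FlagConc

/-!
Swap symmetry and embedding (absorption of isolated vertices and of semi-twins).
-/

namespace FlagColoring

open scoped Classical

variable {α β α1 β1 : Type}

lemma swap_val (R : α → β → Prop) (S : Finset α) (T : Finset β) (c d : ℕ) :
    (bg R).val (S, T, 0) c d = (bg (fun b a => R a b)).val (T, S, 0) d c := by
  refine bisim (bg R) (bg (fun b a => R a b))
    (fun X c d Y c' d' => X.2.2 = 0 ∧ Y = (X.2.1, X.1, 0) ∧ c' = d ∧ d' = c)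
    ?_ ?_ ?_ ?_ ?_ ?_ ?_ _ _ _ _ _ _ ⟨rfl, rfl, rfl, rfl⟩
  · rintro ⟨S, T, r⟩ c d Y c' d' ⟨h, rfl, rfl, rfl⟩
    simp only at h
    subst h
    simp only [bg_a, bg_b]
    rw [Set.pair_comm]
    simp
  · rintro ⟨S, T, r⟩ c d Y c' d' ⟨h, rfl, rfl, rfl⟩ X' hX'
    simp only at h
    subst h
    rcases hX' with (⟨a, ha, rfl⟩ | ⟨b, hb, rfl⟩ | ⟨k, hk, rfl⟩)
    · exact ⟨_, _, _, Or.inl ⟨bg_opt_b _ T 0 ha, rfl, rfl⟩, rfl, rfl, rfl, rfl⟩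
    · exact ⟨_, _, _, Or.inl ⟨bg_opt_a _ S 0 hb, rfl, rfl⟩, rfl, rfl, rfl, rfl⟩
    · simp at hk
  · rintro ⟨S, T, r⟩ c d Y c' d' ⟨h, rfl, rfl, rfl⟩
    exact ⟨_, c', c, Or.inr (Or.inr ⟨rfl, rfl, rfl⟩), h, rfl, rfl, rfl⟩
  · rintro ⟨S, T, r⟩ c d Y c' d' ⟨h, rfl, rfl, rfl⟩
    exact ⟨_, d, d', Or.inr (Or.inl ⟨rfl, rfl, rfl⟩), h, rfl, rfl, rfl⟩
  · rintro ⟨S, T, r⟩ c d Y c' d' ⟨h, rfl, rfl, rfl⟩ Y' hY'
    simp only at h
    subst h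
    rcases hY' with (⟨a, ha, rfl⟩ | ⟨b, hb, rfl⟩ | ⟨k, hk, rfl⟩)
    · exact ⟨_, _, _, Or.inl ⟨bg_opt_b _ S 0 ha, rfl, rfl⟩, rfl, rfl, rfl, rfl⟩
    · exact ⟨_, _, _, Or.inl ⟨bg_opt_a _ T 0 hb, rfl, rfl⟩, rfl, rfl, rfl, rfl⟩
    · simp at hk
  · rintro ⟨S, T, r⟩ c d Y c' d' ⟨h, rfl, h1, h2⟩
    subst h1
    subst h2
    exact ⟨_, _, c', Or.inr (Or.inr ⟨rfl, rfl, rfl⟩), h, rfl, rfl, rfl⟩
  · rintro ⟨S, T, r⟩ c d Y c' d' ⟨h, rfl, h1, h2⟩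
    subst h1
    subst h2
    exact ⟨_, d', _, Or.inr (Or.inl ⟨rfl, rfl, rfl⟩), h, rfl, rfl, rfl⟩

/-- `X` is obtained from `Y` by materialising `|J|` isolated vertices on the first side, `|K|`
isolated vertices on the second side and `|Q|` semi-twins. -/
structure EmbRel (R : α → β → Prop) (R1 : α1 → β1 → Prop) (f : α1 → α) (g : β1 → β)
    (J Q : Finset α) (K : Finset β)
    (X : Finset α × Finset β × ℕ) (c d : ℕ) (Y : Finset α1 × Finset β1 × ℕ) (c' d' : ℕ) :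
    Prop where
  r0 : X.2.2 = 0
  hS : ∀ a, a ∈ X.1 ↔ ((∃ a1 ∈ Y.1, f a1 = a) ∨ a ∈ J ∨ a ∈ Q)
  hT : ∀ b, b ∈ X.2.1 ↔ ((∃ b1 ∈ Y.2.1, g b1 = b) ∨ b ∈ K)
  fJ : ∀ a, f a ∉ J
  fQ : ∀ a, f a ∉ Q
  JQ : ∀ a, a ∈ J → a ∉ Q
  gK : ∀ b, g b ∉ K
  hR : ∀ a ∈ Y.1, ∀ b ∈ Y.2.1, (R (f a) (g b) ↔ R1 a b)
  RJ : ∀ a ∈ J, ∀ b ∈ X.2.1, ¬ R a b
  RQ : ∀ a ∈ Q, ∀ b ∈ Y.2.1, R a (g b)
  RK : ∀ b ∈ K, ∀ a ∈ X.1, ¬ R a b
  hc : c' = c + J.card
  hd : d' = d + K.card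
  hr : Y.2.2 = Q.card

section
variable {R : α → β → Prop} {R1 : α1 → β1 → Prop} {f : α1 → α} {g : β1 → β}
  {J Q : Finset α} {K : Finset β} {S : Finset α} {T : Finset β}
  {S1 : Finset α1} {T1 : Finset β1} {r r1 c d c' d' : ℕ}

lemma EmbRel.a1 (hf : Function.Injective f) 
    (h : EmbRel R R1 f g J Q K (S, T, r) c d (S1, T1, r1) c' d') {a : α1} (ha : a ∈ S1) :
    EmbRel R R1 f g J Q K (S.erase (f a), T.filter (fun b => ¬ R (f a) b), r) c d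
      (S1.erase a, T1.filter (fun b => ¬ R1 a b), r1) c' d' := by
  obtain ⟨r0, hS, hT, fJ, fQ, JQ, gK, hR, RJ, RQ, RK, hc, hd, hr⟩ := h
  simp only at r0 hS hT hR RJ RQ RK hr
  refine ⟨r0, ?_, ?_, fJ, fQ, JQ, gK, ?_, ?_, ?_, ?_, hc, hd, hr⟩
  · intro x
    simp only [Finset.mem_erase, hS]
    constructor
    · rintro ⟨hne, ⟨y, hy, rfl⟩ | h⟩
      · exact Or.inl ⟨y, ⟨fun h => hne (by rw [h]), hy⟩, rfl⟩
      · exact Or.inr h
    · rintro (⟨y, ⟨hne, hy⟩, rfl⟩ | h | h)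
      · exact ⟨fun h => hne (hf h), Or.inl ⟨y, hy, rfl⟩⟩
      · exact ⟨fun h' => fJ a (h' ▸ h), Or.inr (Or.inl h)⟩
      · exact ⟨fun h' => fQ a (h' ▸ h), Or.inr (Or.inr h)⟩
  · intro y
    simp only [Finset.mem_filter, hT]
    constructor
    · rintro ⟨⟨b, hb, rfl⟩ | h, hn⟩
      · exact Or.inl ⟨b, ⟨hb, fun h => hn ((hR a ha b hb).2 h)⟩, rfl⟩
      · exact Or.inr h
    · rintro (⟨b, ⟨hb, hn⟩, rfl⟩ | h)
      · exact ⟨Or.inl ⟨b, hb, rfl⟩, fun h => hn ((hR a ha b hb).1 h)⟩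
      · exact ⟨Or.inr h, RK y h (f a) ((hS (f a)).2 (Or.inl ⟨a, ha, rfl⟩))⟩
  · intro x hx y hy
    exact hR x (Finset.mem_of_mem_erase hx) y (Finset.mem_of_mem_filter y hy)
  · intro x hx y hy
    exact RJ x hx y (Finset.mem_of_mem_filter y hy)
  · intro x hx y hy
    exact RQ x hx y (Finset.mem_of_mem_filter y hy)
  · intro y hy x hx
    exact RK y hy x (Finset.mem_of_mem_erase hx)

lemma EmbRel.a2 (h : EmbRel R R1 f g J Q K (S, T, r) c d (S1, T1, r1) c' d')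
    {a : α} (ha : a ∈ J) :
    EmbRel R R1 f g (J.erase a) Q K (S.erase a, T.filter (fun b => ¬ R a b), r) c d
      (S1, T1, r1) (c' - 1) d' ∧ c' = (c' - 1) + 1 := by
  obtain ⟨r0, hS, hT, fJ, fQ, JQ, gK, hR, RJ, RQ, RK, hc, hd, hr⟩ := h
  simp only at r0 hS hT hR RJ RQ RK hr
  have hcard := Finset.card_erase_add_one ha
  refine ⟨⟨r0, ?_, ?_, fun x hx => fJ x (Finset.mem_of_mem_erase hx), fQ,
    fun x hx => JQ x (Finset.mem_of_mem_erase hx), gK, hR, ?_, RQ, ?_, by omega, hd, hr⟩, by omega⟩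
  · intro x
    simp only [Finset.mem_erase, hS]
    constructor
    · rintro ⟨hne, h | h | h⟩
      · exact Or.inl h
      · exact Or.inr (Or.inl ⟨hne, h⟩)
      · exact Or.inr (Or.inr h)
    · rintro (⟨y, hy, rfl⟩ | ⟨hne, h⟩ | h)
      · exact ⟨fun h' => fJ y (h' ▸ ha), Or.inl ⟨y, hy, rfl⟩⟩
      · exact ⟨hne, Or.inr (Or.inl h)⟩
      · exact ⟨fun h' => JQ a ha (h' ▸ h), Or.inr (Or.inr h)⟩
  · intro y
    rw [Finset.mem_filter]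
    simp only
    rw [← hT]
    exact ⟨fun h => h.1, fun h => ⟨h, RJ a ha y h⟩⟩
  · intro x hx y hy
    exact RJ x (Finset.mem_of_mem_erase hx) y (Finset.mem_of_mem_filter y hy)
  · intro y hy x hx
    exact RK y hy x (Finset.mem_of_mem_erase hx)

lemma EmbRel.a3 (h : EmbRel R R1 f g J Q K (S, T, r) c d (S1, T1, r1) c' d')
    {a : α} (ha : a ∈ Q) :
    EmbRel R R1 f g J (Q.erase a) K (S.erase a, T.filter (fun b => ¬ R a b), r) c d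
      (S1, ∅, r1 - 1) c' d' ∧ r1 = (r1 - 1) + 1 := by
  obtain ⟨r0, hS, hT, fJ, fQ, JQ, gK, hR, RJ, RQ, RK, hc, hd, hr⟩ := h
  simp only at r0 hS hT hR RJ RQ RK hr
  have hcard := Finset.card_erase_add_one ha
  refine ⟨⟨r0, ?_, ?_, fJ, fun x hx => fQ x (Finset.mem_of_mem_erase hx),
    fun x hx hx' => JQ x hx (Finset.mem_of_mem_erase hx'), gK, ?_, ?_, ?_, ?_, hc, hd, ?_⟩,
    by omega⟩
  · intro x
    simp only [Finset.mem_erase, hS]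
    constructor
    · rintro ⟨hne, h | h | h⟩
      · exact Or.inl h
      · exact Or.inr (Or.inl h)
      · exact Or.inr (Or.inr ⟨hne, h⟩)
    · rintro (⟨y, hy, rfl⟩ | h | ⟨hne, h⟩)
      · exact ⟨fun h' => fQ y (h' ▸ ha), Or.inl ⟨y, hy, rfl⟩⟩
      · exact ⟨fun h' => JQ x h (h' ▸ ha), Or.inr (Or.inl h)⟩
      · exact ⟨hne, Or.inr (Or.inr h)⟩
  · intro y
    simp only [Finset.mem_filter, hT, Finset.notMem_empty, false_and, exists_false, false_or]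
    constructor
    · rintro ⟨⟨b, hb, rfl⟩ | h, hn⟩
      · exact absurd (RQ a ha b hb) hn
      · exact h
    · intro h
      exact ⟨Or.inr h, RK y h a ((hS a).2 (Or.inr (Or.inr ha)))⟩
  · intro x hx y hy
    exact absurd hy (Finset.notMem_empty y)
  · intro x hx y hy
    exact RJ x hx y (Finset.mem_of_mem_filter y hy)
  · intro x hx y hy
    exact absurd hy (Finset.notMem_empty y)
  · intro y hy x hx
    exact RK y hy x (Finset.mem_of_mem_erase hx)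
  · simp only
    omega

lemma EmbRel.b1 (hg : Function.Injective g)
    (h : EmbRel R R1 f g J Q K (S, T, r) c d (S1, T1, r1) c' d') {b : β1} (hb : b ∈ T1) :
    EmbRel R R1 f g J ∅ K (S.filter (fun a => ¬ R a (g b)), T.erase (g b), 0) c d
      (S1.filter (fun a => ¬ R1 a b), T1.erase b, 0) c' d' := by
  obtain ⟨r0, hS, hT, fJ, fQ, JQ, gK, hR, RJ, RQ, RK, hc, hd, hr⟩ := h
  simp only at r0 hS hT hR RJ RQ RK hr
  refine ⟨rfl, ?_, ?_, fJ, fun x => Finset.notMem_empty _, fun x _ => Finset.notMem_empty _, gK,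
    ?_, ?_, ?_, ?_, hc, hd, rfl⟩
  · intro x
    simp only [Finset.mem_filter, hS, Finset.notMem_empty, or_false]
    constructor
    · rintro ⟨⟨y, hy, rfl⟩ | h | h, hn⟩
      · exact Or.inl ⟨y, ⟨hy, fun h => hn ((hR y hy b hb).2 h)⟩, rfl⟩
      · exact Or.inr h
      · exact absurd (RQ x h b hb) hn
    · rintro (⟨y, ⟨hy, hn⟩, rfl⟩ | h)
      · exact ⟨Or.inl ⟨y, hy, rfl⟩, fun h => hn ((hR y hy b hb).1 h)⟩
      · exact ⟨Or.inr (Or.inl h), RJ x h (g b) ((hT (g b)).2 (Or.inl ⟨b, hb, rfl⟩))⟩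
  · intro y
    simp only [Finset.mem_erase, hT]
    constructor
    · rintro ⟨hne, ⟨z, hz, rfl⟩ | h⟩
      · exact Or.inl ⟨z, ⟨fun h => hne (by rw [h]), hz⟩, rfl⟩
      · exact Or.inr h
    · rintro (⟨z, ⟨hne, hz⟩, rfl⟩ | h)
      · exact ⟨fun h => hne (hg h), Or.inl ⟨z, hz, rfl⟩⟩
      · exact ⟨fun h' => gK b (h' ▸ h), Or.inr h⟩
  · intro x hx y hy
    exact hR x (Finset.mem_of_mem_filter x hx) y (Finset.mem_of_mem_erase hy)
  · intro x hx y hy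
    exact RJ x hx y (Finset.mem_of_mem_erase hy)
  · intro x hx
    exact absurd hx (Finset.notMem_empty x)
  · intro y hy x hx
    exact RK y hy x (Finset.mem_of_mem_filter x hx)

lemma EmbRel.b2 (h : EmbRel R R1 f g J Q K (S, T, r) c d (S1, T1, r1) c' d')
    {b : β} (hb : b ∈ K) :
    EmbRel R R1 f g J Q (K.erase b) (S.filter (fun a => ¬ R a b), T.erase b, 0) c d
      (S1, T1, r1) c' (d' - 1) ∧ d' = (d' - 1) + 1 := by
  obtain ⟨r0, hS, hT, fJ, fQ, JQ, gK, hR, RJ, RQ, RK, hc, hd, hr⟩ := h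
  simp only at r0 hS hT hR RJ RQ RK hr
  have hcard := Finset.card_erase_add_one hb
  refine ⟨⟨rfl, ?_, ?_, fJ, fQ, JQ, fun x hx => gK x (Finset.mem_of_mem_erase hx),
    hR, ?_, RQ, ?_, hc, by omega, hr⟩, by omega⟩
  · intro x
    rw [Finset.mem_filter]
    simp only
    rw [← hS]
    exact ⟨fun h => h.1, fun h => ⟨h, RK b hb x h⟩⟩
  · intro y
    simp only [Finset.mem_erase, hT]
    constructor
    · rintro ⟨hne, h | h⟩
      · exact Or.inl h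
      · exact Or.inr ⟨hne, h⟩
    · rintro (⟨z, hz, rfl⟩ | ⟨hne, h⟩)
      · exact ⟨fun h' => gK z (h' ▸ hb), Or.inl ⟨z, hz, rfl⟩⟩
      · exact ⟨hne, Or.inr h⟩
  · intro x hx y hy
    exact RJ x hx y (Finset.mem_of_mem_erase hy)
  · intro y hy x hx
    exact RK y (Finset.mem_of_mem_erase hy) x (Finset.mem_of_mem_filter x hx)

end

lemma emb_val {R : α → β → Prop} {R1 : α1 → β1 → Prop} {f : α1 → α} {g : β1 → β}
    (hf : Function.Injective f) (hg : Function.Injective g)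
    {J Q : Finset α} {K : Finset β} {X : Finset α × Finset β × ℕ} {c d : ℕ}
    {Y : Finset α1 × Finset β1 × ℕ} {c' d' : ℕ}
    (h : EmbRel R R1 f g J Q K X c d Y c' d') :
    (bg R).val X c d = (bg R1).val Y c' d' := by
  refine bisim (bg R) (bg R1)
    (fun X c d Y c' d' => ∃ J Q K, EmbRel R R1 f g J Q K X c d Y c' d')
    ?_ ?_ ?_ ?_ ?_ ?_ ?_ _ _ _ _ _ _ ⟨J, Q, K, h⟩
  · rintro ⟨S, T, r⟩ c d ⟨S1, T1, r1⟩ c' d' ⟨J, Q, K, h⟩
    obtain ⟨r0, hS, hT, fJ, fQ, JQ, gK, hR, RJ, RQ, RK, hc, hd, hr⟩ := h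
    simp only at r0 hS hT hR RJ RQ RK hr
    have e1 : S.card = S1.card + J.card + Q.card := by
      have : S = (S1.image f ∪ J) ∪ Q := by
        ext x
        simp only [hS, Finset.mem_union, Finset.mem_image, or_assoc]
      rw [this, Finset.card_union_of_disjoint, Finset.card_union_of_disjoint,
        Finset.card_image_of_injective _ hf]
      · rw [Finset.disjoint_left]
        intro x hx hx'
        obtain ⟨y, hy, rfl⟩ := Finset.mem_image.1 hx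
        exact fJ y hx'
      · rw [Finset.disjoint_left]
        intro x hx hx'
        rcases Finset.mem_union.1 hx with hx | hx
        · obtain ⟨y, hy, rfl⟩ := Finset.mem_image.1 hx
          exact fQ y hx'
        · exact JQ x hx hx'
    have e2 : T.card = T1.card + K.card := by
      have : T = T1.image g ∪ K := by
        ext x
        simp only [hT, Finset.mem_union, Finset.mem_image]
      rw [this, Finset.card_union_of_disjoint, Finset.card_image_of_injective _ hg]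
      rw [Finset.disjoint_left]
      intro x hx hx'
      obtain ⟨y, hy, rfl⟩ := Finset.mem_image.1 hx
      exact gK y hx'
    simp only [bg_a, bg_b]
    rw [show S.card + r + c = S1.card + r1 + c' by omega,
      show T.card + d = T1.card + d' by omega]
  · rintro ⟨S, T, r⟩ c d ⟨S1, T1, r1⟩ c' d' ⟨J, Q, K, h⟩ X' hX'
    have h' := h
    obtain ⟨r0, hS, hT, fJ, fQ, JQ, gK, hR, RJ, RQ, RK, hc, hd, hr⟩ := h
    simp only at r0 hS hT hR RJ RQ RK hr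
    rcases hX' with (⟨a, ha, rfl⟩ | ⟨b, hb, rfl⟩ | ⟨k, hk, rfl⟩)
    · simp only at ha
      rcases (hS a).1 ha with ⟨a1, ha1, rfl⟩ | ha | ha
      · exact ⟨_, _, _, Or.inl ⟨bg_opt_a _ _ _ ha1, rfl, rfl⟩, J, Q, K, h'.a1 hf ha1⟩
      · obtain ⟨h1, h2⟩ := h'.a2 ha
        exact ⟨_, _, _, Or.inr (Or.inl ⟨rfl, h2, rfl⟩), _, _, _, h1⟩
      · obtain ⟨h1, h2⟩ := h'.a3 ha
        refine ⟨_, _, _, Or.inl ⟨?_, rfl, rfl⟩, _, _, _, h1⟩
        have := bg_opt_s R1 S1 T1 (r1 - 1)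
        rwa [← h2] at this
    · simp only at hb
      rcases (hT b).1 hb with ⟨b1, hb1, rfl⟩ | hb
      · exact ⟨_, _, _, Or.inl ⟨bg_opt_b _ _ _ hb1, rfl, rfl⟩, _, _, _, h'.b1 hg hb1⟩
      · obtain ⟨h1, h2⟩ := h'.b2 hb
        exact ⟨_, _, _, Or.inr (Or.inr ⟨rfl, rfl, h2⟩), _, _, _, h1⟩
    · simp only at hk
      omega
  · rintro ⟨S, T, r⟩ c d ⟨S1, T1, r1⟩ c' d' ⟨J, Q, K, h⟩
    obtain ⟨r0, hS, hT, fJ, fQ, JQ, gK, hR, RJ, RQ, RK, hc, hd, hr⟩ := h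
    refine ⟨_, c + J.card, _, Or.inr (Or.inl ⟨rfl, by omega, rfl⟩), J, Q, K,
      ⟨r0, hS, hT, fJ, fQ, JQ, gK, hR, RJ, RQ, RK, rfl, hd, hr⟩⟩
  · rintro ⟨S, T, r⟩ c d ⟨S1, T1, r1⟩ c' d' ⟨J, Q, K, h⟩
    obtain ⟨r0, hS, hT, fJ, fQ, JQ, gK, hR, RJ, RQ, RK, hc, hd, hr⟩ := h
    refine ⟨_, _, d + K.card, Or.inr (Or.inr ⟨rfl, rfl, by omega⟩), J, Q, K,
      ⟨r0, hS, hT, fJ, fQ, JQ, gK, hR, RJ, RQ, RK, hc, rfl, hr⟩⟩
  · rintro ⟨S, T, r⟩ c d ⟨S1, T1, r1⟩ c' d' ⟨J, Q, K, h⟩ Y' hY'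
    have h' := h
    obtain ⟨r0, hS, hT, fJ, fQ, JQ, gK, hR, RJ, RQ, RK, hc, hd, hr⟩ := h
    simp only at r0 hS hT hR RJ RQ RK hr
    rcases hY' with (⟨a, ha, rfl⟩ | ⟨b, hb, rfl⟩ | ⟨k, hk, rfl⟩)
    · simp only at ha
      exact ⟨_, _, _, Or.inl ⟨bg_opt_a _ _ _ ((hS (f a)).2 (Or.inl ⟨a, ha, rfl⟩)), rfl, rfl⟩,
        J, Q, K, h'.a1 hf ha⟩
    · simp only at hb
      subst r0
      exact ⟨_, _, _, Or.inl ⟨bg_opt_b _ _ _ ((hT (g b)).2 (Or.inl ⟨b, hb, rfl⟩)), rfl, rfl⟩,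
        _, _, _, h'.b1 hg hb⟩
    · simp only at hk
      have hQ : Q.Nonempty := by
        rw [← Finset.card_pos]; omega
      obtain ⟨a, ha⟩ := hQ
      obtain ⟨h1, h2⟩ := h'.a3 ha
      have : r1 - 1 = k := by omega
      rw [this] at h1
      exact ⟨_, _, _, Or.inl ⟨bg_opt_a _ _ _ ((hS a).2 (Or.inr (Or.inr ha))), rfl, rfl⟩,
        _, _, _, h1⟩
  · rintro ⟨S, T, r⟩ c d ⟨S1, T1, r1⟩ c' d' ⟨J, Q, K, h⟩
    have h' := h
    obtain ⟨r0, hS, hT, fJ, fQ, JQ, gK, hR, RJ, RQ, RK, hc, hd, hr⟩ := h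
    rcases Nat.eq_zero_or_pos c with rfl | hcpos
    · have hJ : J.Nonempty := by
        rw [← Finset.card_pos]; omega
      obtain ⟨a, ha⟩ := hJ
      obtain ⟨h1, h2⟩ := h'.a2 ha
      exact ⟨_, _, _, Or.inl ⟨bg_opt_a _ _ _ ((hS a).2 (Or.inr (Or.inl ha))), rfl, rfl⟩,
        _, _, _, h1⟩
    · obtain ⟨c0, rfl⟩ : ∃ c0, c = c0 + 1 := ⟨c - 1, by omega⟩
      refine ⟨_, _, _, Or.inr (Or.inl ⟨rfl, rfl, rfl⟩), J, Q, K,
        ⟨r0, hS, hT, fJ, fQ, JQ, gK, hR, RJ, RQ, RK, by omega, hd, hr⟩⟩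
  · rintro ⟨S, T, r⟩ c d ⟨S1, T1, r1⟩ c' d' ⟨J, Q, K, h⟩
    have h' := h
    obtain ⟨r0, hS, hT, fJ, fQ, JQ, gK, hR, RJ, RQ, RK, hc, hd, hr⟩ := h
    rcases Nat.eq_zero_or_pos d with rfl | hdpos
    · have hK : K.Nonempty := by
        rw [← Finset.card_pos]; omega
      obtain ⟨b, hb⟩ := hK
      obtain ⟨h1, h2⟩ := h'.b2 hb
      simp only at r0
      subst r0
      exact ⟨_, _, _, Or.inl ⟨bg_opt_b _ _ _ ((hT b).2 (Or.inr hb)), rfl, rfl⟩,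
        _, _, _, h1⟩
    · obtain ⟨d0, rfl⟩ : ∃ d0, d = d0 + 1 := ⟨d - 1, by omega⟩
      refine ⟨_, _, _, Or.inr (Or.inr ⟨rfl, rfl, rfl⟩), J, Q, K,
        ⟨r0, hS, hT, fJ, fQ, JQ, gK, hR, RJ, RQ, RK, hc, by omega, hr⟩⟩

end FlagColoring
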