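import Pool.Agent.Helper35.FlagEmb

/-!
Unboundedness of the values of the bipartite game.
-/

namespace FlagColoring

open Filter
open scoped Classical

/-- bundled family of positions of the bipartite game -/
structure Pos where
  α : Type
  β : Type
  R : α → β → Prop
  S : Finset α
  T : Finset β
  p : ℕ
  q : ℕ
  r : ℕ

def Pos.Lim (P : Pos) (n : ℕ) : Prop :=
  ∀ᶠ t in atTop, (bg P.R).val (P.S, P.T, P.r) (P.p + t) (P.q + t) = n

def Pos.Good (P : Pos) : Prop :=
  P.r % 2 = 1 ∧ P.T.card % 2 = 0 ∧ (P.S.card + P.r + P.p + (P.T.card + P.q)) % 2 = 1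

/-- the set of attained diagonal limits -/
def VV : Set ℕ := {n | ∃ P : Pos, P.Good ∧ P.Lim n}

/-- second-side vertex type of the combined position -/
abbrev BH (P : ℕ → Pos) : Type := (Σ n, (P n).α ⊕ ℕ) ⊕ (ℕ ⊕ ℕ)

def RH (P : ℕ → Pos) : (Σ n, (P n).β) → BH P → Prop
  | x, Sum.inl ⟨j, Sum.inl a⟩ => ∃ b, x = ⟨j, b⟩ ∧ (P j).R a b
  | x, Sum.inl ⟨j, Sum.inr _⟩ => x.1 = j
  | x, Sum.inr (Sum.inl j) => x.1 ≠ j
  | _, Sum.inr (Sum.inr _) => False

noncomputable def SH (P : ℕ → Pos) (V : Finset ℕ) : Finset (Σ n, (P n).β) :=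
  V.sigma (fun n => (P n).T)

noncomputable def TH (P : ℕ → Pos) (V : Finset ℕ) (D : ℕ → ℕ) (e : ℕ) : Finset (BH P) :=
  (V.sigma (fun n => (P n).S.disjSum (Finset.range (D n)))).disjSum
    (V.disjSum (Finset.range e))

noncomputable def JH (P : ℕ → Pos) (V : Finset ℕ) (D : ℕ → ℕ) (e : ℕ) (n : ℕ) : Finset (BH P) :=
  ((V.erase n).sigma (fun n => (P n).S.disjSum (Finset.range (D n)))).disjSum
    ((∅ : Finset ℕ).disjSum (Finset.range e))

noncomputable def QH (P : ℕ → Pos) (V : Finset ℕ) (D : ℕ → ℕ) (n : ℕ) : Finset (BH P) :=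
  (({n} : Finset ℕ).sigma (fun n => (∅ : Finset (P n).α).disjSum (Finset.range (D n)))).disjSum
    ((V.erase n).disjSum ∅)

lemma option_val (P : ℕ → Pos) (V : Finset ℕ) (D : ℕ → ℕ) (e : ℕ) (n : ℕ) (hn : n ∈ V)
    (r c d : ℕ) :
    ∃ Y, (bg (RH P)).opt (SH P V, TH P V D e, r) Y ∧ (bg (RH P)).val Y c d =
    (bg (P n).R).val ((P n).S, (P n).T, V.card - 1 + D n)
      (d + (∑ j ∈ V.erase n, ((P j).S.card + D j) + e)) c := by
  have hmem : (Sum.inr (Sum.inl n) : BH P) ∈ TH P V D e := by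
    simp [TH, hn]
  refine ⟨_, bg_opt_b (RH P) (SH P V) r hmem, ?_⟩
  rw [swap_val]
  have hf : Function.Injective (fun a : (P n).α => (Sum.inl ⟨n, Sum.inl a⟩ : BH P)) := by
    intro a b h
    simpa using h
  have hg : Function.Injective (fun b : (P n).β => (⟨n, b⟩ : Σ n, (P n).β)) := by
    intro a b h
    simpa using h
  refine emb_val (f := fun a : (P n).α => (Sum.inl ⟨n, Sum.inl a⟩ : BH P))
    (g := fun b : (P n).β => (⟨n, b⟩ : Σ n, (P n).β)) hf hg
    (J := JH P V D e n) (Q := QH P V D n) (K := ∅) ?_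
  refine ⟨rfl, ?_, ?_, ?_, ?_, ?_, ?_, ?_, ?_, ?_, ?_, ?_, ?_, ?_⟩
  · rintro (⟨j, a | i⟩ | (j | i))
    · simp only [TH, JH, QH, Finset.mem_erase, ne_eq, reduceCtorEq, not_false_eq_true, true_and,
        Finset.inl_mem_disjSum, Finset.mem_sigma, Finset.mem_singleton, Finset.notMem_empty,
        and_false, or_false]
      constructor
      · rintro ⟨h1, h2⟩
        by_cases hj : j = n
        · subst hj
          exact Or.inl ⟨a, h2, rfl⟩
        · exact Or.inr ⟨⟨hj, h1⟩, h2⟩
      · rintro (⟨b, hb, h⟩ | ⟨⟨h1, h2⟩, h3⟩)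
        · simp only [Sum.inl.injEq, Sigma.mk.injEq] at h
          obtain ⟨rfl, h⟩ := h
          simp only [heq_eq_eq, Sum.inl.injEq] at h
          subst h
          exact ⟨hn, hb⟩
        · exact ⟨h2, h3⟩
    · simp only [TH, JH, QH, Finset.mem_erase, ne_eq, reduceCtorEq, not_false_eq_true, true_and,
        Finset.inl_mem_disjSum, Finset.mem_sigma, Finset.mem_singleton, Finset.inr_mem_disjSum]
      constructor
      · rintro ⟨h1, h2⟩
        by_cases hj : j = n
        · exact Or.inr (Or.inr ⟨hj, h2⟩)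
        · exact Or.inr (Or.inl ⟨⟨hj, h1⟩, h2⟩)
      · rintro (⟨b, hb, h⟩ | ⟨⟨h1, h2⟩, h3⟩ | ⟨h1, h2⟩)
        · simp only [Sum.inl.injEq, Sigma.mk.injEq] at h
          obtain ⟨rfl, h⟩ := h
          simp at h
        · exact ⟨h2, h3⟩
        · subst h1
          exact ⟨hn, h2⟩
    · simp only [TH, JH, QH, Finset.mem_erase, ne_eq, Sum.inr.injEq, Sum.inl.injEq,
        Finset.inr_mem_disjSum, Finset.inl_mem_disjSum, Finset.notMem_empty, false_or,
        reduceCtorEq, and_false, exists_false]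
    · simp only [TH, JH, QH, Finset.mem_erase, ne_eq, Sum.inr.injEq, reduceCtorEq,
        not_false_eq_true, true_and, Finset.inr_mem_disjSum, and_false, exists_false, false_or,
        Finset.notMem_empty, or_false]
  · rintro ⟨j, b⟩
    simp only [SH, RH, ne_eq, not_not, Finset.mem_filter, Finset.mem_sigma, Finset.notMem_empty,
      or_false]
    constructor
    · rintro ⟨⟨h1, h2⟩, rfl⟩
      exact ⟨b, h2, rfl⟩
    · rintro ⟨b', hb', h⟩
      simp only [Sigma.mk.injEq] at h
      obtain ⟨rfl, h⟩ := h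
      simp only [heq_eq_eq] at h
      subst h
      exact ⟨⟨hn, hb'⟩, rfl⟩
  · intro a
    simp [JH]
  · intro a
    simp [QH]
  · rintro (⟨j, a | i⟩ | (j | i)) h1 h2
    · simp [QH] at h2
    · simp only [JH, QH, Finset.inl_mem_disjSum, Finset.mem_sigma, Finset.mem_erase,
        Finset.mem_singleton, Finset.inr_mem_disjSum] at h1 h2
      exact h1.1.1 h2.1
    · simp [JH] at h1
    · simp [QH] at h2
  · intro b
    exact Finset.notMem_empty _
  · intro a ha b hb
    simp only [RH]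
    constructor
    · rintro ⟨b', h, h'⟩
      simp only [Sigma.mk.injEq, heq_eq_eq, true_and] at h
      subst h
      exact h'
    · intro h
      exact ⟨b, rfl, h⟩
  · rintro (⟨j, a | i⟩ | (j | i)) h1 ⟨k, b⟩ h2
    · simp only [JH, Finset.inl_mem_disjSum, Finset.mem_sigma, Finset.mem_erase] at h1
      simp only [SH, RH, ne_eq, not_not, Finset.mem_filter, Finset.mem_sigma] at h2
      obtain ⟨_, rfl⟩ := h2
      simp only [RH]
      rintro ⟨b', h, _⟩
      simp only [Sigma.mk.injEq] at h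
      exact h1.1.1 h.1.symm
    · simp only [JH, Finset.inl_mem_disjSum, Finset.mem_sigma, Finset.mem_erase] at h1
      simp only [SH, RH, ne_eq, not_not, Finset.mem_filter, Finset.mem_sigma] at h2
      obtain ⟨_, rfl⟩ := h2
      simp only [RH]
      exact fun h => h1.1.1 h.symm
    · simp [JH] at h1
    · simp [RH]
  · rintro (⟨j, a | i⟩ | (j | i)) h1 b hb
    · simp [QH] at h1
    · simp only [QH, Finset.inl_mem_disjSum, Finset.mem_sigma, Finset.mem_singleton] at h1
      simp only [RH]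
      exact h1.1.symm
    · simp only [QH, Finset.inr_mem_disjSum, Finset.inl_mem_disjSum, Finset.mem_erase] at h1
      simp only [RH]
      exact fun h => h1.1 h.symm
    · simp [QH] at h1
  · intro b hb
    exact absurd hb (Finset.notMem_empty _)
  · simp only [JH, Finset.card_disjSum, Finset.card_sigma, Finset.card_range, Finset.card_empty]
    omega
  · simp
  · simp only [QH, Finset.card_disjSum, Finset.card_sigma, Finset.card_range, Finset.card_empty,
      Finset.sum_singleton, Finset.card_erase_of_mem hn]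
    omega

theorem VV_infinite : VV.Infinite := by
  intro hfin
  set V : Finset ℕ := hfin.toFinset with hV
  have hmemV : ∀ n, n ∈ V ↔ n ∈ VV := fun n => by rw [hV, Set.Finite.mem_toFinset]
  have hdata : ∀ n, ∃ P : Pos, n ∈ V → P.Good ∧ P.Lim n := by
    intro n
    by_cases hn : n ∈ V
    · obtain ⟨P, hP⟩ := (hmemV n).1 hn
      exact ⟨P, fun _ => hP⟩
    · exact ⟨⟨Unit, Unit, fun _ _ => True, ∅, ∅, 0, 0, 0⟩, fun h => absurd h hn⟩
  choose P hP using hdata
  obtain ⟨m, hm⟩ : ∃ m, m = V.card := ⟨_, rfl⟩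
  obtain ⟨K, hK⟩ : ∃ K, K = m + 2 * ∑ j ∈ V, ((P j).p + (P j).S.card) := ⟨_, rfl⟩
  have hKbig : ∀ n ∈ V, (P n).p + (P n).S.card ≤ K := by
    intro n hn
    have := Finset.single_le_sum (f := fun j => (P j).p + (P j).S.card)
      (fun i _ => Nat.zero_le _) hn
    omega
  let D : ℕ → ℕ := fun n => K + (P n).q - (P n).p - (P n).S.card
  have hD : ∀ n ∈ V, D n + (P n).p + (P n).S.card = K + (P n).q := by
    intro n hn
    have := hKbig n hn
    simp only [D]
    omega
  obtain ⟨Tot, hTot⟩ : ∃ Tot, Tot = ∑ j ∈ V, ((P j).S.card + D j) := ⟨_, rfl⟩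
  obtain ⟨e, he⟩ : ∃ e, e = 2 * K + Tot + m := ⟨_, rfl⟩
  obtain ⟨Pp, hPp⟩ : ∃ Pp, Pp = 2 * Tot + K + m := ⟨_, rfl⟩
  -- the combined position
  have hSHcard : (SH P V).card % 2 = 0 := by
    rw [SH, Finset.card_sigma, Finset.sum_nat_mod]
    have : ∑ i ∈ V, (P i).T.card % 2 = 0 := by
      apply Finset.sum_eq_zero
      intro i hi
      exact (hP i hi).1.2.1
    rw [this]
  have hTHcard : (TH P V D e).card = Tot + m + e := by
    rw [TH, Finset.card_disjSum, Finset.card_sigma, Finset.card_disjSum, Finset.card_range,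
      ← hm, hTot]
    simp only [Finset.card_disjSum, Finset.card_range]
    omega
  have hlim := (bg (RH P)).mixed_lim (SH P V, TH P V D e, 1) Pp 0 (by
    rw [bg_a, bg_b, hTHcard]
    omega)
  obtain ⟨n, hn⟩ := hlim
  have hgood : (⟨_, _, RH P, SH P V, TH P V D e, Pp, 0, 1⟩ : Pos).Good := by
    refine ⟨rfl, ?_, ?_⟩
    · simp only [hTHcard]; omega
    · simp only [hTHcard]; omega
  have hnV : n ∈ V := by
    rw [hmemV]
    exact ⟨_, hgood, hn⟩
  obtain ⟨hg, hl⟩ := hP n hnV
  obtain ⟨g1, g2, g3⟩ := hg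
  have hmpos : 1 ≤ V.card := Finset.card_pos.2 ⟨n, hnV⟩
  have hDn := hD n hnV
  have hsum : ∑ j ∈ V.erase n, ((P j).S.card + D j) + ((P n).S.card + D n) = Tot := by
    rw [hTot]
    exact Finset.sum_erase_add V _ hnV
  obtain ⟨t0, ht0⟩ := Filter.eventually_atTop.1 hl
  obtain ⟨t1, ht1⟩ := Filter.eventually_atTop.1 hn
  -- choose a large time
  obtain ⟨t, ht⟩ : ∃ t, t = t0 + t1 + (P n).q + 3 := ⟨_, rfl⟩
  have hv := ht1 t (by omega)
  obtain ⟨Y, hY, ho⟩ := option_val P V D e n hnV 1 (Pp + t) (0 + t)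
  have hopt := (bg (RH P)).mem_vals_opt hY (Pp + t) (0 + t)
  rw [ho, neutral_odd (P n).R _ _ _ (P n).r _ _ (by omega) g1 (by omega) (by omega)] at hopt
  have hval := ht0 (t + Pp - (P n).q) (by omega)
  rw [show (P n).p + (t + Pp - (P n).q) =
      0 + t + (∑ j ∈ V.erase n, ((P j).S.card + D j) + e) by omega,
    show (P n).q + (t + Pp - (P n).q) = Pp + t by omega] at hval
  rw [hval, ← hv] at hopt
  exact (bg (RH P)).val_notMem _ _ _ hopt

/-- plain positions have unbounded values -/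
theorem plain_unbounded (N : ℕ) : ∃ (α β : Type) (R : α → β → Prop) (S : Finset α) (T : Finset β),
    N < (bg R).val (S, T, 0) 0 0 := by
  obtain ⟨n, ⟨P, -, hl⟩, hn⟩ := VV_infinite.exists_gt N
  obtain ⟨t, ht⟩ := hl.exists
  let R'' : (P.α ⊕ (ℕ ⊕ ℕ)) → (P.β ⊕ ℕ) → Prop := fun x y =>
    match x, y with
    | Sum.inl a, Sum.inl b => P.R a b
    | Sum.inr (Sum.inr _), Sum.inl _ => True
    | _, _ => False
  refine ⟨P.α ⊕ (ℕ ⊕ ℕ), P.β ⊕ ℕ, R'',
    P.S.disjSum ((Finset.range (P.p + t)).disjSum (Finset.range P.r)),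
    P.T.disjSum (Finset.range (P.q + t)), ?_⟩
  have : (bg R'').val (P.S.disjSum ((Finset.range (P.p + t)).disjSum (Finset.range P.r)),
      P.T.disjSum (Finset.range (P.q + t)), 0) 0 0 =
      (bg P.R).val (P.S, P.T, P.r) (P.p + t) (P.q + t) := by
    refine emb_val (f := Sum.inl) (g := Sum.inl) Sum.inl_injective Sum.inl_injective
      (J := (∅ : Finset P.α).disjSum ((Finset.range (P.p + t)).disjSum ∅))
      (Q := (∅ : Finset P.α).disjSum ((∅ : Finset ℕ).disjSum (Finset.range P.r)))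
      (K := (∅ : Finset P.β).disjSum (Finset.range (P.q + t))) ?_
    refine ⟨rfl, ?_, ?_, ?_, ?_, ?_, ?_, ?_, ?_, ?_, ?_, ?_, ?_, ?_⟩
    · rintro (a | (i | i)) <;> simp
    · rintro (b | i) <;> simp
    · intro a; simp
    · intro a; simp
    · rintro (a | (i | i)) h1 h2
      · simp at h1
      · simp at h2
      · simp at h1
    · intro b; simp
    · intro a ha b hb
      simp [R'']
    · rintro (a | (i | i)) h1 (b | j) h2
      · simp at h1
      · simp at h1
      · simp [R'']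
      · simp [R'']
      · simp at h1
      · simp at h1
    · rintro (a | (i | i)) h1 b h2
      · simp at h1
      · simp at h1
      · simp [R'']
    · rintro (b | j) h1 (a | (i | i)) h2
      · simp at h1
      · simp at h1
      · simp at h1
      · simp [R'']
      · simp [R'']
      · simp [R'']
    · simp
    · simp
    · simp
  rw [this, ht]
  exact hn

end FlagColoring
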