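import Pool.Agent.Helper35.FlagDefs
import Pool.Agent.Helper35.FlagUnb

/-!
From the bipartite game to positions of two-colour flag colouring.
-/

namespace FlagColoring

open scoped Classical

section general

variable {V : Type}

def gvals [Fintype V] (G : SimpleGraph V) (χ : V → Bool) : Set ℕ :=
  {n | ∃ v, Legal G χ v ∧ grundy G (recolour G χ v) = n}

lemma grundy_eq_mex [Fintype V] (G : SimpleGraph V) (χ : V → Bool) : grundy G χ = mex (gvals G χ) := by
  rw [grundy, mex]
  congr 1
  ext n
  simp only [Set.mem_ofPred_eq, Set.mem_compl_iff, gvals, not_exists, not_and]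

lemma mono_le_recolour (G : SimpleGraph V) (χ : V → Bool) (v : V) :
    mono G χ ≤ mono G (recolour G χ v) := by
  intro x y h
  refine ⟨h.1, ?_⟩
  by_contra hne
  exact recolour_ne h.1 hne h.2

lemma recolour_of_reach {G : SimpleGraph V} {χ : V → Bool} {v x : V}
    (h : (mono G χ).Reachable v x) : recolour G χ v x = !(χ v) := if_pos h

lemma recolour_of_not {G : SimpleGraph V} {χ : V → Bool} {v x : V}
    (h : ¬ (mono G χ).Reachable v x) : recolour G χ v x = χ x := if_neg h

/-- an isolated vertex of `mono` only reaches itself -/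
lemma reach_isolated {G : SimpleGraph V} {χ : V → Bool} {x y : V}
    (hx : ∀ z, G.Adj x z → χ z = !(χ x)) (h : (mono G χ).Reachable x y) : x = y := by
  obtain ⟨p⟩ := h
  cases p with
  | nil => rfl
  | cons h _ =>
    exfalso
    have := hx _ h.1
    rw [h.2] at this
    revert this
    cases χ _ <;> simp

/-- star positions -/
structure Star (G : SimpleGraph V) (χ : V → Bool) (c0 : Bool) (z0 : V) (F : Finset V) : Prop where
  colF : ∀ x, x ∈ F ↔ χ x = !c0
  free : ∀ x ∈ F, ∀ y, G.Adj x y → χ y = c0
  toC : ∀ x ∈ F, ∃ y, G.Adj x y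
  col0 : χ z0 = c0
  reach : ∀ x, χ x = c0 → (mono G χ).Reachable z0 x

lemma grundy_const [Fintype V] (G : SimpleGraph V) (χ : V → Bool) (c : Bool) (h : ∀ x, χ x = c) :
    grundy G χ = 0 := by
  rw [grundy_eq_mex]
  apply mex_eq
  · rintro ⟨v, ⟨w, _, hw⟩, _⟩
    exact hw (by rw [h, h])
  · intro k hk
    omega

lemma grundy_star [Fintype V] (n : ℕ) : ∀ (G : SimpleGraph V) (χ : V → Bool) (c0 : Bool) (z0 : V)
    (F : Finset V), F.card = n → Star G χ c0 z0 F → grundy G χ = s3 n := by
  induction n with
  | zero =>
    intro G χ c0 z0 F hF h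
    rw [Finset.card_eq_zero] at hF
    subst hF
    rw [grundy_const G χ c0, s3_zero]
    intro x
    have := (h.colF x).not.1 (Finset.notMem_empty x)
    revert this
    cases χ x <;> cases c0 <;> simp
  | succ n ih =>
    intro G χ c0 z0 F hF h
    -- move at a leaf
    have leaf : ∀ x ∈ F, Star G (recolour G χ x) c0 z0 (F.erase x) := by
      intro x hx
      have hxc : χ x = !c0 := (h.colF x).1 hx
      have hiso : ∀ z, G.Adj x z → χ z = !(χ x) := by
        intro z hz
        rw [h.free x hx z hz, hxc, Bool.not_not]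
      have hrx : recolour G χ x x = c0 := by
        rw [recolour_of_reach (SimpleGraph.Reachable.refl x), hxc, Bool.not_not]
      have hry : ∀ y, y ≠ x → recolour G χ x y = χ y := by
        intro y hy
        exact recolour_of_not (fun hr => hy (reach_isolated hiso hr).symm)
      refine ⟨?_, ?_, ?_, ?_, ?_⟩
      · intro y
        rw [Finset.mem_erase, h.colF]
        by_cases hy : y = x
        · subst hy
          rw [hrx]
          cases c0 <;> simp
        · rw [hry y hy]
          exact ⟨fun h => h.2, fun h => ⟨hy, h⟩⟩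
      · intro y hy z hz
        have hy' := Finset.mem_of_mem_erase hy
        have hz0 := h.free y hy' z hz
        by_cases hzx : z = x
        · subst hzx; exact hrx
        · rw [hry z hzx]; exact hz0
      · intro y hy
        exact h.toC y (Finset.mem_of_mem_erase hy)
      · by_cases hzx : z0 = x
        · rw [hzx]; exact hrx
        · rw [hry z0 hzx]; exact h.col0
      · intro y hy
        by_cases hyx : y = x
        · subst hyx
          obtain ⟨w, hw⟩ := h.toC y hx
          have hwc := h.free y hx w hw
          have hwx : w ≠ y := fun h' => G.irrefl (h' ▸ hw)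
          have h1 : (mono G (recolour G χ y)).Reachable z0 w :=
            (h.reach w hwc).mono (mono_le_recolour G χ y)
          have h2 : (mono G (recolour G χ y)).Adj w y := by
            refine ⟨hw.symm, ?_⟩
            rw [hry w hwx, hrx, hwc]
          exact h1.trans h2.reachable
        · rw [hry y hyx] at hy
          exact (h.reach y hy).mono (mono_le_recolour G χ x)
    have hleafval : ∀ x ∈ F, grundy G (recolour G χ x) = s3 n := by
      intro x hx
      apply ih G _ c0 z0 (F.erase x) _ (leaf x hx)
      rw [Finset.card_erase_of_mem hx, hF]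
      rfl
    have hcen : ∀ x, χ x = c0 → grundy G (recolour G χ x) = 0 := by
      intro x hx
      apply grundy_const G _ (!c0)
      intro y
      by_cases hy : χ y = c0
      · rw [recolour_of_reach, hx]
        exact (h.reach x hx).symm.trans (h.reach y hy)
      · rw [recolour_of_not]
        · revert hy
          cases χ y <;> cases c0 <;> simp
        · intro hr
          exact hy ((colour_of_reachable hr).trans hx)
    have hFne : F.Nonempty := by
      rw [← Finset.card_pos]; omega
    obtain ⟨x0, hx0⟩ := hFne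
    obtain ⟨y0, hy0⟩ := h.toC x0 hx0
    have hy0c := h.free x0 hx0 y0 hy0
    have hx0c := (h.colF x0).1 hx0
    have hset : gvals G χ = {0, s3 n} := by
      apply Set.Subset.antisymm
      · rintro v ⟨x, _, rfl⟩
        by_cases hx : x ∈ F
        · right
          exact hleafval x hx
        · left
          apply hcen
          have := (h.colF x).not.1 hx
          revert this
          cases χ x <;> cases c0 <;> simp
      · rintro v (rfl | rfl)
        · refine ⟨y0, ⟨x0, hy0.symm, ?_⟩, hcen y0 hy0c⟩
          rw [hx0c, hy0c]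
          cases c0 <;> simp
        · refine ⟨x0, ⟨y0, hy0, ?_⟩, hleafval x0 hx0⟩
          rw [hx0c, hy0c]
          cases c0 <;> simp
    rw [grundy_eq_mex, hset]
    obtain ⟨h1, h2, h3⟩ := s3_succ_spec n
    apply mex_eq
    · rintro (h | h)
      · exact h1 h
      · exact h2 h
    · intro k hk
      rcases h3 k hk with rfl | rfl
      · exact Or.inl rfl
      · exact Or.inr rfl

/-- two centres of different colours, free vertices `F`; all other vertices are attached to the
centre of their colour -/
structure Rep (G : SimpleGraph V) (ctr : Bool → V) (χ : V → Bool) (F : Finset V) : Prop where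
  col : ∀ c, χ (ctr c) = c
  adj : G.Adj (ctr true) (ctr false)
  nmem : ∀ c, ctr c ∉ F
  free : ∀ x ∈ F, ∀ y, G.Adj x y → χ y = !(χ x)
  toC : ∀ x ∈ F, G.Adj x (ctr (!(χ x)))
  rest : ∀ x, x ∉ F → (mono G χ).Reachable (ctr (χ x)) x

lemma Rep.adj' {G : SimpleGraph V} {ctr : Bool → V} {χ : V → Bool} {F : Finset V}
    (h : Rep G ctr χ F) (c : Bool) : G.Adj (ctr c) (ctr (!c)) := by
  cases c
  · exact h.adj.symm
  · exact h.adj

lemma Rep.recol {G : SimpleGraph V} {ctr : Bool → V} {χ : V → Bool} {F : Finset V}
    (h : Rep G ctr χ F) {x : V} (hx : x ∈ F) (y : V) :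
    recolour G χ x y = if y = x then !(χ x) else χ y := by
  by_cases hy : y = x
  · subst hy
    rw [if_pos rfl, recolour_of_reach (SimpleGraph.Reachable.refl y)]
  · rw [if_neg hy, recolour_of_not]
    exact fun hr => hy (reach_isolated (h.free x hx) hr).symm

lemma Rep.move {G : SimpleGraph V} {ctr : Bool → V} {χ : V → Bool} {F : Finset V}
    (h : Rep G ctr χ F) {x : V} (hx : x ∈ F) {F' : Finset V}
    (hF' : ∀ y, y ∈ F' ↔ (y ∈ F ∧ y ≠ x ∧ ¬ G.Adj x y)) :
    Rep G ctr (recolour G χ x) F' := by
  have hrec := h.recol hx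
  have hctr : ∀ c, ctr c ≠ x := fun c hc => h.nmem c (hc ▸ hx)
  have hcolc : ∀ c, recolour G χ x (ctr c) = c := fun c => by
    rw [hrec, if_neg (hctr c), h.col]
  have hcolx : recolour G χ x x = !(χ x) := by rw [hrec, if_pos rfl]
  refine ⟨hcolc, h.adj, fun c hc => h.nmem c ((hF' _).1 hc).1, ?_, ?_, ?_⟩
  · intro y hy z hz
    obtain ⟨hyF, hyx, hxy⟩ := (hF' y).1 hy
    have hzx : z ≠ x := by
      rintro rfl
      exact hxy hz.symm
    rw [hrec z, hrec y, if_neg hzx, if_neg hyx]
    exact h.free y hyF z hz
  · intro y hy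
    obtain ⟨hyF, hyx, hxy⟩ := (hF' y).1 hy
    rw [hrec y, if_neg hyx]
    exact h.toC y hyF
  · intro y hy
    have hle := mono_le_recolour G χ x
    -- edge from the centre to `x`
    have e1 : (mono G (recolour G χ x)).Adj (ctr (!(χ x))) x := by
      refine ⟨(h.toC x hx).symm, ?_⟩
      rw [hcolc, hcolx]
    by_cases hyx : y = x
    · subst hyx
      rw [hcolx]
      exact e1.reachable
    · by_cases hyF : y ∈ F
      · have hxy : G.Adj x y := by
          by_contra hxy
          exact hy ((hF' y).2 ⟨hyF, hyx, hxy⟩)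
        have hcy : χ y = !(χ x) := h.free x hx y hxy
        have hcy' : recolour G χ x y = !(χ x) := by
          rw [hrec y, if_neg hyx, hcy]
        rw [hcy']
        have e2 : (mono G (recolour G χ x)).Adj x y := ⟨hxy, by rw [hcolx, hcy']⟩
        exact e1.reachable.trans e2.reachable
      · rw [hrec y, if_neg hyx]
        exact (h.rest y hyF).mono hle

lemma Rep.exit {G : SimpleGraph V} {ctr : Bool → V} {χ : V → Bool} {F : Finset V}
    (h : Rep G ctr χ F) {z : V} (hz : z ∉ F) {F' : Finset V}
    (hF' : ∀ y, y ∈ F' ↔ (y ∈ F ∧ χ y = χ z)) :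
    Star G (recolour G χ z) (!(χ z)) (ctr (!(χ z))) F' := by
  have hreach : ∀ y, y ∉ F → χ y = χ z → (mono G χ).Reachable z y := by
    intro y hy hc
    have h1 := h.rest y hy
    have h2 := h.rest z hz
    rw [hc] at h1
    exact h2.symm.trans h1
  have hnot : ∀ y, y ∈ F → ¬ (mono G χ).Reachable z y := by
    intro y hy hr
    have := reach_isolated (h.free y hy) hr.symm
    exact hz (this ▸ hy)
  have hnot' : ∀ y, χ y ≠ χ z → ¬ (mono G χ).Reachable z y :=
    fun y hy hr => hy (colour_of_reachable hr)
  have hle := mono_le_recolour G χ z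
  have hc0 : recolour G χ z (ctr (!(χ z))) = !(χ z) := by
    rw [recolour_of_not, h.col]
    apply hnot'
    rw [h.col]
    cases χ z <;> simp
  have hc1 : recolour G χ z (ctr (χ z)) = !(χ z) :=
    recolour_of_reach (hreach _ (h.nmem _) (h.col _))
  refine ⟨?_, ?_, ?_, hc0, ?_⟩
  · intro y
    rw [hF', Bool.not_not]
    constructor
    · rintro ⟨hyF, hc⟩
      rw [recolour_of_not (hnot y hyF), hc]
    · intro hy
      by_cases hyF : y ∈ F
      · rw [recolour_of_not (hnot y hyF)] at hy
        exact ⟨hyF, hy⟩
      · exfalso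
        by_cases hc : χ y = χ z
        · rw [recolour_of_reach (hreach y hyF hc)] at hy
          revert hy
          cases χ z <;> simp
        · rw [recolour_of_not (hnot' y hc)] at hy
          exact hc hy
  · intro y hy w hw
    obtain ⟨hyF, hc⟩ := (hF' y).1 hy
    have hcw : χ w = !(χ y) := h.free y hyF w hw
    rw [recolour_of_not, hcw, hc]
    apply hnot'
    rw [hcw, hc]
    cases χ z <;> simp
  · intro y hy
    exact ⟨_, h.toC y ((hF' y).1 hy).1⟩
  · intro y hy
    -- first: the old centre of the colour of `z` is reachable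
    have e1 : (mono G (recolour G χ z)).Adj (ctr (!(χ z))) (ctr (χ z)) := by
      refine ⟨(h.adj' (χ z)).symm, ?_⟩
      rw [hc0, hc1]
    by_cases hyF : y ∈ F
    · rw [recolour_of_not (hnot y hyF)] at hy
      have hadj := h.toC y hyF
      rw [hy, Bool.not_not] at hadj
      have e2 : (mono G (recolour G χ z)).Adj (ctr (χ z)) y := by
        refine ⟨hadj.symm, ?_⟩
        rw [hc1, recolour_of_not (hnot y hyF), hy]
      exact e1.reachable.trans e2.reachable
    · have h1 := h.rest y hyF
      by_cases hc : χ y = χ z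
      · rw [hc] at h1
        exact e1.reachable.trans (h1.mono hle)
      · have : χ y = !(χ z) := by
          revert hc
          cases χ y <;> cases χ z <;> simp
        rw [this] at h1
        exact h1.mono hle

end general

section concrete

variable {α β : Type} (R : α → β → Prop)

/-- base relation of the graph -/
def baseRel : (Bool ⊕ (α ⊕ β)) → (Bool ⊕ (α ⊕ β)) → Prop
  | Sum.inl true, Sum.inl false => True
  | Sum.inl true, Sum.inr (Sum.inr _) => True
  | Sum.inl false, Sum.inr (Sum.inl _) => True
  | Sum.inr (Sum.inl a), Sum.inr (Sum.inr b) => R a b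
  | _, _ => False

def GG : SimpleGraph (Bool ⊕ (α ⊕ β)) := SimpleGraph.fromRel (baseRel R)

def col0 : (Bool ⊕ (α ⊕ β)) → Bool
  | Sum.inl c => c
  | Sum.inr (Sum.inl _) => true
  | Sum.inr (Sum.inr _) => false

lemma GG_adj_col {x y : Bool ⊕ (α ⊕ β)} (h : (GG R).Adj x y) : col0 y = !(col0 x) := by
  rw [GG, SimpleGraph.fromRel_adj] at h
  obtain ⟨hne, h⟩ := h
  rcases x with (_ | _) | (a | b) <;> rcases y with (_ | _) | (a' | b') <;>
    simp_all [baseRel, col0]

lemma GG_connected : (GG R).Connected := by
  have h0 : (GG R).Adj (Sum.inl true) (Sum.inl false) := by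
    rw [GG, SimpleGraph.fromRel_adj]; simp [baseRel]
  have hall : ∀ x, (GG R).Reachable (Sum.inl true) x := by
    rintro ((_ | _) | (a | b))
    · exact h0.reachable
    · exact SimpleGraph.Reachable.refl _
    · have : (GG R).Adj (Sum.inl false) (Sum.inr (Sum.inl a)) := by
        rw [GG, SimpleGraph.fromRel_adj]; simp [baseRel]
      exact h0.reachable.trans this.reachable
    · have : (GG R).Adj (Sum.inl true) (Sum.inr (Sum.inr b)) := by
        rw [GG, SimpleGraph.fromRel_adj]; simp [baseRel]
      exact this.reachable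
  have : Nonempty (Bool ⊕ (α ⊕ β)) := ⟨Sum.inl true⟩
  exact ⟨fun x y => (hall x).symm.trans (hall y)⟩

/-- the free set associated with `(S, T)` -/
noncomputable def FF (S : Finset α) (T : Finset β) : Finset (Bool ⊕ (α ⊕ β)) :=
  (∅ : Finset Bool).disjSum (S.disjSum T)

lemma rep_start [Fintype α] [Fintype β] : Rep (GG R) Sum.inl (col0 (α := α) (β := β)) (FF Finset.univ Finset.univ) := by
  refine ⟨fun c => rfl, ?_, ?_, ?_, ?_, ?_⟩
  · rw [GG, SimpleGraph.fromRel_adj]; simp [baseRel]
  · intro c; simp [FF]
  · intro x _ y h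
    exact GG_adj_col R h
  · rintro (c | (a | b)) hx
    · simp [FF] at hx
    · rw [GG, SimpleGraph.fromRel_adj]; simp [baseRel, col0]
    · rw [GG, SimpleGraph.fromRel_adj]; simp [baseRel, col0]
  · rintro (c | (a | b)) hx
    · exact SimpleGraph.Reachable.refl _
    · simp [FF] at hx
    · simp [FF] at hx

lemma grundy_rep [Fintype α] [Fintype β] (n : ℕ) : ∀ (S : Finset α) (T : Finset β) (χ : (Bool ⊕ (α ⊕ β)) → Bool),
    S.card + T.card = n → Rep (GG R) Sum.inl χ (FF S T) → (∀ x ∈ FF S T, χ x = col0 x) →
    grundy (GG R) χ = (bg R).val (S, T, 0) 0 0 := by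
  induction n using Nat.strong_induction_on with
  | _ n ih =>
    intro S T χ hn hrep hcol
    have memA : ∀ a, (Sum.inr (Sum.inl a) : Bool ⊕ (α ⊕ β)) ∈ FF S T ↔ a ∈ S := by
      intro a; simp [FF]
    have memB : ∀ b, (Sum.inr (Sum.inr b) : Bool ⊕ (α ⊕ β)) ∈ FF S T ↔ b ∈ T := by
      intro b; simp [FF]
    -- moves at free vertices
    have moveA : ∀ a ∈ S, grundy (GG R) (recolour (GG R) χ (Sum.inr (Sum.inl a))) =
        (bg R).val (S.erase a, T.filter (fun b => ¬ R a b), 0) 0 0 := by
      intro a ha
      have hx := (memA a).2 ha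
      have hF : ∀ y, y ∈ FF (S.erase a) (T.filter (fun b => ¬ R a b)) ↔
          (y ∈ FF S T ∧ y ≠ Sum.inr (Sum.inl a) ∧ ¬ (GG R).Adj (Sum.inr (Sum.inl a)) y) := by
        intro y
        rcases y with c | (a' | b)
        · simp [FF]
        · simp only [FF, GG, Finset.inr_mem_disjSum, Finset.inl_mem_disjSum,
            ne_eq, Sum.inr.injEq, Sum.inl.injEq, SimpleGraph.fromRel_adj, baseRel, or_self,
            and_false, not_false_eq_true, and_true, Finset.mem_erase]
          tauto
        · simp [FF, GG, baseRel]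
      have hr := hrep.move hx hF
      have e1 := Finset.card_erase_lt_of_mem ha
      have e2 := Finset.card_filter_le T (fun b => ¬ R a b)
      refine ih _ (by omega) _ _ _ rfl hr ?_
      intro x hx'
      rw [hF] at hx'
      rw [hrep.recol hx, if_neg hx'.2.1]
      exact hcol x hx'.1
    have moveB : ∀ b ∈ T, grundy (GG R) (recolour (GG R) χ (Sum.inr (Sum.inr b))) =
        (bg R).val (S.filter (fun a => ¬ R a b), T.erase b, 0) 0 0 := by
      intro b hb
      have hx := (memB b).2 hb
      have hF : ∀ y, y ∈ FF (S.filter (fun a => ¬ R a b)) (T.erase b) ↔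
          (y ∈ FF S T ∧ y ≠ Sum.inr (Sum.inr b) ∧ ¬ (GG R).Adj (Sum.inr (Sum.inr b)) y) := by
        intro y
        rcases y with c | (a | b')
        · simp [FF]
        · simp [FF, GG, baseRel]
        · simp only [FF, GG, Finset.inr_mem_disjSum,
            ne_eq, Sum.inr.injEq, SimpleGraph.fromRel_adj, baseRel, or_self,
            and_false, not_false_eq_true, and_true, Finset.mem_erase]
          tauto
      have hr := hrep.move hx hF
      have e1 := Finset.card_erase_lt_of_mem hb
      have e2 := Finset.card_filter_le S (fun a => ¬ R a b)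
      refine ih _ (by omega) _ _ _ rfl hr ?_
      intro x hx'
      rw [hF] at hx'
      rw [hrep.recol hx, if_neg hx'.2.1]
      exact hcol x hx'.1
    have hfT : ∀ y, y ∈ FF S (∅ : Finset β) ↔ (y ∈ FF S T ∧ χ y = true) := by
      intro y
      symm
      constructor
      · rintro ⟨h1, h2⟩
        rw [hcol y h1] at h2
        rcases y with c | (a | b)
        · simp [FF] at h1
        · simpa [FF] using h1
        · simp [col0] at h2
      · intro h1
        rcases y with c | (a | b)
        · simp [FF] at h1
        · have ha : a ∈ S := by simpa [FF] using h1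
          exact ⟨(memA a).2 ha, by rw [hcol _ ((memA a).2 ha)]; rfl⟩
        · simp [FF] at h1
    have hfF : ∀ y, y ∈ FF (∅ : Finset α) T ↔ (y ∈ FF S T ∧ χ y = false) := by
      intro y
      symm
      constructor
      · rintro ⟨h1, h2⟩
        rw [hcol y h1] at h2
        rcases y with c | (a | b)
        · simp [FF] at h1
        · simp [col0] at h2
        · simpa [FF] using h1
      · intro h1
        rcases y with c | (a | b)
        · simp [FF] at h1
        · simp [FF] at h1
        · have hb : b ∈ T := by simpa [FF] using h1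
          exact ⟨(memB b).2 hb, by rw [hcol _ ((memB b).2 hb)]; rfl⟩
    have exT : ∀ z, z ∉ FF S T → χ z = true → grundy (GG R) (recolour (GG R) χ z) = s3 S.card := by
      intro z hz hc
      have hs := hrep.exit hz (F' := FF S ∅) (by rw [hc]; exact hfT)
      refine grundy_star _ (GG R) _ _ _ _ ?_ hs
      simp [FF]
    have exF : ∀ z, z ∉ FF S T → χ z = false → grundy (GG R) (recolour (GG R) χ z) = s3 T.card := by
      intro z hz hc
      have hs := hrep.exit hz (F' := FF ∅ T) (by rw [hc]; exact hfF)
      refine grundy_star _ (GG R) _ _ _ _ ?_ hs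
      simp [FF]
    have key : gvals (GG R) χ = (bg R).vals (S, T, 0) 0 0 := by
      apply Set.Subset.antisymm
      · rintro v ⟨x, _, rfl⟩
        by_cases hx : x ∈ FF S T
        · rcases x with c | (a | b)
          · simp [FF] at hx
          · have ha := (memA a).1 hx
            rw [moveA a ha]
            exact (bg R).mem_vals_opt (bg_opt_a R T 0 ha) 0 0
          · have hb := (memB b).1 hx
            rw [moveB b hb]
            exact (bg R).mem_vals_opt (bg_opt_b R S 0 hb) 0 0
        · cases hc : χ x
          · rw [exF x hx hc]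
            exact (bg R).mem_vals_b (S, T, 0) 0 0
          · rw [exT x hx hc]
            exact (bg R).mem_vals_a (S, T, 0) 0 0
      · rintro v (⟨Y, hY, rfl⟩ | ⟨c', hc', rfl⟩ | ⟨d', hd', rfl⟩ | rfl | rfl)
        · rcases hY with (⟨a, ha, rfl⟩ | ⟨b, hb, rfl⟩ | ⟨k, hk, rfl⟩)
          · simp only at ha
            refine ⟨Sum.inr (Sum.inl a), ⟨_, hrep.toC _ ((memA a).2 ha), ?_⟩, moveA a ha⟩
            rw [hrep.col]
            cases χ _ <;> simp
          · simp only at hb
            refine ⟨Sum.inr (Sum.inr b), ⟨_, hrep.toC _ ((memB b).2 hb), ?_⟩, moveB b hb⟩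
            rw [hrep.col]
            cases χ _ <;> simp
          · simp at hk
        · omega
        · omega
        · refine ⟨Sum.inl true, ⟨_, hrep.adj, ?_⟩, ?_⟩
          · rw [hrep.col, hrep.col]; simp
          · rw [exT _ (hrep.nmem true) (hrep.col true)]; rfl
        · refine ⟨Sum.inl false, ⟨_, hrep.adj.symm, ?_⟩, ?_⟩
          · rw [hrep.col, hrep.col]; simp
          · rw [exF _ (hrep.nmem false) (hrep.col false)]; rfl
    rw [grundy_eq_mex, key, ← (bg R).val_eq_mex]

end concrete

theorem flag_unbounded (N : ℕ) : ∃ (V : Type) (_ : Fintype V) (G : SimpleGraph V) (χ : V → Bool),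
    G.Connected ∧ N < grundy G χ := by
  obtain ⟨α, β, R, S, T, h⟩ := plain_unbounded N
  let R1 : S → T → Prop := fun a b => R a b
  have e : (bg R).val (S, T, 0) 0 0 =
      (bg R1).val ((Finset.univ : Finset S), (Finset.univ : Finset T), 0) 0 0 := by
    refine emb_val (f := fun a : S => (a : α)) (g := fun b : T => (b : β))
      Subtype.val_injective Subtype.val_injective (J := ∅) (Q := ∅) (K := ∅) ?_
    refine ⟨rfl, ?_, ?_, ?_, ?_, ?_, ?_, ?_, ?_, ?_, ?_, ?_, ?_, ?_⟩
    · intro a; simp
    · intro b; simp
    · intro a; simp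
    · intro a; simp
    · intro a h; simp at h
    · intro a; simp
    · intro a _ b _; rfl
    · intro a h; simp at h
    · intro a h; simp at h
    · intro a h; simp at h
    · rfl
    · rfl
    · rfl
  refine ⟨Bool ⊕ (S ⊕ T), inferInstance, GG R1, col0, GG_connected R1, ?_⟩
  rw [grundy_rep R1 _ Finset.univ Finset.univ col0 rfl (rep_start R1) (fun _ _ => rfl), ← e]
  exact h

end FlagColoring
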