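import Pool.Agent.Helper85.IW.Statements

/-!
# Module E2 (MP_3dd6d4_an, n = 1): region 2 quadratic form inequality (helper35)
-/

set_option autoImplicit false
set_option maxSynthPendingDepth 3

namespace Helper85.IW.M_E2

open Helper85.IW

noncomputable section

/-- the discriminant -/
def DI (C T M : ℝ) : ℝ :=
  4 * (31 / 30 * C + 1 / 30 + T) * M - (M - 1 + T) ^ 2 - 31 / 30 * (1 + C) * T ^ 2 / C ^ 2

theorem corner1 (C : ℝ) (hC : 1 ≤ C) :
    0 ≤ DI C (9 / 10 * C - 15 / 100) (69 / 100 * ((1 + C) ^ 2 / C)) := by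
  obtain ⟨c, hc, rfl⟩ : ∃ c : ℝ, 0 ≤ c ∧ C = 1 + c := ⟨C - 1, by linarith, by ring⟩
  have h1 : (0 : ℝ) < 1 + c := by linarith
  have h2 : DI (1 + c) (9 / 10 * (1 + c) - 15 / 100) (69 / 100 * ((1 + (1 + c)) ^ 2 / (1 + c)))
      * (1 + c) ^ 2 ≥ 0 := by
    unfold DI
    have e : (4 * (31 / 30 * (1 + c) + 1 / 30 + (9 / 10 * (1 + c) - 15 / 100)) *
          (69 / 100 * ((1 + (1 + c)) ^ 2 / (1 + c)))
        - (69 / 100 * ((1 + (1 + c)) ^ 2 / (1 + c)) - 1 + (9 / 10 * (1 + c) - 15 / 100)) ^ 2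
        - 31 / 30 * (1 + (1 + c)) * (9 / 10 * (1 + c) - 15 / 100) ^ 2 / (1 + c) ^ 2) * (1 + c) ^ 2
        = 4 * (31 / 30 * (1 + c) + 1 / 30 + (9 / 10 * (1 + c) - 15 / 100)) *
          (69 / 100 * ((1 + (1 + c)) ^ 2)) * (1 + c)
        - (69 / 100 * ((1 + (1 + c)) ^ 2) + (1 + c) * (- 1 + (9 / 10 * (1 + c) - 15 / 100))) ^ 2
        - 31 / 30 * (1 + (1 + c)) * (9 / 10 * (1 + c) - 15 / 100) ^ 2 := by
      field_simp
      ring
    rw [e]
    ring_nf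
    positivity
  by_contra hneg
  push Not at hneg
  nlinarith [mul_pos (pow_pos h1 2) (neg_pos.mpr hneg)]

theorem corner2 (C : ℝ) (hC : 1 ≤ C) :
    0 ≤ DI C (-(9 / 10 * C - 15 / 100)) (69 / 100 * ((1 + C) ^ 2 / C)) := by
  obtain ⟨c, hc, rfl⟩ : ∃ c : ℝ, 0 ≤ c ∧ C = 1 + c := ⟨C - 1, by linarith, by ring⟩
  have h1 : (0 : ℝ) < 1 + c := by linarith
  have h2 : DI (1 + c) (-(9 / 10 * (1 + c) - 15 / 100)) (69 / 100 * ((1 + (1 + c)) ^ 2 / (1 + c)))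
      * (1 + c) ^ 2 ≥ 0 := by
    unfold DI
    have e : (4 * (31 / 30 * (1 + c) + 1 / 30 + (-(9 / 10 * (1 + c) - 15 / 100))) *
          (69 / 100 * ((1 + (1 + c)) ^ 2 / (1 + c)))
        - (69 / 100 * ((1 + (1 + c)) ^ 2 / (1 + c)) - 1 + (-(9 / 10 * (1 + c) - 15 / 100))) ^ 2
        - 31 / 30 * (1 + (1 + c)) * (-(9 / 10 * (1 + c) - 15 / 100)) ^ 2 / (1 + c) ^ 2) * (1 + c) ^ 2
        = 4 * (31 / 30 * (1 + c) + 1 / 30 + (-(9 / 10 * (1 + c) - 15 / 100))) *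
          (69 / 100 * ((1 + (1 + c)) ^ 2)) * (1 + c)
        - (69 / 100 * ((1 + (1 + c)) ^ 2) + (1 + c) * (- 1 + (-(9 / 10 * (1 + c) - 15 / 100)))) ^ 2
        - 31 / 30 * (1 + (1 + c)) * (-(9 / 10 * (1 + c) - 15 / 100)) ^ 2 := by
      field_simp
      ring
    rw [e]
    ring_nf
    positivity
  by_contra hneg
  push Not at hneg
  nlinarith [mul_pos (pow_pos h1 2) (neg_pos.mpr hneg)]

theorem corner3 (C : ℝ) (hC : 1 ≤ C) :
    0 ≤ DI C (9 / 10 * C - 15 / 100) (77 / 100 * ((1 + C) ^ 2 / C)) := by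
  obtain ⟨c, hc, rfl⟩ : ∃ c : ℝ, 0 ≤ c ∧ C = 1 + c := ⟨C - 1, by linarith, by ring⟩
  have h1 : (0 : ℝ) < 1 + c := by linarith
  have h2 : DI (1 + c) (9 / 10 * (1 + c) - 15 / 100) (77 / 100 * ((1 + (1 + c)) ^ 2 / (1 + c)))
      * (1 + c) ^ 2 ≥ 0 := by
    unfold DI
    have e : (4 * (31 / 30 * (1 + c) + 1 / 30 + (9 / 10 * (1 + c) - 15 / 100)) *
          (77 / 100 * ((1 + (1 + c)) ^ 2 / (1 + c)))
        - (77 / 100 * ((1 + (1 + c)) ^ 2 / (1 + c)) - 1 + (9 / 10 * (1 + c) - 15 / 100)) ^ 2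
        - 31 / 30 * (1 + (1 + c)) * (9 / 10 * (1 + c) - 15 / 100) ^ 2 / (1 + c) ^ 2) * (1 + c) ^ 2
        = 4 * (31 / 30 * (1 + c) + 1 / 30 + (9 / 10 * (1 + c) - 15 / 100)) *
          (77 / 100 * ((1 + (1 + c)) ^ 2)) * (1 + c)
        - (77 / 100 * ((1 + (1 + c)) ^ 2) + (1 + c) * (- 1 + (9 / 10 * (1 + c) - 15 / 100))) ^ 2
        - 31 / 30 * (1 + (1 + c)) * (9 / 10 * (1 + c) - 15 / 100) ^ 2 := by
      field_simp
      ring
    rw [e]
    ring_nf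
    positivity
  by_contra hneg
  push Not at hneg
  nlinarith [mul_pos (pow_pos h1 2) (neg_pos.mpr hneg)]

theorem corner4 (C : ℝ) (hC : 1 ≤ C) :
    0 ≤ DI C (-(9 / 10 * C - 15 / 100)) (77 / 100 * ((1 + C) ^ 2 / C)) := by
  obtain ⟨c, hc, rfl⟩ : ∃ c : ℝ, 0 ≤ c ∧ C = 1 + c := ⟨C - 1, by linarith, by ring⟩
  have h1 : (0 : ℝ) < 1 + c := by linarith
  have h2 : DI (1 + c) (-(9 / 10 * (1 + c) - 15 / 100)) (77 / 100 * ((1 + (1 + c)) ^ 2 / (1 + c)))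
      * (1 + c) ^ 2 ≥ 0 := by
    unfold DI
    have e : (4 * (31 / 30 * (1 + c) + 1 / 30 + (-(9 / 10 * (1 + c) - 15 / 100))) *
          (77 / 100 * ((1 + (1 + c)) ^ 2 / (1 + c)))
        - (77 / 100 * ((1 + (1 + c)) ^ 2 / (1 + c)) - 1 + (-(9 / 10 * (1 + c) - 15 / 100))) ^ 2
        - 31 / 30 * (1 + (1 + c)) * (-(9 / 10 * (1 + c) - 15 / 100)) ^ 2 / (1 + c) ^ 2) * (1 + c) ^ 2
        = 4 * (31 / 30 * (1 + c) + 1 / 30 + (-(9 / 10 * (1 + c) - 15 / 100))) *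
          (77 / 100 * ((1 + (1 + c)) ^ 2)) * (1 + c)
        - (77 / 100 * ((1 + (1 + c)) ^ 2) + (1 + c) * (- 1 + (-(9 / 10 * (1 + c) - 15 / 100)))) ^ 2
        - 31 / 30 * (1 + (1 + c)) * (-(9 / 10 * (1 + c) - 15 / 100)) ^ 2 := by
      field_simp
      ring
    rw [e]
    ring_nf
    positivity
  by_contra hneg
  push Not at hneg
  nlinarith [mul_pos (pow_pos h1 2) (neg_pos.mpr hneg)]

theorem DI_T (C T T0 M : ℝ) (hC : 1 ≤ C) (h0 : 0 < T0) (hT : |T| ≤ T0)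
    (h1 : 0 ≤ DI C T0 M) (h2 : 0 ≤ DI C (-T0) M) : 0 ≤ DI C T M := by
  obtain ⟨ha, hb⟩ := abs_le.mp hT
  have hA : 0 ≤ 1 + 31 / 30 * (1 + C) / C ^ 2 := by positivity
  have key : 2 * T0 * DI C T M = (T0 + T) * DI C T0 M + (T0 - T) * DI C (-T0) M
      + 2 * T0 * ((1 + 31 / 30 * (1 + C) / C ^ 2) * (T0 ^ 2 - T ^ 2)) := by
    unfold DI
    have : C ≠ 0 := by positivity
    field_simp
    ring
  have hT2 : 0 ≤ T0 ^ 2 - T ^ 2 := by nlinarith
  have : 0 ≤ 2 * T0 * DI C T M := by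
    rw [key]
    have a1 := mul_nonneg (by linarith : 0 ≤ T0 + T) h1
    have a2 := mul_nonneg (by linarith : 0 ≤ T0 - T) h2
    have a3 := mul_nonneg (by linarith : 0 ≤ 2 * T0) (mul_nonneg hA hT2)
    linarith
  exact nonneg_of_mul_nonneg_right this (by linarith)

theorem DI_M (C T M M0 M1 : ℝ) (h01 : M0 < M1) (ha : M0 ≤ M) (hb : M ≤ M1)
    (h1 : 0 ≤ DI C T M0) (h2 : 0 ≤ DI C T M1) : 0 ≤ DI C T M := by
  have key : (M1 - M0) * DI C T M = (M - M0) * DI C T M1 + (M1 - M) * DI C T M0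
      + (M1 - M0) * ((M - M0) * (M1 - M)) := by
    unfold DI
    ring
  have : 0 ≤ (M1 - M0) * DI C T M := by
    rw [key]
    have a1 := mul_nonneg (by linarith : 0 ≤ M - M0) h2
    have a2 := mul_nonneg (by linarith : 0 ≤ M1 - M) h1
    have a3 := mul_nonneg (by linarith : 0 ≤ M1 - M0)
      (mul_nonneg (by linarith : 0 ≤ M - M0) (by linarith : 0 ≤ M1 - M))
    linarith
  exact nonneg_of_mul_nonneg_right this (by linarith)

theorem DI_nonneg (C T M : ℝ) (hC : 1 ≤ C) (hT : |T| ≤ 9 / 10 * C - 15 / 100)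
    (ha : 69 / 100 * ((1 + C) ^ 2 / C) ≤ M) (hb : M ≤ 77 / 100 * ((1 + C) ^ 2 / C)) :
    0 ≤ DI C T M := by
  have h0 : 0 < 9 / 10 * C - 15 / 100 := by linarith
  have hq : 0 < (1 + C) ^ 2 / C := by positivity
  refine DI_M C T M _ _ ?_ ha hb ?_ ?_
  · linarith
  · exact DI_T C T _ _ hC h0 hT (corner1 C hC) (corner2 C hC)
  · exact DI_T C T _ _ hC h0 hT (corner3 C hC) (corner4 C hC)

/-- the reduced two-variable form -/
theorem two_var (C T M v y : ℝ) (hC : 1 ≤ C) (hT : |T| ≤ 9 / 10 * C - 15 / 100)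
    (ha : 69 / 100 * ((1 + C) ^ 2 / C) ≤ M) (hb : M ≤ 77 / 100 * ((1 + C) ^ 2 / C)) :
    0 ≤ (31 / 30 * C + 1 / 30 + T) * v ^ 2 + (M - 1 + T) * (v * y) + M * y ^ 2
      - T ^ 2 / (4 * C ^ 2) * (v + y) ^ 2 := by
  have hD := DI_nonneg C T M hC hT ha hb
  have hC0 : 0 < C := by linarith
  have hs : T ^ 2 / (4 * C ^ 2) ≤ 1 := by
    rw [div_le_one (by positivity)]
    have : T ^ 2 ≤ C ^ 2 := by
      have h3 : |T| ≤ C := by linarith
      exact sq_le_sq' (by linarith [(abs_le.mp h3).1]) (abs_le.mp h3).2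
    nlinarith [sq_nonneg C]
  have hM : 2 ≤ M := by
    have : 4 ≤ (1 + C) ^ 2 / C := by
      rw [le_div_iff₀ hC0]
      nlinarith [sq_nonneg (C - 1)]
    linarith
  set s : ℝ := T ^ 2 / (4 * C ^ 2) with hsdef
  have hpos : 0 < M - s := by linarith
  have hdisc : 0 ≤ 4 * (31 / 30 * C + 1 / 30 + T - s) * (M - s) - (M - 1 + T - 2 * s) ^ 2 := by
    have e : 4 * (31 / 30 * C + 1 / 30 + T - s) * (M - s) - (M - 1 + T - 2 * s) ^ 2
        = DI C T M := by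
      unfold DI
      rw [hsdef]
      field_simp
      ring
    rw [e]
    exact hD
  have key : 4 * (M - s) * ((31 / 30 * C + 1 / 30 + T) * v ^ 2 + (M - 1 + T) * (v * y) + M * y ^ 2
      - s * (v + y) ^ 2) = (2 * (M - s) * y + (M - 1 + T - 2 * s) * v) ^ 2
      + (4 * (31 / 30 * C + 1 / 30 + T - s) * (M - s) - (M - 1 + T - 2 * s) ^ 2) * v ^ 2 := by
    ring
  have : 0 ≤ 4 * (M - s) * ((31 / 30 * C + 1 / 30 + T) * v ^ 2 + (M - 1 + T) * (v * y) + M * y ^ 2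
      - s * (v + y) ^ 2) := by
    rw [key]
    have := mul_nonneg hdisc (sq_nonneg v)
    have := sq_nonneg (2 * (M - s) * y + (M - 1 + T - 2 * s) * v)
    linarith
  exact nonneg_of_mul_nonneg_right this (by linarith)

theorem main (hK : StK) : StE2 := by
  intro p hp a τ ha hτ v x y
  obtain ⟨-, hC1, -, -, -, -, -, -, hm0, hm, hM0, hM1⟩ := hK p hp
  have hCdef : CC p = p - 1 + (p - 2) / 30 := rfl
  set C := CC p with hC
  set M := MM p with hMdef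
  set m := mm p with hmdef
  have hk : 0 < p - 2 := by linarith
  set k := p - 2 with hkdef
  have hp' : p = k + 2 := by rw [hkdef]; ring
  have hCk : C = 1 + 31 / 30 * k := by rw [hCdef, hp']; ring
  have hC0 : 0 < C := by linarith
  -- normalised quantities
  obtain ⟨T, hT⟩ : ∃ T : ℝ, τ = k * T := ⟨τ / k, by field_simp⟩
  obtain ⟨N, hN⟩ : ∃ N : ℝ, M = k * N := ⟨M / k, by field_simp⟩
  have hTb : |T| ≤ 9 / 10 * C - 15 / 100 := by
    have h1 : k * |T| ≤ k * (9 / 10 * C - 15 / 100) := by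
      calc k * |T| = |τ| := by rw [hT, abs_mul, abs_of_pos hk]
        _ ≤ m * C := hτ
        _ ≤ (k * (9 / 10 - 15 / 100 / C)) * C := by
          exact mul_le_mul_of_nonneg_right hm hC0.le
        _ = k * (9 / 10 * C - 15 / 100) := by field_simp
    exact le_of_mul_le_mul_left h1 hk
  have hNa : 69 / 100 * ((1 + C) ^ 2 / C) ≤ N := by
    have h1 : k * (69 / 100 * ((1 + C) ^ 2 / C)) ≤ k * N := by
      rw [← hN]
      calc k * (69 / 100 * ((1 + C) ^ 2 / C)) = k * (69 / 100) * (1 + C) ^ 2 / C := by ring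
        _ ≤ M := hM0
    exact le_of_mul_le_mul_left h1 hk
  have hNb : N ≤ 77 / 100 * ((1 + C) ^ 2 / C) := by
    have h1 : k * N ≤ k * (77 / 100 * ((1 + C) ^ 2 / C)) := by
      rw [← hN]
      calc M ≤ k * (77 / 100) * (1 + C) ^ 2 / C := hM1
        _ = k * (77 / 100 * ((1 + C) ^ 2 / C)) := by ring
    exact le_of_mul_le_mul_left h1 hk
  have h2 := two_var C T N v y hC1.le hTb hNa hNb
  have ha0 : 0 < a := lt_of_lt_of_le (by positivity) ha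
  -- multiply by `4 k a`
  have hs : T ^ 2 / (4 * a) ≤ T ^ 2 / (4 * C ^ 2) := by
    apply div_le_div_of_nonneg_left (sq_nonneg _) (by positivity)
    linarith
  have h3 : 0 ≤ (31 / 30 * C + 1 / 30 + T) * v ^ 2 + (N - 1 + T) * (v * y) + N * y ^ 2
      - T ^ 2 / (4 * a) * (v + y) ^ 2 := by
    have := mul_le_mul_of_nonneg_right hs (sq_nonneg (v + y))
    linarith
  have e : (p - 1) * (a - 1) * v ^ 2 + (2 * k * a - τ) * (v * x) + (M - k) * (v * y)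
      + k * a * x ^ 2 - τ * (x * y) + M * y ^ 2
      = k / a * (a * (v + x) - T / 2 * (v + y)) ^ 2
        + (a - C ^ 2) * v ^ 2
        + k * ((31 / 30 * C + 1 / 30 + T) * v ^ 2 + (N - 1 + T) * (v * y) + N * y ^ 2
      - T ^ 2 / (4 * a) * (v + y) ^ 2) := by
    rw [hT, hN, hp', hCk]
    field_simp
    ring
  rw [e]
  have a1 : 0 ≤ k / a * (a * (v + x) - T / 2 * (v + y)) ^ 2 := by positivity
  have a2 : 0 ≤ (a - C ^ 2) * v ^ 2 := mul_nonneg (by linarith) (sq_nonneg v)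
  have a3 := mul_nonneg hk.le h3
  linarith

end

end Helper85.IW.M_E2
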