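import Mathlib

set_option autoImplicit false

namespace Pool.Agent.Helper35.KoolenYang

open Finset

section Sunflower

variable {c m p : ℕ} {S : Fin m → Fin p → ℤ}

/-- The quadratic form of a family of integer vectors with Gram matrix `c (2 I + J)`. -/
theorem form_le
    (hS : ∀ k l, ∑ j, S k j * S l j = if k = l then 3 * (c : ℤ) else (c : ℤ))
    (x : Fin m → ℤ) (j0 : Fin p) :
    (∑ k, x k * S k j0) ^ 2 ≤ (c : ℤ) * ((∑ k, x k) ^ 2 + 2 * ∑ k, x k ^ 2) := by
  have h1 : (∑ k, x k * S k j0) ^ 2 ≤ ∑ j, (∑ k, x k * S k j) ^ 2 :=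
    Finset.single_le_sum (f := fun j => (∑ k, x k * S k j) ^ 2)
      (fun j _ => sq_nonneg _) (Finset.mem_univ j0)
  have h2 : ∑ j, (∑ k, x k * S k j) ^ 2
      = ∑ k, ∑ l, x k * x l * (∑ j, S k j * S l j) := by
    have : ∀ j, (∑ k, x k * S k j) ^ 2 = ∑ k, ∑ l, x k * x l * (S k j * S l j) := by
      intro j
      rw [sq, Finset.sum_mul_sum]
      refine Finset.sum_congr rfl fun k _ => Finset.sum_congr rfl fun l _ => ?_
      ring
    simp_rw [this]
    rw [Finset.sum_comm]
    refine Finset.sum_congr rfl fun k _ => ?_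
    rw [Finset.sum_comm]
    refine Finset.sum_congr rfl fun l _ => ?_
    rw [Finset.mul_sum]
  have h3 : ∑ k, ∑ l, x k * x l * (∑ j, S k j * S l j)
      = (c : ℤ) * ((∑ k, x k) ^ 2 + 2 * ∑ k, x k ^ 2) := by
    have : ∀ k l, x k * x l * (∑ j, S k j * S l j)
        = (c : ℤ) * (x k * x l) + (if k = l then 2 * (c : ℤ) * (x k * x l) else 0) := by
      intro k l
      rw [hS]
      split_ifs <;> ring
    simp_rw [this, Finset.sum_add_distrib]
    simp only [Finset.sum_ite_eq, Finset.mem_univ, if_true]
    rw [mul_add, sq, Finset.sum_mul_sum]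
    simp_rw [← Finset.mul_sum]
    congr 1
    have : ∑ i, x i * x i = ∑ i, x i ^ 2 := Finset.sum_congr rfl fun i _ => by ring
    rw [this]
    ring
  rw [← h3, ← h2]
  exact h1

/-- Threshold dichotomy. -/
theorem threshold
    (hS : ∀ k l, ∑ j, S k j * S l j = if k = l then 3 * (c : ℤ) else (c : ℤ))
    (j : Fin p) (α : ℤ)
    (h1 : 4 * c < (univ.filter fun k => α < S k j).card) :
    (univ.filter fun k => ¬ α < S k j).card ≤ 4 * c := by
  by_contra h2
  push Not at h2
  set a := (univ.filter fun k => α < S k j).card with ha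
  have h2' : 4 * c < (univ.filter fun k => ¬ α < S k j).card := by
    simpa using h2
  clear h2
  set b := (univ.filter fun k => ¬ α < S k j).card with hb
  let x : Fin m → ℤ := fun k => if α < S k j then (b : ℤ) else -(a : ℤ)
  have hx1 : ∑ k, x k = 0 := by
    simp only [x]
    rw [Finset.sum_ite, Finset.sum_const, Finset.sum_const, ← ha, ← hb]
    simp only [nsmul_eq_mul]
    ring
  have hx2 : ∑ k, x k ^ 2 = (a : ℤ) * (b : ℤ) ^ 2 + (b : ℤ) * (a : ℤ) ^ 2 := by
    have : ∀ k, x k ^ 2 = if α < S k j then (b : ℤ) ^ 2 else (a : ℤ) ^ 2 := by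
      intro k
      simp only [x]
      split_ifs <;> ring
    simp_rw [this]
    rw [Finset.sum_ite, Finset.sum_const, Finset.sum_const, ← ha, ← hb]
    simp only [nsmul_eq_mul]
  have hx3 : (a : ℤ) * b ≤ ∑ k, x k * S k j := by
    have e1 : ∀ k, x k * α + (if α < S k j then (b : ℤ) else 0) ≤ x k * S k j := by
      intro k
      simp only [x]
      split_ifs with h
      · have : α + 1 ≤ S k j := h
        nlinarith [Nat.zero_le b]
      · push Not at h
        nlinarith [Nat.zero_le a]
    have e2 := Finset.sum_le_sum (s := univ) fun k _ => e1 k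
    rw [Finset.sum_add_distrib, ← Finset.sum_mul, hx1, Finset.sum_ite, Finset.sum_const,
      ← ha] at e2
    simp only [nsmul_eq_mul, zero_mul, zero_add, Finset.sum_const_zero, add_zero] at e2
    exact e2
  have key := form_le hS x j
  rw [hx1, hx2] at key
  have ha' : 4 * (c : ℤ) < a := by exact_mod_cast h1
  have hb' : 4 * (c : ℤ) < b := by exact_mod_cast h2'
  have hc : (0 : ℤ) ≤ c := Int.natCast_nonneg c
  have hapos : (0 : ℤ) < a := by linarith
  have hbpos : (0 : ℤ) < b := by linarith
  have h5 : ((a : ℤ) * b) ^ 2 ≤ (∑ k, x k * S k j) ^ 2 := by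
    apply pow_le_pow_left₀ (by positivity) hx3
  have h6 : ((a : ℤ) * b) * (a * b) ≤ (a * b) * (2 * c * (a + b)) := by
    nlinarith
  have hab : (0 : ℤ) < (a : ℤ) * b := by positivity
  have h7 : (a : ℤ) * b ≤ 2 * c * (a + b) := le_of_mul_le_mul_left h6 hab
  nlinarith

/-- In every coordinate almost all vectors of the family take the same value. -/
theorem exists_const
    (hS : ∀ k l, ∑ j, S k j * S l j = if k = l then 3 * (c : ℤ) else (c : ℤ))
    (hm : 4 * c < m) (j : Fin p) :
    ∃ e : ℤ, (univ.filter fun k => S k j ≠ e).card ≤ 8 * c := by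
  obtain ⟨B, hB⟩ : ∃ B : ℤ, ∀ k, |S k j| ≤ B := by
    refine ⟨∑ k, |S k j|, fun k => ?_⟩
    exact Finset.single_le_sum (f := fun k => |S k j|) (fun k _ => abs_nonneg _)
      (Finset.mem_univ k)
  let P : ℤ → Prop := fun e => 4 * c < (univ.filter fun k => e ≤ S k j).card
  have hb : ∃ b : ℤ, ∀ z, P z → z ≤ b := by
    refine ⟨B, fun z hz => ?_⟩
    by_contra hlt
    push Not at hlt
    have : (univ.filter fun k => z ≤ S k j) = ∅ := by
      apply Finset.filter_eq_empty_iff.mpr
      intro k _
      have := (abs_le.mp (hB k)).2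
      omega
    simp only [P, this, Finset.card_empty] at hz
    omega
  have hi : ∃ z, P z := by
    refine ⟨-B, ?_⟩
    have : (univ.filter fun k => -B ≤ S k j) = univ := by
      apply Finset.filter_true_of_mem
      intro k _
      exact (abs_le.mp (hB k)).1
    simp only [P, this, Finset.card_univ, Fintype.card_fin]
    exact hm
  obtain ⟨e, he1, he2⟩ := Int.exists_greatest_of_bdd hb hi
  refine ⟨e, ?_⟩
  have hup : (univ.filter fun k => e + 1 ≤ S k j).card ≤ 4 * c := by
    by_contra hcon
    push Not at hcon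
    have := he2 (e + 1) hcon
    omega
  have hlow : (univ.filter fun k => ¬ (e - 1 < S k j)).card ≤ 4 * c := by
    apply threshold hS
    have : (univ.filter fun k => e - 1 < S k j) = (univ.filter fun k => e ≤ S k j) := by
      apply Finset.filter_congr
      intro k _
      constructor <;> intro h <;> omega
    rw [this]
    exact he1
  have hsub : (univ.filter fun k => S k j ≠ e) ⊆
      (univ.filter fun k => e + 1 ≤ S k j) ∪ (univ.filter fun k => ¬ (e - 1 < S k j)) := by
    intro k hk
    simp only [Finset.mem_filter, Finset.mem_univ, true_and, Finset.mem_union] at hk ⊢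
    omega
  calc _ ≤ _ := Finset.card_le_card hsub
    _ ≤ _ := Finset.card_union_le _ _
    _ ≤ 8 * c := by omega

/-- The support of an integer vector is at most its squared norm. -/
theorem supp_le (U : Fin p → ℤ) (B : ℕ) (hU : ∑ j, U j ^ 2 ≤ B) :
    (univ.filter fun j => U j ≠ 0).card ≤ B := by
  have h1 : ((univ.filter fun j => U j ≠ 0).card : ℤ) ≤ ∑ j, U j ^ 2 := by
    rw [Finset.card_filter]
    push_cast
    apply Finset.sum_le_sum
    intro j _
    split_ifs with h
    · have : 0 < U j ^ 2 := by positivity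
      omega
    · positivity
  exact_mod_cast h1.trans hU

/-- Few members of the family disagree with the stable vector on a small set. -/
theorem bad_le (E : Fin p → ℤ)
    (hE : ∀ j, (univ.filter fun k => S k j ≠ E j).card ≤ 8 * c)
    (J : Finset (Fin p)) :
    (univ.filter fun k => ∃ j ∈ J, S k j ≠ E j).card ≤ J.card * (8 * c) := by
  have hsub : (univ.filter fun k => ∃ j ∈ J, S k j ≠ E j) ⊆
      J.biUnion fun j => univ.filter fun k => S k j ≠ E j := by
    intro k hk
    simp only [Finset.mem_filter, Finset.mem_univ, true_and, Finset.mem_biUnion] at hk ⊢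
    exact hk
  exact (Finset.card_le_card hsub).trans
    (Finset.card_biUnion_le_card_mul _ _ _ fun j _ => hE j)

/-- Outside a small exceptional set there is a member agreeing with `E` on `J`. -/
theorem exists_good (E : Fin p → ℤ)
    (hE : ∀ j, (univ.filter fun k => S k j ≠ E j).card ≤ 8 * c)
    (J : Finset (Fin p)) (X : Finset (Fin m)) (h : J.card * (8 * c) + X.card < m) :
    ∃ k, k ∉ X ∧ ∀ j ∈ J, S k j = E j := by
  by_contra hcon
  push Not at hcon
  have hsub : (univ : Finset (Fin m)) ⊆ (univ.filter fun k => ∃ j ∈ J, S k j ≠ E j) ∪ X := by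
    intro k _
    simp only [Finset.mem_union, Finset.mem_filter, Finset.mem_univ, true_and]
    by_cases hk : k ∈ X
    · exact Or.inr hk
    · exact Or.inl (hcon k hk)
  have h1 := Finset.card_le_card hsub
  have h2 := Finset.card_union_le (univ.filter fun k => ∃ j ∈ J, S k j ≠ E j) X
  have h3 := bad_le E hE J
  rw [Finset.card_univ, Fintype.card_fin] at h1
  omega

theorem dot_congr (U E T : Fin p → ℤ) (h : ∀ j, U j ≠ 0 → T j = E j) :
    ∑ j, U j * E j = ∑ j, U j * T j := by
  apply Finset.sum_congr rfl
  intro j _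
  by_cases hj : U j = 0
  · simp [hj]
  · rw [h j hj]

/-- A large family of integer vectors with Gram matrix `c (2 I + J)` has an integral core:
a vector of squared norm `c` having the right inner products. -/
theorem exists_core
    (hS : ∀ k l, ∑ j, S k j * S l j = if k = l then 3 * (c : ℤ) else (c : ℤ))
    (hm : 48 * (c * c) + 16 * c + 2 ≤ m) :
    ∃ E : Fin p → ℤ, ∑ j, E j ^ 2 = (c : ℤ) ∧
      ∀ (U : Fin p → ℤ) (b : ℤ), ∑ j, U j ^ 2 ≤ 3 * (c : ℤ) →
        (∀ k, ∑ j, U j * S k j = b) → ∑ j, U j * E j = b := by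
  have hm4 : 4 * c < m := by nlinarith [Nat.zero_le (c * c)]
  choose E hE using fun j => exists_const hS hm4 j
  -- inner products with small vectors
  have hdot : ∀ (U : Fin p → ℤ) (b : ℤ) (X : Finset (Fin m)), X.card ≤ 1 →
      ∑ j, U j ^ 2 ≤ 3 * (c : ℤ) →
      (∀ k, k ∉ X → ∑ j, U j * S k j = b) → ∑ j, U j * E j = b := by
    intro U b X hX hU hk
    have hs : (univ.filter fun j => U j ≠ 0).card ≤ 3 * c :=
      supp_le U (3 * c) (by push_cast; exact hU)
    obtain ⟨k, hkX, hkJ⟩ := exists_good (m := m) (c := c) E hE (univ.filter fun j => U j ≠ 0) X (by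
      have : (univ.filter fun j => U j ≠ 0).card * (8 * c) ≤ 3 * c * (8 * c) :=
        Nat.mul_le_mul_right _ hs
      nlinarith [Nat.zero_le (c * c)])
    rw [dot_congr U E (S k) (fun j hj => hkJ j (by simpa using hj))]
    exact hk k hkX
  refine ⟨E, ?_, fun U b hU hk => hdot U b ∅ (by simp) hU (fun k _ => hk k)⟩
  -- every member has inner product c with E
  have hSE : ∀ k, ∑ j, S k j * E j = (c : ℤ) := by
    intro k
    apply hdot (S k) c {k} (by simp)
    · have := hS k k
      simp only [if_true] at this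
      rw [← this]
      apply le_of_eq
      exact Finset.sum_congr rfl fun j _ => by ring
    · intro l hl
      have hne : k ≠ l := fun h => hl (by simp [h])
      have := hS k l
      rw [if_neg hne] at this
      exact this
  -- the support of E is small
  have hnorm : ∀ k, (univ.filter fun j => S k j ≠ 0).card ≤ 3 * c := by
    intro k
    apply supp_le (S k) (3 * c)
    have := hS k k
    simp only [if_true] at this
    push_cast
    rw [← this]
    apply le_of_eq
    exact Finset.sum_congr rfl fun j _ => by ring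
  set JE := univ.filter fun j => E j ≠ 0 with hJE
  have hcount : JE.card * (m - 8 * c) ≤ m * (3 * c) := by
    have e1 : ∀ j ∈ JE, m - 8 * c ≤ (univ.filter fun k => S k j ≠ 0).card := by
      intro j hj
      have hj' : E j ≠ 0 := by simpa [hJE] using hj
      have hsub : (univ.filter fun k => ¬ (S k j ≠ E j)) ⊆ univ.filter fun k => S k j ≠ 0 := by
        intro k hk
        simp only [Finset.mem_filter, Finset.mem_univ, true_and, not_not] at hk ⊢
        rw [hk]
        exact hj'
      have h1 := Finset.card_le_card hsub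
      have h2 := Finset.card_filter_add_card_filter_not (s := (univ : Finset (Fin m)))
        (fun k => S k j ≠ E j)
      rw [Finset.card_univ, Fintype.card_fin] at h2
      have h3 := hE j
      omega
    calc JE.card * (m - 8 * c) = ∑ _j ∈ JE, (m - 8 * c) := by
          rw [Finset.sum_const, smul_eq_mul]
      _ ≤ ∑ j ∈ JE, (univ.filter fun k => S k j ≠ 0).card := Finset.sum_le_sum e1
      _ ≤ ∑ j, (univ.filter fun k => S k j ≠ 0).card :=
          Finset.sum_le_sum_of_subset (Finset.subset_univ _)
      _ = ∑ j, ∑ k, (if S k j ≠ 0 then 1 else 0) := by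
          refine Finset.sum_congr rfl fun j _ => ?_
          rw [Finset.card_filter]
      _ = ∑ k, ∑ j, (if S k j ≠ 0 then 1 else 0) := Finset.sum_comm
      _ = ∑ k, (univ.filter fun j => S k j ≠ 0).card := by
          refine Finset.sum_congr rfl fun k _ => ?_
          rw [Finset.card_filter]
      _ ≤ ∑ _k : Fin m, 3 * c := Finset.sum_le_sum fun k _ => hnorm k
      _ = m * (3 * c) := by
          rw [Finset.sum_const, Finset.card_univ, Fintype.card_fin, smul_eq_mul]
  have hJE6 : JE.card ≤ 6 * c := by
    by_contra hcon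
    push Not at hcon
    have h16 : 16 * c + 2 ≤ m := by nlinarith [Nat.zero_le (c * c)]
    obtain ⟨d, hd⟩ : ∃ d, m = 8 * c + d := ⟨m - 8 * c, by omega⟩
    have hd' : m - 8 * c = d := by omega
    rw [hd'] at hcount
    have hd2 : 8 * c + 2 ≤ d := by omega
    nlinarith
  obtain ⟨k, -, hk⟩ := exists_good (m := m) (c := c) E hE JE ∅ (by
    have : JE.card * (8 * c) ≤ 6 * c * (8 * c) := Nat.mul_le_mul_right _ hJE6
    rw [Finset.card_empty]
    nlinarith [Nat.zero_le (c * c)])
  have h1 : ∑ j, E j * E j = ∑ j, E j * S k j :=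
    dot_congr E E (S k) (fun j hj => hk j (by simpa [hJE] using hj))
  calc ∑ j, E j ^ 2 = ∑ j, E j * E j := Finset.sum_congr rfl fun j _ => by ring
    _ = ∑ j, E j * S k j := h1
    _ = ∑ j, S k j * E j := Finset.sum_congr rfl fun j _ => by ring
    _ = c := hSE k

end Sunflower

end Pool.Agent.Helper35.KoolenYang
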