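import Mathlib

set_option autoImplicit false

namespace Pool.Agent.Helper35.KoolenYang

open Finset

/-- Vertices: `(i, t)` with `i ≤ L`, `t < 3` (a chain of triangles) and `m` clique vertices. -/
abbrev V (L m : ℕ) : Type := (Fin (L + 1) × Fin 3) ⊕ Fin m

/-- Adjacency of the chain of triangles with both ends joined to a clique. -/
def adj (L m : ℕ) : V L m → V L m → Prop
  | Sum.inl (i, t), Sum.inl (j, s) =>
      (i = j ∧ t ≠ s) ∨ (t = 0 ∧ s = 0 ∧ ((i : ℕ) + 1 = j ∨ (j : ℕ) + 1 = i))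
  | Sum.inl (i, t), Sum.inr _ => t = 0 ∧ ((i : ℕ) = 0 ∨ (i : ℕ) = L)
  | Sum.inr _, Sum.inl (i, t) => t = 0 ∧ ((i : ℕ) = 0 ∨ (i : ℕ) = L)
  | Sum.inr k, Sum.inr l => k ≠ l

/-- The graph. -/
def graph (L m : ℕ) : SimpleGraph (V L m) where
  Adj := adj L m
  symm := ⟨by
    rintro (⟨i, t⟩ | k) (⟨j, s⟩ | l) h
    · simp only [adj] at h ⊢
      rcases h with ⟨h1, h2⟩ | ⟨h1, h2, h3⟩
      · exact Or.inl ⟨h1.symm, h2.symm⟩
      · exact Or.inr ⟨h2, h1, h3.symm⟩
    · exact h
    · exact h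
    · exact fun h' => h h'.symm⟩
  loopless := ⟨by
    rintro (⟨i, t⟩ | k) h
    · simp only [adj] at h
      rcases h with ⟨_, h2⟩ | ⟨_, _, h3⟩
      · exact h2 rfl
      · omega
    · exact h rfl⟩

noncomputable instance (L m : ℕ) : DecidableRel (graph L m).Adj := Classical.decRel _

/-- Entries of `A + q I`. -/
noncomputable def ent (L m : ℕ) (q : ℝ) (v w : V L m) : ℝ :=
  ((graph L m).adjMatrix ℝ + q • (1 : Matrix (V L m) (V L m) ℝ)) v w

theorem ent_ll (L m : ℕ) (q : ℝ) (i j : Fin (L + 1)) (t s : Fin 3) :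
    ent L m q (Sum.inl (i, t)) (Sum.inl (j, s)) =
      (if i = j then (if t = s then q else 1) else 0) +
      (if t = 0 ∧ s = 0 then
        ((if (i : ℕ) + 1 = j then (1 : ℝ) else 0) + (if (j : ℕ) + 1 = i then 1 else 0)) else 0) := by
  have hA : (graph L m).Adj (Sum.inl (i, t)) (Sum.inl (j, s)) ↔
      ((i = j ∧ t ≠ s) ∨ (t = 0 ∧ s = 0 ∧ ((i : ℕ) + 1 = j ∨ (j : ℕ) + 1 = i))) := Iff.rfl
  simp only [ent, Matrix.add_apply, SimpleGraph.adjMatrix_apply, Matrix.smul_apply,
    Matrix.one_apply, smul_eq_mul, hA, Sum.inl.injEq, Prod.mk.injEq]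
  by_cases hij : i = j
  · subst hij
    by_cases hts : t = s
    · subst hts
      simp
    · simp [hts]
  · by_cases hts : t = 0 ∧ s = 0
    · obtain ⟨h1, h2⟩ := hts
      subst h1 h2
      by_cases h3 : (i : ℕ) + 1 = j
      · have h4 : ¬ ((j : ℕ) + 1 = i) := by omega
        simp [hij, h3, h4]
      · by_cases h4 : (j : ℕ) + 1 = i
        · simp [hij, h3, h4]
        · simp [hij, h3, h4]
    · have : ¬ (t = 0 ∧ s = 0 ∧ ((i : ℕ) + 1 = j ∨ (j : ℕ) + 1 = i)) := by tauto
      simp [hij, hts, this]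

theorem ent_lr (L m : ℕ) (q : ℝ) (i : Fin (L + 1)) (t : Fin 3) (k : Fin m) :
    ent L m q (Sum.inl (i, t)) (Sum.inr k) =
      (if t = 0 ∧ ((i : ℕ) = 0 ∨ (i : ℕ) = L) then 1 else 0) := by
  have hA : (graph L m).Adj (Sum.inl (i, t)) (Sum.inr k) ↔
      (t = 0 ∧ ((i : ℕ) = 0 ∨ (i : ℕ) = L)) := Iff.rfl
  simp only [ent, Matrix.add_apply, SimpleGraph.adjMatrix_apply, Matrix.smul_apply,
    Matrix.one_apply, smul_eq_mul, hA]
  simp

theorem ent_rl (L m : ℕ) (q : ℝ) (i : Fin (L + 1)) (t : Fin 3) (k : Fin m) :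
    ent L m q (Sum.inr k) (Sum.inl (i, t)) =
      (if t = 0 ∧ ((i : ℕ) = 0 ∨ (i : ℕ) = L) then 1 else 0) := by
  have hA : (graph L m).Adj (Sum.inr k) (Sum.inl (i, t)) ↔
      (t = 0 ∧ ((i : ℕ) = 0 ∨ (i : ℕ) = L)) := Iff.rfl
  simp only [ent, Matrix.add_apply, SimpleGraph.adjMatrix_apply, Matrix.smul_apply,
    Matrix.one_apply, smul_eq_mul, hA]
  simp

theorem ent_rr (L m : ℕ) (q : ℝ) (k l : Fin m) :
    ent L m q (Sum.inr k) (Sum.inr l) = 1 + (if k = l then q - 1 else 0) := by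
  have hA : (graph L m).Adj (Sum.inr k) (Sum.inr l) ↔ k ≠ l := Iff.rfl
  simp only [ent, Matrix.add_apply, SimpleGraph.adjMatrix_apply, Matrix.smul_apply,
    Matrix.one_apply, smul_eq_mul, hA, Sum.inr.injEq]
  by_cases h : k = l <;> simp [h]

/-- The chain sum. -/
theorem chain_sum (L : ℕ) (u v : Fin (L + 1) → ℝ) :
    ∑ i : Fin (L + 1), ∑ j : Fin (L + 1), (if (i : ℕ) + 1 = (j : ℕ) then u i * v j else 0)
      = ∑ i : Fin L, u i.castSucc * v i.succ := by
  rw [Finset.sum_comm, Fin.sum_univ_succ]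
  have h0 : ∑ i : Fin (L + 1), (if (i : ℕ) + 1 = ((0 : Fin (L + 1)) : ℕ) then u i * v 0 else 0)
      = 0 := by
    apply Finset.sum_eq_zero
    intro i _
    rw [if_neg]
    simp
  rw [h0, zero_add]
  refine Finset.sum_congr rfl fun j _ => ?_
  have : ∀ i : Fin (L + 1), (if (i : ℕ) + 1 = ((j.succ : Fin (L + 1)) : ℕ) then u i * v j.succ
      else 0) = if j.castSucc = i then u i * v j.succ else 0 := by
    intro i
    congr 1
    rw [Fin.val_succ]
    apply propext
    constructor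
    · intro h
      apply Fin.ext
      simp only [Fin.val_castSucc]
      omega
    · intro h
      rw [← h]
      simp
  simp_rw [this]
  simp

/-- The ends of the chain. -/
theorem ends_sum (L : ℕ) (hL : 0 < L) (u : Fin (L + 1) → ℝ) :
    ∑ i : Fin (L + 1), (if (i : ℕ) = 0 ∨ (i : ℕ) = L then u i else 0)
      = u 0 + u (Fin.last L) := by
  have : ∀ i : Fin (L + 1), (if (i : ℕ) = 0 ∨ (i : ℕ) = L then u i else 0)
      = (if (0 : Fin (L + 1)) = i then u i else 0) + (if Fin.last L = i then u i else 0) := by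
    intro i
    by_cases h0 : (i : ℕ) = 0
    · have h1 : (0 : Fin (L + 1)) = i := Fin.ext (by simp [h0])
      have h2 : ¬ Fin.last L = i := by
        intro h
        rw [← h] at h0
        simp at h0
        omega
      simp [h0, h1, h2]
    · have h1 : ¬ (0 : Fin (L + 1)) = i := by
        intro h
        rw [← h] at h0
        simp at h0
      by_cases h3 : (i : ℕ) = L
      · have h2 : Fin.last L = i := Fin.ext (by simp [h3])
        simp [h3, h1, h2]
      · have h2 : ¬ Fin.last L = i := by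
          intro h
          rw [← h] at h3
          simp at h3
        simp [h0, h1, h2, h3]
  simp_rw [this, Finset.sum_add_distrib]
  simp

/-- The quadratic form of `A + q I`. -/
theorem quad (L m : ℕ) (hL : 0 < L) (q : ℝ) (x : V L m → ℝ) :
    ∑ v, ∑ w, x v * ent L m q v w * x w =
      ∑ i : Fin (L + 1), (q * x (Sum.inl (i, 0)) ^ 2 + q * x (Sum.inl (i, 1)) ^ 2
        + q * x (Sum.inl (i, 2)) ^ 2 + 2 * x (Sum.inl (i, 0)) * x (Sum.inl (i, 1))
        + 2 * x (Sum.inl (i, 0)) * x (Sum.inl (i, 2))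
        + 2 * x (Sum.inl (i, 1)) * x (Sum.inl (i, 2)))
      + 2 * ∑ i : Fin L, x (Sum.inl (i.castSucc, 0)) * x (Sum.inl (i.succ, 0))
      + 2 * (x (Sum.inl (0, 0)) + x (Sum.inl (Fin.last L, 0))) * ∑ k, x (Sum.inr k)
      + (q - 1) * ∑ k, x (Sum.inr k) ^ 2 + (∑ k, x (Sum.inr k)) ^ 2 := by
  have hll : ∑ i : Fin (L + 1), ∑ t : Fin 3, ∑ j : Fin (L + 1), ∑ s : Fin 3,
      x (Sum.inl (i, t)) * ent L m q (Sum.inl (i, t)) (Sum.inl (j, s)) * x (Sum.inl (j, s))
      = ∑ i : Fin (L + 1), (q * x (Sum.inl (i, 0)) ^ 2 + q * x (Sum.inl (i, 1)) ^ 2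
        + q * x (Sum.inl (i, 2)) ^ 2 + 2 * x (Sum.inl (i, 0)) * x (Sum.inl (i, 1))
        + 2 * x (Sum.inl (i, 0)) * x (Sum.inl (i, 2))
        + 2 * x (Sum.inl (i, 1)) * x (Sum.inl (i, 2)))
      + 2 * ∑ i : Fin L, x (Sum.inl (i.castSucc, 0)) * x (Sum.inl (i.succ, 0)) := by
    have e1 : ∀ i : Fin (L + 1), ∑ t : Fin 3, ∑ j : Fin (L + 1), ∑ s : Fin 3,
        x (Sum.inl (i, t)) * ent L m q (Sum.inl (i, t)) (Sum.inl (j, s)) * x (Sum.inl (j, s))
        = (q * x (Sum.inl (i, 0)) ^ 2 + q * x (Sum.inl (i, 1)) ^ 2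
        + q * x (Sum.inl (i, 2)) ^ 2 + 2 * x (Sum.inl (i, 0)) * x (Sum.inl (i, 1))
        + 2 * x (Sum.inl (i, 0)) * x (Sum.inl (i, 2))
        + 2 * x (Sum.inl (i, 1)) * x (Sum.inl (i, 2)))
        + (∑ j : Fin (L + 1), (if (i : ℕ) + 1 = (j : ℕ) then
            x (Sum.inl (i, 0)) * x (Sum.inl (j, 0)) else 0)
        + ∑ j : Fin (L + 1), (if (j : ℕ) + 1 = (i : ℕ) then
            x (Sum.inl (j, 0)) * x (Sum.inl (i, 0)) else 0)) := by
      intro i
      have e2 : ∀ t : Fin 3, ∑ j : Fin (L + 1), ∑ s : Fin 3,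
          x (Sum.inl (i, t)) * ent L m q (Sum.inl (i, t)) (Sum.inl (j, s)) * x (Sum.inl (j, s))
          = ∑ s : Fin 3, x (Sum.inl (i, t)) * (if t = s then q else 1) * x (Sum.inl (i, s))
          + if t = 0 then (∑ j : Fin (L + 1), (if (i : ℕ) + 1 = (j : ℕ) then
            x (Sum.inl (i, 0)) * x (Sum.inl (j, 0)) else 0)
        + ∑ j : Fin (L + 1), (if (j : ℕ) + 1 = (i : ℕ) then
            x (Sum.inl (j, 0)) * x (Sum.inl (i, 0)) else 0)) else 0 := by
        intro t
        have e3 : ∀ j : Fin (L + 1), ∑ s : Fin 3,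
            x (Sum.inl (i, t)) * ent L m q (Sum.inl (i, t)) (Sum.inl (j, s)) * x (Sum.inl (j, s))
            = (if i = j then ∑ s : Fin 3, x (Sum.inl (i, t)) * (if t = s then q else 1)
                * x (Sum.inl (j, s)) else 0)
            + (if t = 0 then ((if (i : ℕ) + 1 = (j : ℕ) then
            x (Sum.inl (i, 0)) * x (Sum.inl (j, 0)) else 0)
            + (if (j : ℕ) + 1 = (i : ℕ) then
            x (Sum.inl (j, 0)) * x (Sum.inl (i, 0)) else 0)) else 0) := by
          intro j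
          simp_rw [ent_ll]
          by_cases hij : i = j
          · subst hij
            simp only [if_true]
            by_cases ht : t = 0
            · subst ht
              simp [Fin.sum_univ_three]
            · simp [ht, Fin.sum_univ_three]
          · by_cases ht : t = 0
            · subst ht
              simp only [hij, if_false, Fin.sum_univ_three]
              by_cases h3 : (i : ℕ) + 1 = j
              · have h4 : ¬ ((j : ℕ) + 1 = i) := by omega
                simp [h3, h4]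
              · by_cases h4 : (j : ℕ) + 1 = i
                · simp [h3, h4]
                  ring
                · simp [h3, h4]
            · simp [ht, hij]
        simp_rw [e3, Finset.sum_add_distrib]
        congr 1
        · simp
        · by_cases ht : t = 0
          · simp only [ht, if_true, Finset.sum_add_distrib]
          · simp [ht]
      simp_rw [e2]
      rw [Fin.sum_univ_three]
      simp only [Fin.sum_univ_three]
      simp
      ring
    simp_rw [e1, Finset.sum_add_distrib]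
    rw [chain_sum L (fun i => x (Sum.inl (i, 0))) (fun i => x (Sum.inl (i, 0)))]
    rw [Finset.sum_comm (f := fun i j : Fin (L + 1) => if (j : ℕ) + 1 = (i : ℕ) then
            x (Sum.inl (j, 0)) * x (Sum.inl (i, 0)) else 0)]
    rw [chain_sum L (fun i => x (Sum.inl (i, 0))) (fun i => x (Sum.inl (i, 0)))]
    ring
  have hlr : ∑ i : Fin (L + 1), ∑ t : Fin 3, ∑ k : Fin m,
      x (Sum.inl (i, t)) * ent L m q (Sum.inl (i, t)) (Sum.inr k) * x (Sum.inr k)
      = (x (Sum.inl (0, 0)) + x (Sum.inl (Fin.last L, 0))) * ∑ k, x (Sum.inr k) := by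
    have e1 : ∀ i : Fin (L + 1), ∑ t : Fin 3, ∑ k : Fin m,
        x (Sum.inl (i, t)) * ent L m q (Sum.inl (i, t)) (Sum.inr k) * x (Sum.inr k)
        = if (i : ℕ) = 0 ∨ (i : ℕ) = L then x (Sum.inl (i, 0)) * ∑ k, x (Sum.inr k) else 0 := by
      intro i
      simp_rw [ent_lr]
      rw [Fin.sum_univ_three]
      by_cases h : (i : ℕ) = 0 ∨ (i : ℕ) = L
      · simp only [h, and_true, if_true, mul_one, Finset.mul_sum]
        simp
      · simp only [h, and_false, if_false]
        simp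
    simp_rw [e1]
    rw [ends_sum L hL (fun i => x (Sum.inl (i, 0)) * ∑ k, x (Sum.inr k))]
    ring
  have hrl : ∑ k : Fin m, ∑ i : Fin (L + 1), ∑ t : Fin 3,
      x (Sum.inr k) * ent L m q (Sum.inr k) (Sum.inl (i, t)) * x (Sum.inl (i, t))
      = (x (Sum.inl (0, 0)) + x (Sum.inl (Fin.last L, 0))) * ∑ k, x (Sum.inr k) := by
    have e1 : ∀ k : Fin m, ∑ i : Fin (L + 1), ∑ t : Fin 3,
      x (Sum.inr k) * ent L m q (Sum.inr k) (Sum.inl (i, t)) * x (Sum.inl (i, t))
        = (x (Sum.inl (0, 0)) + x (Sum.inl (Fin.last L, 0))) * x (Sum.inr k) := by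
      intro k
      have e2 : ∀ i : Fin (L + 1), ∑ t : Fin 3,
          x (Sum.inr k) * ent L m q (Sum.inr k) (Sum.inl (i, t)) * x (Sum.inl (i, t))
          = if (i : ℕ) = 0 ∨ (i : ℕ) = L then x (Sum.inl (i, 0)) * x (Sum.inr k) else 0 := by
        intro i
        simp_rw [ent_rl]
        rw [Fin.sum_univ_three]
        by_cases h : (i : ℕ) = 0 ∨ (i : ℕ) = L
        · simp only [h, and_true, if_true]
          simp
          ring
        · simp only [h, and_false, if_false]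
          simp
      simp_rw [e2]
      rw [ends_sum L hL (fun i => x (Sum.inl (i, 0)) * x (Sum.inr k))]
      ring
    simp_rw [e1]
    rw [Finset.mul_sum]
  have hrr : ∑ k : Fin m, ∑ l : Fin m,
      x (Sum.inr k) * ent L m q (Sum.inr k) (Sum.inr l) * x (Sum.inr l)
      = (q - 1) * ∑ k, x (Sum.inr k) ^ 2 + (∑ k, x (Sum.inr k)) ^ 2 := by
    have e1 : ∀ k l : Fin m,
        x (Sum.inr k) * ent L m q (Sum.inr k) (Sum.inr l) * x (Sum.inr l)
        = x (Sum.inr k) * x (Sum.inr l) + (if k = l then (q - 1) * (x (Sum.inr k) *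
          x (Sum.inr l)) else 0) := by
      intro k l
      rw [ent_rr]
      split_ifs <;> ring
    simp_rw [e1, Finset.sum_add_distrib]
    simp only [Finset.sum_ite_eq, Finset.mem_univ, if_true]
    rw [sq, Finset.sum_mul_sum, Finset.mul_sum, add_comm]
    congr 1
    exact Finset.sum_congr rfl fun k _ => by ring
  have hsplit : ∑ v, ∑ w, x v * ent L m q v w * x w
      = (∑ i : Fin (L + 1), ∑ t : Fin 3, ∑ j : Fin (L + 1), ∑ s : Fin 3,
      x (Sum.inl (i, t)) * ent L m q (Sum.inl (i, t)) (Sum.inl (j, s)) * x (Sum.inl (j, s)))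
      + (∑ i : Fin (L + 1), ∑ t : Fin 3, ∑ k : Fin m,
      x (Sum.inl (i, t)) * ent L m q (Sum.inl (i, t)) (Sum.inr k) * x (Sum.inr k))
      + ((∑ k : Fin m, ∑ i : Fin (L + 1), ∑ t : Fin 3,
      x (Sum.inr k) * ent L m q (Sum.inr k) (Sum.inl (i, t)) * x (Sum.inl (i, t)))
      + ∑ k : Fin m, ∑ l : Fin m,
      x (Sum.inr k) * ent L m q (Sum.inr k) (Sum.inr l) * x (Sum.inr l)) := by
    rw [Fintype.sum_sum_type]
    simp_rw [Fintype.sum_sum_type, Finset.sum_add_distrib, Fintype.sum_prod_type]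
  rw [hsplit, hll, hlr, hrl, hrr]
  ring

end Pool.Agent.Helper35.KoolenYang
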