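import Pool.Agent.Helper35.KoolenYangA
import Pool.Agent.Helper35.KoolenYangB

set_option autoImplicit false

namespace Pool.Agent.Helper35.KoolenYang

open Finset

/-- The harmonic weights. -/
noncomputable def g (L i : ℕ) : ℝ := 2 ^ L * (1 / 2) ^ i + 2 ^ i

theorem g_pos (L i : ℕ) : 0 < g L i := by unfold g; positivity

theorem g_rec (L i : ℕ) : g L i + g L (i + 2) = 5 / 2 * g L (i + 1) := by
  unfold g
  rw [pow_succ (1 / 2 : ℝ) (i + 1), pow_succ (1 / 2 : ℝ) i, pow_succ (2 : ℝ) (i + 1),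
    pow_succ (2 : ℝ) i]
  ring

theorem g_zero (L : ℕ) : g L 0 = 2 ^ L + 1 := by unfold g; simp

theorem g_one (L : ℕ) : g L 1 = 2 ^ L / 2 + 2 := by unfold g; ring

theorem g_last (L : ℕ) : g L L = 2 ^ L + 1 := by
  unfold g
  have : (2 : ℝ) ^ L * (1 / 2) ^ L = 1 := by
    rw [← mul_pow]
    norm_num
  rw [this]
  ring

theorem g_last_succ (L : ℕ) : g L (L + 1) = 2 * 2 ^ L + 1 / 2 := by
  unfold g
  have : (2 : ℝ) ^ L * (1 / 2) ^ (L + 1) = 1 / 2 := by
    rw [pow_succ, ← mul_assoc, ← mul_pow]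
    norm_num
  rw [this, pow_succ]
  ring

/-- Lower bound for the chain form. -/
theorem chain_lower (L : ℕ) (w : ℕ → ℝ) (n : ℕ) :
    (5 / 2 - g L 1 / g L 0) * w 0 ^ 2 + g L (n + 1) / g L n * w n ^ 2
      ≤ ∑ i ∈ range (n + 1), 5 / 2 * w i ^ 2 + 2 * ∑ i ∈ range n, w i * w (i + 1) := by
  induction n with
  | zero =>
    simp
    apply le_of_eq
    ring
  | succ n ih =>
    rw [Finset.sum_range_succ, Finset.sum_range_succ (fun i => w i * w (i + 1))]
    have h0 := g_pos L n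
    have h1 := g_pos L (n + 1)
    have hrec : g L (n + 1 + 1) / g L (n + 1) = 5 / 2 - g L n / g L (n + 1) := by
      rw [eq_sub_iff_add_eq, ← add_div, div_eq_iff h1.ne']
      have := g_rec L n
      linarith
    rw [hrec]
    have key : 0 ≤ g L (n + 1) / g L n * w n ^ 2 + 2 * (w n * w (n + 1))
        + g L n / g L (n + 1) * w (n + 1) ^ 2 := by
      have : g L (n + 1) / g L n * w n ^ 2 + 2 * (w n * w (n + 1))
        + g L n / g L (n + 1) * w (n + 1) ^ 2
        = (g L (n + 1) * w n + g L n * w (n + 1)) ^ 2 / (g L n * g L (n + 1)) := by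
        field_simp
        ring
      rw [this]
      positivity
    linarith

/-- The form evaluated at the harmonic weights. -/
theorem chain_value (L n : ℕ) :
    ∑ i ∈ range (n + 1), 40 * g L i ^ 2 - 32 * ∑ i ∈ range n, g L i * g L (i + 1)
      = 16 * g L 0 * (5 / 2 * g L 0 - g L 1) + 16 * g L n * g L (n + 1) := by
  induction n with
  | zero =>
    simp
    ring
  | succ n ih =>
    rw [Finset.sum_range_succ, Finset.sum_range_succ (fun i => g L i * g L (i + 1))]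
    have := g_rec L n
    have e : g L (n + 1 + 1) = 5 / 2 * g L (n + 1) - g L n := by
      have h2 : g L (n + 2) = g L (n + 1 + 1) := rfl
      linarith
    rw [e]
    linear_combination ih

/-- Positivity of the form of `A + 3 I`. -/
theorem form_nonneg (L m : ℕ) (hL : 0 < L) (hm : 0 < m) (hmL : 3 * m ≤ 8 * 2 ^ L + 2)
    (x : V L m → ℝ) : 0 ≤ ∑ v, ∑ w, x v * ent L m 3 v w * x w := by
  rw [quad L m hL 3 x]
  set σ := ∑ k, x (Sum.inr k) with hσ
  let w : ℕ → ℝ := fun i => if h : i < L + 1 then x (Sum.inl (⟨i, h⟩, 0)) else 0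
  have hw : ∀ i : Fin (L + 1), x (Sum.inl (i, 0)) = w i := by
    intro i
    simp only [w]
    rw [dif_pos i.2]
  have hblock : ∑ i : Fin (L + 1), 5 / 2 * w i ^ 2 ≤
      ∑ i : Fin (L + 1), (3 * x (Sum.inl (i, 0)) ^ 2 + 3 * x (Sum.inl (i, 1)) ^ 2
        + 3 * x (Sum.inl (i, 2)) ^ 2 + 2 * x (Sum.inl (i, 0)) * x (Sum.inl (i, 1))
        + 2 * x (Sum.inl (i, 0)) * x (Sum.inl (i, 2))
        + 2 * x (Sum.inl (i, 1)) * x (Sum.inl (i, 2))) := by
    apply Finset.sum_le_sum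
    intro i _
    rw [← hw i]
    nlinarith [sq_nonneg (x (Sum.inl (i, 1)) - x (Sum.inl (i, 2))),
      sq_nonneg (x (Sum.inl (i, 0)) + 2 * (x (Sum.inl (i, 1)) + x (Sum.inl (i, 2))))]
  have hr1 : ∑ i : Fin (L + 1), 5 / 2 * w i ^ 2 = ∑ i ∈ range (L + 1), 5 / 2 * w i ^ 2 :=
    Fin.sum_univ_eq_sum_range (fun i => 5 / 2 * w i ^ 2) (L + 1)
  have hr2 : ∑ i : Fin L, x (Sum.inl (i.castSucc, 0)) * x (Sum.inl (i.succ, 0))
      = ∑ i ∈ range L, w i * w (i + 1) := by
    rw [← Fin.sum_univ_eq_sum_range (fun i => w i * w (i + 1)) L]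
    refine Finset.sum_congr rfl fun i _ => ?_
    rw [hw, hw]
    simp
  have hch := chain_lower L w L
  have h0 : x (Sum.inl (0, 0)) = w 0 := by simpa using hw 0
  have hLast : x (Sum.inl (Fin.last L, 0)) = w L := by simpa using hw (Fin.last L)
  rw [hr1] at hblock
  rw [hr2, h0, hLast]
  have hcs : σ ^ 2 ≤ m * ∑ k, x (Sum.inr k) ^ 2 := by
    have := sq_sum_le_card_mul_sum_sq (s := (univ : Finset (Fin m)))
      (f := fun k => x (Sum.inr k))
    simpa using this
  have hP : (0 : ℝ) < 2 ^ L := by positivity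
  have hk0 : 5 / 2 - g L 1 / g L 0 = (2 * 2 ^ L + 1 / 2) / (2 ^ L + 1) := by
    rw [g_zero, g_one]
    field_simp
    ring
  rw [hk0, g_last_succ, g_last] at hch
  have hm' : (0 : ℝ) < m := by exact_mod_cast hm
  have hmL' : 3 * (m : ℝ) ≤ 8 * 2 ^ L + 2 := by exact_mod_cast hmL
  -- clique part
  set τ := ∑ k, x (Sum.inr k) ^ 2 with hτ
  set P : ℝ := 2 ^ L with hPdef
  have hclique : -((m : ℝ) / (m + 2)) * (w 0 + w L) ^ 2
      ≤ 2 * (w 0 + w L) * σ + (3 - 1) * τ + σ ^ 2 := by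
    have h1 : σ ^ 2 / m ≤ τ := by
      rw [div_le_iff₀ hm']
      linarith
    have h2 : -((m : ℝ) / (m + 2)) * (w 0 + w L) ^ 2
      ≤ 2 * (w 0 + w L) * σ + 2 * (σ ^ 2 / m) + σ ^ 2 := by
      have : 2 * (w 0 + w L) * σ + 2 * (σ ^ 2 / m) + σ ^ 2
          - (-((m : ℝ) / (m + 2)) * (w 0 + w L) ^ 2)
          = ((m + 2) * σ + m * (w 0 + w L)) ^ 2 / (m * (m + 2)) := by
        field_simp
        ring
      have h3 : 0 ≤ ((m + 2) * σ + m * (w 0 + w L)) ^ 2 / (m * (m + 2)) := by positivity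
      linarith
    linarith
  have hratio : (m : ℝ) / (m + 2) ≤ (2 * P + 1 / 2) / (P + 1) / 2 := by
    rw [div_div, div_le_div_iff₀ (by positivity) (by positivity)]
    nlinarith
  have hκ : (0 : ℝ) ≤ (2 * P + 1 / 2) / (P + 1) := by positivity
  have hfin : (m : ℝ) / (m + 2) * (w 0 + w L) ^ 2
      ≤ (2 * P + 1 / 2) / (P + 1) * w 0 ^ 2 + (2 * P + 1 / 2) / (P + 1) * w L ^ 2 := by
    have h1 : (m : ℝ) / (m + 2) * (w 0 + w L) ^ 2 ≤
        (2 * P + 1 / 2) / (P + 1) / 2 * (w 0 + w L) ^ 2 :=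
      mul_le_mul_of_nonneg_right hratio (sq_nonneg _)
    have h2 : (2 * P + 1 / 2) / (P + 1) / 2 * (w 0 + w L) ^ 2 ≤
        (2 * P + 1 / 2) / (P + 1) * w 0 ^ 2 + (2 * P + 1 / 2) / (P + 1) * w L ^ 2 := by
      nlinarith [mul_nonneg hκ (sq_nonneg (w 0 - w L))]
    linarith
  linarith

/-- Test vector for `A + 2 I`. -/
theorem form_neg (L m : ℕ) (hL : 3 ≤ L) :
    ∃ x : V L m → ℝ, ∑ v, ∑ w, x v * ent L m 2 v w * x w < 0 := by
  let x : V L m → ℝ := fun v => match v with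
    | Sum.inl (i, t) => if t = 0 then 3 * (-1) ^ (i : ℕ) else -(-1) ^ (i : ℕ)
    | Sum.inr _ => 0
  refine ⟨x, ?_⟩
  rw [quad L m (by omega) 2 x]
  have hx0 : ∀ i : Fin (L + 1), x (Sum.inl (i, 0)) = 3 * (-1) ^ (i : ℕ) := fun i => by simp [x]
  have hx1 : ∀ i : Fin (L + 1), x (Sum.inl (i, 1)) = -(-1) ^ (i : ℕ) := fun i => by simp [x]
  have hx2 : ∀ i : Fin (L + 1), x (Sum.inl (i, 2)) = -(-1) ^ (i : ℕ) := fun i => by simp [x]
  have hxr : ∀ k : Fin m, x (Sum.inr k) = 0 := fun k => by simp [x]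
  have hsq : ∀ i : ℕ, ((-1 : ℝ) ^ i) ^ 2 = 1 := by
    intro i
    rw [← pow_mul, mul_comm, pow_mul]
    norm_num
  have h1 : ∑ i : Fin (L + 1), (2 * x (Sum.inl (i, 0)) ^ 2 + 2 * x (Sum.inl (i, 1)) ^ 2
        + 2 * x (Sum.inl (i, 2)) ^ 2 + 2 * x (Sum.inl (i, 0)) * x (Sum.inl (i, 1))
        + 2 * x (Sum.inl (i, 0)) * x (Sum.inl (i, 2))
        + 2 * x (Sum.inl (i, 1)) * x (Sum.inl (i, 2))) = 12 * ((L : ℝ) + 1) := by
    have : ∀ i : Fin (L + 1), (2 * x (Sum.inl (i, 0)) ^ 2 + 2 * x (Sum.inl (i, 1)) ^ 2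
        + 2 * x (Sum.inl (i, 2)) ^ 2 + 2 * x (Sum.inl (i, 0)) * x (Sum.inl (i, 1))
        + 2 * x (Sum.inl (i, 0)) * x (Sum.inl (i, 2))
        + 2 * x (Sum.inl (i, 1)) * x (Sum.inl (i, 2))) = 12 := by
      intro i
      rw [hx0, hx1, hx2]
      linear_combination 12 * hsq i
    simp_rw [this]
    simp
    ring
  have h2 : ∑ i : Fin L, x (Sum.inl (i.castSucc, 0)) * x (Sum.inl (i.succ, 0))
      = -9 * (L : ℝ) := by
    have : ∀ i : Fin L, x (Sum.inl (i.castSucc, 0)) * x (Sum.inl (i.succ, 0)) = -9 := by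
      intro i
      rw [hx0, hx0]
      simp only [Fin.val_castSucc, Fin.val_succ, pow_succ]
      linear_combination -9 * hsq i
    simp_rw [this]
    simp
    ring
  rw [h1, h2]
  simp_rw [hxr]
  simp only [Finset.sum_const_zero, mul_zero]
  have : (3 : ℝ) ≤ L := by exact_mod_cast hL
  norm_num
  linarith

/-- There is no integral representation with a large clique. -/
theorem no_rep (L m c p : ℕ) (hL : 0 < L) (hLe : Even L) (hc : 0 < c)
    (hm : 48 * (c * c) + 16 * c + 2 ≤ m) (X : V L m → Fin p → ℤ)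
    (hX : ∀ v w, ((∑ j, X v j * X w j : ℤ) : ℝ) = c * ent L m 3 v w) : False := by
  -- the clique family
  have hS : ∀ k l : Fin m, ∑ j, X (Sum.inr k) j * X (Sum.inr l) j
      = if k = l then 3 * (c : ℤ) else (c : ℤ) := by
    intro k l
    have h := hX (Sum.inr k) (Sum.inr l)
    rw [ent_rr] at h
    have h' : ((∑ j, X (Sum.inr k) j * X (Sum.inr l) j : ℤ) : ℝ)
        = ((if k = l then 3 * (c : ℤ) else (c : ℤ) : ℤ) : ℝ) := by
      rw [h]
      split_ifs <;> push_cast <;> ring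
    exact_mod_cast h'
  obtain ⟨E, hE1, hE2⟩ := exists_core (S := fun k => X (Sum.inr k)) hS hm
  have hXE : ∀ (i : Fin (L + 1)) (t : Fin 3), ∑ j, X (Sum.inl (i, t)) j * E j
      = if t = 0 ∧ ((i : ℕ) = 0 ∨ (i : ℕ) = L) then (c : ℤ) else 0 := by
    intro i t
    apply hE2
    · have h := hX (Sum.inl (i, t)) (Sum.inl (i, t))
      rw [ent_ll] at h
      have hz : (if t = 0 ∧ t = 0 then
        ((if (i : ℕ) + 1 = i then (1 : ℝ) else 0) + (if (i : ℕ) + 1 = i then 1 else 0)) else 0)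
        = 0 := by simp
      rw [hz] at h
      have h' : ((∑ j, X (Sum.inl (i, t)) j ^ 2 : ℤ) : ℝ) = ((3 * (c : ℤ) : ℤ) : ℝ) := by
        have : ∑ j, X (Sum.inl (i, t)) j ^ 2
            = ∑ j, X (Sum.inl (i, t)) j * X (Sum.inl (i, t)) j :=
          Finset.sum_congr rfl fun j _ => by ring
        rw [this, h]
        push_cast
        simp
        ring
      have h'' : ∑ j, X (Sum.inl (i, t)) j ^ 2 = 3 * (c : ℤ) := by exact_mod_cast h'
      exact h''.le
    · intro k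
      have h := hX (Sum.inl (i, t)) (Sum.inr k)
      rw [ent_lr] at h
      have h' : ((∑ j, X (Sum.inl (i, t)) j * X (Sum.inr k) j : ℤ) : ℝ)
        = ((if t = 0 ∧ ((i : ℕ) = 0 ∨ (i : ℕ) = L) then (c : ℤ) else 0 : ℤ) : ℝ) := by
        rw [h]
        split_ifs <;> push_cast <;> ring
      exact_mod_cast h'
  -- the harmonic vector
  let z : V L m → ℝ := fun v => match v with
    | Sum.inl (i, t) => if t = 0 then 4 * ((-1) ^ (i : ℕ) * g L i)
        else -((-1) ^ (i : ℕ) * g L i)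
    | Sum.inr _ => 0
  have hz0 : ∀ i : Fin (L + 1), z (Sum.inl (i, 0)) = 4 * ((-1) ^ (i : ℕ) * g L i) :=
    fun i => by simp [z]
  have hz1 : ∀ i : Fin (L + 1), z (Sum.inl (i, 1)) = -((-1) ^ (i : ℕ) * g L i) :=
    fun i => by simp [z]
  have hz2 : ∀ i : Fin (L + 1), z (Sum.inl (i, 2)) = -((-1) ^ (i : ℕ) * g L i) :=
    fun i => by simp [z]
  have hzr : ∀ k : Fin m, z (Sum.inr k) = 0 := fun k => by simp [z]
  have hsq : ∀ i : ℕ, ((-1 : ℝ) ^ i) ^ 2 = 1 := by
    intro i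
    rw [← pow_mul, mul_comm, pow_mul]
    norm_num
  let W : Fin p → ℝ := fun j => ∑ v, z v * (X v j : ℝ)
  have hWW : ∑ j, W j ^ 2 = c * ∑ v, ∑ w, z v * ent L m 3 v w * z w := by
    have h1 : ∀ j, W j ^ 2 = ∑ v, ∑ w, z v * z w * ((X v j : ℝ) * (X w j : ℝ)) := by
      intro j
      simp only [W]
      rw [sq, Finset.sum_mul_sum]
      refine Finset.sum_congr rfl fun v _ => Finset.sum_congr rfl fun w _ => ?_
      ring
    simp_rw [h1]
    rw [Finset.sum_comm, Finset.mul_sum]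
    refine Finset.sum_congr rfl fun v _ => ?_
    rw [Finset.sum_comm, Finset.mul_sum]
    refine Finset.sum_congr rfl fun w _ => ?_
    rw [← Finset.mul_sum]
    have h2 := hX v w
    push_cast at h2
    rw [h2]
    ring
  have hquad : ∑ v, ∑ w, z v * ent L m 3 v w * z w = 32 * (2 ^ L + 1) * (2 * 2 ^ L + 1 / 2) := by
    rw [quad L m hL 3 z]
    have h1 : ∑ i : Fin (L + 1), (3 * z (Sum.inl (i, 0)) ^ 2 + 3 * z (Sum.inl (i, 1)) ^ 2
        + 3 * z (Sum.inl (i, 2)) ^ 2 + 2 * z (Sum.inl (i, 0)) * z (Sum.inl (i, 1))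
        + 2 * z (Sum.inl (i, 0)) * z (Sum.inl (i, 2))
        + 2 * z (Sum.inl (i, 1)) * z (Sum.inl (i, 2)))
        = ∑ i ∈ range (L + 1), 40 * g L i ^ 2 := by
      rw [← Fin.sum_univ_eq_sum_range (fun i => 40 * g L i ^ 2) (L + 1)]
      refine Finset.sum_congr rfl fun i _ => ?_
      rw [hz0, hz1, hz2]
      linear_combination (40 * g L i ^ 2) * hsq i
    have h2 : ∑ i : Fin L, z (Sum.inl (i.castSucc, 0)) * z (Sum.inl (i.succ, 0))
        = -16 * ∑ i ∈ range L, g L i * g L (i + 1) := by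
      rw [← Fin.sum_univ_eq_sum_range (fun i => g L i * g L (i + 1)) L, Finset.mul_sum]
      refine Finset.sum_congr rfl fun i _ => ?_
      rw [hz0, hz0]
      simp only [Fin.val_castSucc, Fin.val_succ, pow_succ (-1 : ℝ)]
      linear_combination (-16 * g L i * g L (i + 1)) * hsq i
    rw [h1, h2]
    simp_rw [hzr]
    simp only [Finset.sum_const_zero, mul_zero]
    have h3 := chain_value L L
    rw [g_zero, g_one, g_last, g_last_succ] at h3
    norm_num
    linear_combination h3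
  have hWE : ∑ j, W j * (E j : ℝ) = 8 * c * (2 ^ L + 1) := by
    have h1 : ∑ j, W j * (E j : ℝ) = ∑ v, z v * ((∑ j, X v j * E j : ℤ) : ℝ) := by
      simp only [W]
      push_cast
      simp_rw [Finset.sum_mul, Finset.mul_sum]
      rw [Finset.sum_comm]
      refine Finset.sum_congr rfl fun v _ => Finset.sum_congr rfl fun j _ => ?_
      ring
    rw [h1, Fintype.sum_sum_type]
    simp_rw [hzr, zero_mul, Finset.sum_const_zero, add_zero, Fintype.sum_prod_type, hXE]
    have h2 : ∀ i : Fin (L + 1), ∑ t : Fin 3, z (Sum.inl (i, t)) *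
        ((if t = 0 ∧ ((i : ℕ) = 0 ∨ (i : ℕ) = L) then (c : ℤ) else 0 : ℤ) : ℝ)
        = if (i : ℕ) = 0 ∨ (i : ℕ) = L then z (Sum.inl (i, 0)) * c else 0 := by
      intro i
      rw [Fin.sum_univ_three]
      by_cases h : (i : ℕ) = 0 ∨ (i : ℕ) = L
      · simp only [h, and_true, if_true]
        simp
      · simp only [h, and_false, if_false]
        simp
    simp_rw [h2]
    rw [ends_sum L hL (fun i => z (Sum.inl (i, 0)) * (c : ℝ)), hz0, hz0]
    simp only [Fin.val_zero, Fin.val_last, pow_zero, hLe.neg_one_pow]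
    rw [g_zero, g_last]
    ring
  have hEE : ∑ j, (E j : ℝ) ^ 2 = c := by
    have : ((∑ j, E j ^ 2 : ℤ) : ℝ) = ((c : ℤ) : ℝ) := by rw [hE1]
    push_cast at this
    exact this
  have hCS := Finset.sum_mul_sq_le_sq_mul_sq univ W (fun j => (E j : ℝ))
  rw [hWE, hWW, hEE, hquad] at hCS
  have hc' : (0 : ℝ) < c := by exact_mod_cast hc
  have hP : (0 : ℝ) < 2 ^ L := by positivity
  set P : ℝ := 2 ^ L with hPdef
  have h3 : (0 : ℝ) < c * c * (P + 1) := by positivity
  nlinarith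

/-- For every positive `c` there is a graph with smallest eigenvalue in `[-3,-2)`
which is not `c`-integrable. -/
theorem main (c : ℕ) (hc : 0 < c) :
    ∃ (n : ℕ) (G : SimpleGraph (Fin n)) (_ : DecidableRel G.Adj),
      (G.adjMatrix ℝ + (3 : ℝ) • (1 : Matrix (Fin n) (Fin n) ℝ)).PosSemidef ∧
      ¬ (G.adjMatrix ℝ + (2 : ℝ) • (1 : Matrix (Fin n) (Fin n) ℝ)).PosSemidef ∧
      ¬ ∃ (p : ℕ) (N : Matrix (Fin n) (Fin p) ℤ),
            (c : ℤ) • (G.adjMatrix ℤ + (3 : ℤ) • (1 : Matrix (Fin n) (Fin n) ℤ))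
              = N * N.transpose := by
  obtain ⟨m, hm⟩ : ∃ m, m = 48 * (c * c) + 16 * c + 2 := ⟨_, rfl⟩
  have hm0 : 0 < m := by omega
  obtain ⟨L, hLdef⟩ : ∃ L, L = 2 * m := ⟨_, rfl⟩
  have hL3 : 3 ≤ L := by omega
  have hL0 : 0 < L := by omega
  have hLe : Even L := ⟨m, by omega⟩
  have hmL : 3 * m ≤ 8 * 2 ^ L + 2 := by
    have h1 : m < 2 ^ m := Nat.lt_two_pow_self
    have h2 : 2 ^ m ≤ 2 ^ L := Nat.pow_le_pow_right (by norm_num) (by omega)
    omega
  let e : V L m ≃ Fin (Fintype.card (V L m)) := Fintype.equivFin _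
  let G : SimpleGraph (Fin (Fintype.card (V L m))) := (graph L m).comap e.symm
  let dec : DecidableRel G.Adj := Classical.decRel _
  have hsub : ∀ q : ℝ, G.adjMatrix ℝ + q • (1 : Matrix _ _ ℝ)
      = ((graph L m).adjMatrix ℝ + q • (1 : Matrix _ _ ℝ)).submatrix e.symm e.symm := by
    intro q
    ext a b
    simp only [Matrix.add_apply, Matrix.smul_apply, Matrix.submatrix_apply,
      SimpleGraph.adjMatrix_apply, Matrix.one_apply, G, SimpleGraph.comap_adj,
      EmbeddingLike.apply_eq_iff_eq]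
  have hform : ∀ (q : ℝ) (x : V L m → ℝ), star x ⬝ᵥ (((graph L m).adjMatrix ℝ
      + q • (1 : Matrix _ _ ℝ)).mulVec x) = ∑ v, ∑ w, x v * ent L m q v w * x w := by
    intro q x
    simp only [dotProduct, Matrix.mulVec, star_trivial, Finset.mul_sum, ent]
    refine Finset.sum_congr rfl fun v _ => Finset.sum_congr rfl fun w _ => ?_
    ring
  have hherm : ∀ q : ℝ, ((graph L m).adjMatrix ℝ + q • (1 : Matrix _ _ ℝ)).IsHermitian := by
    intro q
    rw [Matrix.IsHermitian, Matrix.conjTranspose_eq_transpose_of_trivial]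
    ext a b
    simp only [Matrix.transpose_apply, Matrix.add_apply, Matrix.smul_apply,
      SimpleGraph.adjMatrix_apply, Matrix.one_apply, SimpleGraph.adj_comm (graph L m) b a,
      eq_comm (a := b) (b := a)]
  refine ⟨_, G, dec, ?_, ?_, ?_⟩
  · rw [hsub 3]
    rw [Matrix.posSemidef_submatrix_equiv]
    rw [Matrix.posSemidef_iff_dotProduct_mulVec]
    refine ⟨hherm 3, fun x => ?_⟩
    rw [hform]
    exact form_nonneg L m hL0 hm0 hmL x
  · rw [hsub 2, Matrix.posSemidef_submatrix_equiv, Matrix.posSemidef_iff_dotProduct_mulVec]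
    rintro ⟨-, h⟩
    obtain ⟨x, hx⟩ := form_neg L m hL3
    have := h x
    rw [hform] at this
    linarith
  · rintro ⟨p, N, hN⟩
    refine no_rep L m c p hL0 hLe hc hm.ge (fun v j => N (e v) j) ?_
    intro v w
    have h1 := congrFun (congrFun hN (e v)) (e w)
    simp only [Matrix.mul_apply, Matrix.transpose_apply, Matrix.smul_apply, Matrix.add_apply,
      SimpleGraph.adjMatrix_apply, Matrix.one_apply, G, SimpleGraph.comap_adj,
      Equiv.symm_apply_apply, EmbeddingLike.apply_eq_iff_eq] at h1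
    rw [← h1]
    simp only [ent, Matrix.add_apply, Matrix.smul_apply, SimpleGraph.adjMatrix_apply,
      Matrix.one_apply, smul_eq_mul]
    push_cast
    by_cases h2 : (graph L m).Adj v w <;> by_cases h3 : v = w <;> simp [h2, h3]

end Pool.Agent.Helper35.KoolenYang
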